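import Mathlib

/-!
# Nilpotency of an augmentation ideal from congruences: preliminaries
-/

set_option autoImplicit false
set_option linter.unusedSectionVars false
set_option linter.unusedVariables false

namespace Run7.h784

open Matrix IsLocalRing

section basic

variable {A : Type} [CommRing A] {n : ℕ} {I : Submodule A (Matrix (Fin n) (Fin n) A)}

lemma pow_anti (hI : I * I ≤ I) {i j : ℕ} (hi : 1 ≤ i) (hij : i ≤ j) : I ^ j ≤ I ^ i := by
  induction j, hij using Nat.le_induction with
  | base => exact le_rfl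
  | succ j hij ih =>
    refine le_trans ?_ ih
    obtain ⟨j', rfl⟩ := Nat.exists_eq_add_of_le (hi.trans hij)
    rw [show 1 + j' + 1 = j' + 2 by ring, show 1 + j' = j' + 1 by ring, pow_add, pow_add, pow_two,
      pow_one]
    exact mul_le_mul' le_rfl hI

/-- conjugation by `T` acts on `I ^ j / I ^ (j + 1)` as `c ^ j` -/
lemma pow_conj (hI : I * I ≤ I) (T : GL (Fin n) A) (c : A)
    (hc : ∀ x ∈ I, (T : Matrix (Fin n) (Fin n) A) * x *
      ((T⁻¹ : GL (Fin n) A) : Matrix (Fin n) (Fin n) A) - c • x ∈ I ^ 2) :
    ∀ j : ℕ, 1 ≤ j → ∀ x ∈ I ^ j, (T : Matrix (Fin n) (Fin n) A) * x *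
      ((T⁻¹ : GL (Fin n) A) : Matrix (Fin n) (Fin n) A) - c ^ j • x ∈ I ^ (j + 1) := by
  intro j hj
  induction j, hj using Nat.le_induction with
  | base =>
    intro x hx
    rw [pow_one] at hx ⊢
    exact hc x hx
  | succ j hj ih =>
    intro x hx
    rw [pow_succ] at hx
    induction hx using Submodule.mul_induction_on' with
    | mem_mul_mem y hy z hz =>
      have h1 := ih y hy
      have h2 := hc z hz
      set y' := (T : Matrix (Fin n) (Fin n) A) * y *
        ((T⁻¹ : GL (Fin n) A) : Matrix (Fin n) (Fin n) A) - c ^ j • y with hy'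
      set z' := (T : Matrix (Fin n) (Fin n) A) * z *
        ((T⁻¹ : GL (Fin n) A) : Matrix (Fin n) (Fin n) A) - c • z with hz'
      have e1 : (T : Matrix (Fin n) (Fin n) A) * (y * z) *
          ((T⁻¹ : GL (Fin n) A) : Matrix (Fin n) (Fin n) A) = (c ^ j • y + y') * (c • z + z') := by
        rw [hy', hz', add_sub_cancel, add_sub_cancel]
        have h3 : ((T⁻¹ : GL (Fin n) A) : Matrix (Fin n) (Fin n) A) *
          (T : Matrix (Fin n) (Fin n) A) = 1 := Units.inv_mul T
        calc (T : Matrix (Fin n) (Fin n) A) * (y * z) *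
            ((T⁻¹ : GL (Fin n) A) : Matrix (Fin n) (Fin n) A)
            = (T : Matrix (Fin n) (Fin n) A) * y * 1 * (z *
              ((T⁻¹ : GL (Fin n) A) : Matrix (Fin n) (Fin n) A)) := by
              rw [mul_one]; simp only [mul_assoc]
          _ = _ := by rw [← h3]; simp only [mul_assoc]
      have e2 : (c ^ j • y + y') * (c • z + z') - c ^ (j + 1) • (y * z) =
          c ^ j • (y * z') + c • (y' * z) + y' * z' := by
        rw [add_mul, mul_add, mul_add, smul_mul_smul_comm, ← pow_succ, smul_mul_assoc,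
          mul_smul_comm]
        abel
      rw [e1, e2]
      refine Submodule.add_mem _ (Submodule.add_mem _ (Submodule.smul_mem _ _ ?_)
        (Submodule.smul_mem _ _ ?_)) ?_
      · rw [show j + 1 + 1 = j + 2 by ring, pow_add]
        exact Submodule.mul_mem_mul hy h2
      · rw [pow_succ _ (j + 1)]
        exact Submodule.mul_mem_mul h1 hz
      · have h3 : y' * z' ∈ I ^ (j + 1 + 2) := by
          rw [pow_add _ (j + 1)]
          exact Submodule.mul_mem_mul h1 h2
        exact pow_anti hI (by omega) (by omega) h3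
    | add y _ z _ hy hz =>
      have e1 : (T : Matrix (Fin n) (Fin n) A) * (y + z) *
          ((T⁻¹ : GL (Fin n) A) : Matrix (Fin n) (Fin n) A) - c ^ (j + 1) • (y + z) =
          ((T : Matrix (Fin n) (Fin n) A) * y *
          ((T⁻¹ : GL (Fin n) A) : Matrix (Fin n) (Fin n) A) - c ^ (j + 1) • y) +
          ((T : Matrix (Fin n) (Fin n) A) * z *
          ((T⁻¹ : GL (Fin n) A) : Matrix (Fin n) (Fin n) A) - c ^ (j + 1) • z) := by
        rw [mul_add, add_mul, smul_add]
        abel
      rw [e1]
      exact Submodule.add_mem _ hy hz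

lemma tors_step {i : ℕ} {s : A} (h : ∀ x ∈ I ^ i, s • x ∈ I ^ (i + 1)) :
    ∀ j : ℕ, i ≤ j → ∀ x ∈ I ^ j, s • x ∈ I ^ (j + 1) := by
  intro j hj
  induction j, hj using Nat.le_induction with
  | base => exact h
  | succ j hj ih =>
    intro x hx
    rw [pow_succ] at hx
    induction hx using Submodule.mul_induction_on' with
    | mem_mul_mem y hy z hz =>
      rw [← smul_mul_assoc, pow_succ _ (j + 1)]
      exact Submodule.mul_mem_mul (ih y hy) hz
    | add y _ z _ hy hz =>
      rw [smul_add]
      exact Submodule.add_mem _ hy hz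

end basic

section tors

variable {A : Type} [CommRing A] [IsDomain A] [IsNoetherianRing A] {n : ℕ}
  {I : Submodule A (Matrix (Fin n) (Fin n) A)}

/-- the decreasing powers have torsion quotients from some point on -/
lemma exists_tors (hI : I * I ≤ I) : ∃ i : ℕ, 1 ≤ i ∧ ∃ s : A, s ≠ 0 ∧
    ∀ x ∈ I ^ i, s • x ∈ I ^ (i + 1) := by
  classical
  -- ranks
  have hanti : ∀ i, Module.finrank A (I ^ (i + 2) : Submodule A _) ≤
      Module.finrank A (I ^ (i + 1) : Submodule A _) := fun i =>
    Submodule.finrank_mono (pow_anti hI (by omega) (by omega))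
  obtain ⟨i, hi⟩ : ∃ i, Module.finrank A (I ^ (i + 1) : Submodule A _) ≤
      Module.finrank A (I ^ (i + 2) : Submodule A _) := by
    by_contra hcon
    push Not at hcon
    have h1 : ∀ i, Module.finrank A (I ^ (i + 1) : Submodule A _) + i ≤
        Module.finrank A (I ^ (0 + 1) : Submodule A _) := by
      intro i
      induction i with
      | zero => exact le_rfl
      | succ i ih =>
        have := hcon i
        rw [show i + 1 + 1 = i + 2 by ring]
        omega
    have := h1 (Module.finrank A (I ^ (0 + 1) : Submodule A _) + 1)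
    omega
  refine ⟨i + 1, by omega, ?_⟩
  set N1 : Submodule A (Matrix (Fin n) (Fin n) A) := I ^ (i + 1) with hN1
  set N2 : Submodule A (Matrix (Fin n) (Fin n) A) := I ^ (i + 1 + 1) with hN2
  have hle : N2 ≤ N1 := pow_anti hI (by omega) (by omega)
  have hrk : Module.finrank A N1 = Module.finrank A N2 := le_antisymm hi (hanti i)
  -- every element is torsion modulo the smaller one
  have hel : ∀ x ∈ N1, ∃ s : A, s ≠ 0 ∧ s • x ∈ N2 := by
    intro x hx
    by_contra hcon
    push Not at hcon
    -- then the rank of `N2 + A x` is larger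
    have hfree : ∀ s : A, s • x ∈ N2 → s = 0 := by
      intro s hs
      by_contra hs0
      exact hcon s hs0 hs
    have hr := Submodule.finrank_quotient_add_finrank (R := A) (N2.comap N1.subtype)
    have h2 : Module.finrank A (N2.comap N1.subtype) = Module.finrank A N2 :=
      (Submodule.comapSubtypeEquivOfLe hle).finrank_eq
    have h3 : Module.finrank A (N1 ⧸ N2.comap N1.subtype) = 0 := by omega
    have h4 := Module.finrank_eq_zero_iff.1 h3 (Submodule.Quotient.mk ⟨x, hx⟩)
    obtain ⟨s, hs, hsx⟩ := h4
    apply hcon s hs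
    rw [← Submodule.Quotient.mk_smul, Submodule.Quotient.mk_eq_zero] at hsx
    exact hsx
  obtain ⟨S, hS⟩ := (IsNoetherian.noetherian N1 : N1.FG)
  have hSm : ∀ x ∈ S, x ∈ N1 := fun x hx => hS ▸ Submodule.subset_span hx
  choose! s hs using hel
  refine ⟨∏ x ∈ S, s x, Finset.prod_ne_zero_iff.2 fun x hx => (hs x (hSm x hx)).1, ?_⟩
  intro x hx
  rw [← hS] at hx
  induction hx using Submodule.span_induction with
  | mem x hx =>
    have h1 : ∏ y ∈ S, s y = (∏ y ∈ S.erase x, s y) * s x :=
      (Finset.prod_erase_mul S s hx).symm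
    rw [h1, mul_smul]
    exact Submodule.smul_mem _ _ (hs x (hSm x hx)).2
  | zero => rw [smul_zero]; exact Submodule.zero_mem _
  | add x y _ _ hx hy => rw [smul_add]; exact Submodule.add_mem _ hx hy
  | smul a x _ hx => rw [smul_comm]; exact Submodule.smul_mem _ _ hx

end tors

end Run7.h784
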