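import Mathlib

/-!
# The `l`-adic valuations of `c ^ b - 1` and their sums
-/

set_option autoImplicit false

namespace Run7.h784

/-- the `l`-adic valuation of `c ^ b - 1` -/
def vv (l c b : ℕ) : ℕ := padicValNat l (c ^ b - 1)

/-- the sum of the first `r` of these valuations -/
def SS (l c r : ℕ) : ℕ := ∑ b ∈ Finset.range r, vv l c (b + 1)

lemma vv_odd {l c : ℕ} [hl : Fact l.Prime] (hodd : Odd l) (hc1 : 1 < c) (hcl : ¬ l ∣ c) {b : ℕ}
    (hb : b ≠ 0) : vv l c b = if orderOf (c : ZMod l) ∣ b then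
      vv l c (orderOf (c : ZMod l)) + padicValNat l (b / orderOf (c : ZMod l)) else 0 := by
  have hiff : ∀ b : ℕ, orderOf (c : ZMod l) ∣ b ↔ l ∣ c ^ b - 1 := by
    intro b
    rw [orderOf_dvd_iff_pow_eq_one, ← Nat.modEq_iff_dvd' (Nat.one_le_pow _ _ (by omega)),
      ← ZMod.natCast_eq_natCast_iff]
    push_cast
    exact eq_comm
  have hN : 0 < orderOf (c : ZMod l) := by
    have h0 : (c : ZMod l) ≠ 0 := by
      rwa [Ne, ZMod.natCast_eq_zero_iff]
    have h1 := ZMod.pow_card_sub_one_eq_one h0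
    have hl2 := hl.out.two_le
    exact orderOf_pos_iff.2 (isOfFinOrder_iff_pow_eq_one.2 ⟨l - 1, by omega, h1⟩)
  split_ifs with h
  · obtain ⟨t, rfl⟩ := h
    have ht : t ≠ 0 := by
      rintro rfl
      exact hb (mul_zero _)
    rw [Nat.mul_div_cancel_left _ hN]
    unfold vv
    have h2 : l ∣ c ^ orderOf (c : ZMod l) - 1 := (hiff _).1 dvd_rfl
    have h3 := padicValNat.pow_sub_pow (x := c ^ orderOf (c : ZMod l)) (y := 1) hodd
      (Nat.one_lt_pow hN.ne' hc1) h2 (fun h => hcl (hl.out.dvd_of_dvd_pow h)) ht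
    rw [one_pow, ← pow_mul] at h3
    exact h3
  · unfold vv
    exact padicValNat.eq_zero_of_not_dvd fun h' => h ((hiff _).2 h')

lemma vv_two {c : ℕ} (hc1 : 1 < c) (hc : 4 ∣ c - 1) {b : ℕ} (hb : b ≠ 0) :
    vv 2 c b = if 1 ∣ b then vv 2 c 1 + padicValNat 2 (b / 1) else 0 := by
  rw [if_pos (one_dvd _), Nat.div_one]
  unfold vv
  rw [pow_one]
  have h1 := Int.two_pow_sub_pow' (x := (c : ℤ)) (y := 1) b (by
    have : ((c - 1 : ℕ) : ℤ) = (c : ℤ) - 1 := by push_cast [Nat.cast_sub hc1.le]; ring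
    rw [← this]
    exact_mod_cast hc) (by omega)
  rw [one_pow] at h1
  have e1 : ((c : ℤ) ^ b - 1) = ((c ^ b - 1 : ℕ) : ℤ) := by
    rw [Nat.cast_sub (Nat.one_le_pow _ _ (by omega))]
    push_cast
    ring
  have e2 : ((c : ℤ) - 1) = ((c - 1 : ℕ) : ℤ) := by
    rw [Nat.cast_sub (by omega)]
    push_cast
    ring
  have e3 : (2 : ℤ) = ((2 : ℕ) : ℤ) := rfl
  rw [e1, e2, e3, Int.natCast_emultiplicity, Int.natCast_emultiplicity,
    Int.natCast_emultiplicity] at h1
  have hb1 : c ^ b - 1 ≠ 0 := by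
    have := Nat.one_lt_pow hb hc1
    omega
  rw [← padicValNat_eq_emultiplicity hb1, ← padicValNat_eq_emultiplicity (by omega : c - 1 ≠ 0),
    ← padicValNat_eq_emultiplicity hb] at h1
  exact_mod_cast h1

lemma SS_bound {l c N ε : ℕ} [hl : Fact l.Prime] (hN : 1 ≤ N)
    (hv : ∀ b, b ≠ 0 → vv l c b = if N ∣ b then ε + padicValNat l (b / N) else 0) (r : ℕ) :
    (l - 1) * N * SS l c r ≤ ((l - 1) * ε + 1) * r := by
  have h1 : SS l c r = (r / N) * ε + padicValNat l (r / N).factorial := by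
    induction r with
    | zero => simp [SS]
    | succ r ih =>
      unfold SS at ih ⊢
      rw [Finset.sum_range_succ, ih, hv _ (by omega), Nat.succ_div]
      split_ifs with h
      · rw [Nat.factorial_succ, padicValNat.mul (Nat.succ_ne_zero (r / N))
          (Nat.factorial_ne_zero (r / N))]
        ring
      · rw [add_zero, add_zero]
  have h2 := sub_one_mul_padicValNat_factorial (p := l) (r / N)
  have h3 : (l - 1) * padicValNat l (r / N).factorial ≤ r / N := by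
    rw [h2]
    exact Nat.sub_le _ _
  have h4 : N * (r / N) ≤ r := Nat.mul_div_le r N
  calc (l - 1) * N * SS l c r = N * ((l - 1) * ε * (r / N) +
        (l - 1) * padicValNat l (r / N).factorial) := by rw [h1]; ring
    _ ≤ N * ((l - 1) * ε * (r / N) + r / N) := by gcongr
    _ = ((l - 1) * ε + 1) * (N * (r / N)) := by ring
    _ ≤ _ := by gcongr

/-- the factorisation of `c ^ b - 1` -/
lemma fac_int {l c b : ℕ} [hl : Fact l.Prime] (hc1 : 1 < c) (hb : b ≠ 0) :
    ∃ d : ℕ, ¬ l ∣ d ∧ c ^ b - 1 = l ^ vv l c b * d := by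
  have hb1 : c ^ b - 1 ≠ 0 := by
    have := Nat.one_lt_pow hb hc1
    omega
  have h1 := pow_padicValNat_dvd (p := l) (n := c ^ b - 1)
  obtain ⟨d, hd⟩ := h1
  refine ⟨d, ?_, hd⟩
  rintro ⟨d', rfl⟩
  have h2 := pow_succ_padicValNat_not_dvd (p := l) hb1
  apply h2
  exact ⟨d', by rw [pow_succ]; nth_rewrite 1 [hd]; ring⟩

section unit

variable {A : Type} [CommRing A] [IsLocalRing A] {l c : ℕ}

lemma unit_of_not_dvd (hl : l.Prime) (hlA : (l : A) ∈ IsLocalRing.maximalIdeal A) {d : ℕ}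
    (hd : ¬ l ∣ d) : IsUnit (d : A) := by
  by_contra hcon
  have h1 : (d : A) ∈ IsLocalRing.maximalIdeal A := (IsLocalRing.mem_maximalIdeal _).2 hcon
  have h2 : IsCoprime (d : ℤ) (l : ℤ) := by
    rw [Nat.isCoprime_iff_coprime]
    exact ((Nat.Prime.coprime_iff_not_dvd hl).2 hd).symm
  obtain ⟨x, y, hxy⟩ := h2
  have h3 : (x : A) * (d : A) + (y : A) * (l : A) = 1 := by exact_mod_cast congrArg (Int.cast (R := A)) hxy
  have h4 : (1 : A) ∈ IsLocalRing.maximalIdeal A := by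
    rw [← h3]
    exact Ideal.add_mem _ (Ideal.mul_mem_left _ _ h1) (Ideal.mul_mem_left _ _ hlA)
  exact (IsLocalRing.maximalIdeal.isMaximal A).ne_top ((Ideal.eq_top_iff_one _).2 h4)

lemma diff_fac (hl : l.Prime) (hlA : (l : A) ∈ IsLocalRing.maximalIdeal A) (hc1 : 1 < c)
    (hcl : ¬ l ∣ c) {i j : ℕ} (hij : i < j) :
    ∃ u : A, IsUnit u ∧ (c : A) ^ j - (c : A) ^ i = u * (l : A) ^ vv l c (j - i) := by
  have : Fact l.Prime := ⟨hl⟩
  obtain ⟨d, hd, h⟩ := fac_int (l := l) hc1 (show j - i ≠ 0 by omega)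
  refine ⟨(c : A) ^ i * d, ((unit_of_not_dvd hl hlA hcl).pow _).mul (unit_of_not_dvd hl hlA hd), ?_⟩
  have h1 : ((c ^ (j - i) - 1 : ℕ) : A) = (c : A) ^ (j - i) - 1 := by
    rw [Nat.cast_sub (Nat.one_le_pow _ _ (by omega))]
    push_cast
    ring
  have h2 : (c : A) ^ j = (c : A) ^ i * (c : A) ^ (j - i) := by
    rw [← pow_add, Nat.add_sub_cancel' hij.le]
  rw [h2]
  have h3 : (c : A) ^ i * (c : A) ^ (j - i) - (c : A) ^ i = (c : A) ^ i * ((c : A) ^ (j - i) - 1) := by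
    ring
  rw [h3, ← h1, h]
  push_cast
  ring

/-- the product of the differences -/
lemma prod_fac (hl : l.Prime) (hlA : (l : A) ∈ IsLocalRing.maximalIdeal A) (hc1 : 1 < c)
    (hcl : ¬ l ∣ c) {i m j0 : ℕ} (h1 : i ≤ j0) (h2 : j0 < m) :
    ∃ u : A, IsUnit u ∧ ∏ j ∈ (Finset.Ico i m).erase j0, ((c : A) ^ j0 - (c : A) ^ j) =
      u * (l : A) ^ (SS l c (j0 - i) + SS l c (m - 1 - j0)) := by
  classical
  have hsplit : (Finset.Ico i m).erase j0 = Finset.Ico i j0 ∪ Finset.Ico (j0 + 1) m := by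
    ext j
    simp only [Finset.mem_erase, Finset.mem_Ico, Finset.mem_union]
    omega
  have hdisj : Disjoint (Finset.Ico i j0) (Finset.Ico (j0 + 1) m) := by
    rw [Finset.disjoint_left]
    intro j
    simp only [Finset.mem_Ico]
    omega
  -- the lower part
  have hlow : ∀ r : ℕ, r ≤ j0 - i → ∃ u : A, IsUnit u ∧
      ∏ j ∈ Finset.Ico (j0 - r) j0, ((c : A) ^ j0 - (c : A) ^ j) = u * (l : A) ^ SS l c r := by
    intro r
    induction r with
    | zero => intro _; exact ⟨1, isUnit_one, by simp [SS]⟩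
    | succ r ih =>
      intro hr
      obtain ⟨u, hu, h⟩ := ih (by omega)
      obtain ⟨u', hu', h'⟩ := diff_fac (A := A) hl hlA hc1 hcl (show j0 - (r + 1) < j0 by omega)
      refine ⟨u' * u, hu'.mul hu, ?_⟩
      rw [Finset.prod_eq_prod_Ico_succ_bot (by omega : j0 - (r + 1) < j0),
        show j0 - (r + 1) + 1 = j0 - r by omega, h, h']
      unfold SS
      rw [Finset.sum_range_succ, pow_add, show j0 - (j0 - (r + 1)) = r + 1 by omega]
      ring
  have hup : ∀ r : ℕ, ∃ u : A, IsUnit u ∧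
      ∏ j ∈ Finset.Ico (j0 + 1) (j0 + 1 + r), ((c : A) ^ j0 - (c : A) ^ j) =
        u * (l : A) ^ SS l c r := by
    intro r
    induction r with
    | zero => exact ⟨1, isUnit_one, by simp [SS]⟩
    | succ r ih =>
      obtain ⟨u, hu, h⟩ := ih
      obtain ⟨u', hu', h'⟩ := diff_fac (A := A) hl hlA hc1 hcl (show j0 < j0 + 1 + r by omega)
      refine ⟨-u' * u, hu'.neg.mul hu, ?_⟩
      rw [← add_assoc, Finset.prod_Ico_succ_top (by omega), h]
      have h3 : (c : A) ^ j0 - (c : A) ^ (j0 + 1 + r) = -(u' * (l : A) ^ vv l c (j0 + 1 + r - j0)) := by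
        rw [← h']
        ring
      rw [h3]
      unfold SS
      rw [Finset.sum_range_succ, pow_add, show j0 + 1 + r - j0 = r + 1 by omega]
      ring
  obtain ⟨u, hu, h⟩ := hlow (j0 - i) le_rfl
  obtain ⟨u', hu', h'⟩ := hup (m - 1 - j0)
  rw [show j0 - (j0 - i) = i by omega] at h
  rw [show j0 + 1 + (m - 1 - j0) = m by omega] at h'
  refine ⟨u * u', hu.mul hu', ?_⟩
  rw [hsplit, Finset.prod_union hdisj, h, h', pow_add]
  ring

end unit

end Run7.h784
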