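import Pool.Agent.Run7.h784.AlgA
import Pool.Agent.Run7.h784.AlgB

/-!
# Nilpotency of an augmentation ideal from congruences
-/

set_option autoImplicit false
set_option linter.unusedSectionVars false
set_option linter.unusedVariables false

namespace Run7.h784

open Matrix IsLocalRing

section lattice

variable {A F : Type} [CommRing A] [Field F] {n : ℕ}

/-- the span over the valuation ring of the image of a submodule of matrices -/
def LL (f : A →+* F) (O : ValuationSubring F) (J : Submodule A (Matrix (Fin n) (Fin n) A)) :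
    Submodule O (Matrix (Fin n) (Fin n) F) :=
  Submodule.span O ((fun x : Matrix (Fin n) (Fin n) A => x.map f) '' (J : Set _))

variable {f : A →+* F} {O : ValuationSubring F} {J J' : Submodule A (Matrix (Fin n) (Fin n) A)}

lemma LL_conj (T : GL (Fin n) A) (c : A)
    (h : ∀ x ∈ J, (T : Matrix (Fin n) (Fin n) A) * x *
      ((T⁻¹ : GL (Fin n) A) : Matrix (Fin n) (Fin n) A) - c • x ∈ J') :
    ∀ y ∈ LL f O J, (T : Matrix (Fin n) (Fin n) A).map f * y *
      ((T⁻¹ : GL (Fin n) A) : Matrix (Fin n) (Fin n) A).map f - f c • y ∈ LL f O J' := by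
  intro y hy
  induction hy using Submodule.span_induction with
  | mem y hy =>
    obtain ⟨x, hx, rfl⟩ := hy
    have h1 := h x hx
    have h2 : (T : Matrix (Fin n) (Fin n) A).map f * x.map f *
      ((T⁻¹ : GL (Fin n) A) : Matrix (Fin n) (Fin n) A).map f - f c • x.map f =
      ((T : Matrix (Fin n) (Fin n) A) * x *
      ((T⁻¹ : GL (Fin n) A) : Matrix (Fin n) (Fin n) A) - c • x).map f := by
      have e3 : ∀ u v : Matrix (Fin n) (Fin n) A, (u - v).map f = u.map f - v.map f := fun u v =>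
        Matrix.map_sub f (map_sub f) u v
      have e4 : (c • x).map f = f c • x.map f := by
        ext p q
        simp
      rw [e3, e4, Matrix.map_mul, Matrix.map_mul]
    change (T : Matrix (Fin n) (Fin n) A).map f * x.map f *
      ((T⁻¹ : GL (Fin n) A) : Matrix (Fin n) (Fin n) A).map f - f c • x.map f ∈ _
    rw [h2]
    exact Submodule.subset_span ⟨_, h1, rfl⟩
  | zero => rw [mul_zero, zero_mul, smul_zero, sub_zero]; exact Submodule.zero_mem _
  | add y z _ _ hy hz =>
    rw [mul_add, add_mul, smul_add, add_sub_add_comm]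
    exact Submodule.add_mem _ hy hz
  | smul a y _ hy =>
    rw [mul_smul_comm, smul_mul_assoc, smul_comm, ← smul_sub]
    exact Submodule.smul_mem _ _ hy

lemma LL_smul (s : A) (h : ∀ x ∈ J, s • x ∈ J') : ∀ y ∈ LL f O J, f s • y ∈ LL f O J' := by
  intro y hy
  induction hy using Submodule.span_induction with
  | mem y hy =>
    obtain ⟨x, hx, rfl⟩ := hy
    have e4 : (s • x).map f = f s • x.map f := by
      ext p q
      simp
    change f s • x.map f ∈ _
    rw [← e4]
    exact Submodule.subset_span ⟨_, h x hx, rfl⟩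
  | zero => rw [smul_zero]; exact Submodule.zero_mem _
  | add y z _ _ hy hz => rw [smul_add]; exact Submodule.add_mem _ hy hz
  | smul a y _ hy => rw [smul_comm]; exact Submodule.smul_mem _ _ hy

lemma LL_div (hO : ∀ a, f a ∈ O) (b : A) (h : ∀ x ∈ J, ∀ p q, b ∣ x p q) :
    ∀ y ∈ LL f O J, ∀ p q, ∃ z ∈ O, y p q = f b * z := by
  intro y hy p q
  induction hy using Submodule.span_induction with
  | mem y hy =>
    obtain ⟨x, hx, rfl⟩ := hy
    obtain ⟨z, hz⟩ := h x hx p q
    exact ⟨f z, hO z, by rw [← map_mul, ← hz]; rfl⟩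
  | zero => exact ⟨0, O.zero_mem, by simp⟩
  | add y z _ _ hy hz =>
    obtain ⟨a, ha, ha'⟩ := hy
    obtain ⟨b, hb, hb'⟩ := hz
    exact ⟨a + b, O.add_mem _ _ ha hb, by rw [Matrix.add_apply, ha', hb', mul_add]⟩
  | smul a y _ hy =>
    obtain ⟨b, hb, hb'⟩ := hy
    refine ⟨a * b, O.mul_mem _ _ a.2 hb, ?_⟩
    have e1 : (a • y) p q = (a : F) * y p q := rfl
    rw [e1, hb']
    ring

lemma span_scale {S : Set (Matrix (Fin n) (Fin n) F)} {x : Matrix (Fin n) (Fin n) F}
    (hx : x ∈ Submodule.span F S) : ∃ d : F, d ≠ 0 ∧ d ∈ O ∧ d • x ∈ Submodule.span O S := by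
  induction hx using Submodule.span_induction with
  | mem x hx => exact ⟨1, one_ne_zero, O.one_mem, by rw [one_smul]; exact Submodule.subset_span hx⟩
  | zero => exact ⟨1, one_ne_zero, O.one_mem, by rw [smul_zero]; exact Submodule.zero_mem _⟩
  | add x y _ _ hx hy =>
    obtain ⟨d, hd, hdO, hd'⟩ := hx
    obtain ⟨e, he, heO, he'⟩ := hy
    refine ⟨d * e, mul_ne_zero hd he, O.mul_mem _ _ hdO heO, ?_⟩
    rw [smul_add]
    refine Submodule.add_mem _ ?_ ?_
    · rw [mul_comm, mul_smul]
      exact Submodule.smul_mem _ (⟨e, heO⟩ : O) hd'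
    · rw [mul_smul]
      exact Submodule.smul_mem _ (⟨d, hdO⟩ : O) he'
  | smul a x _ hx =>
    obtain ⟨d, hd, hdO, hd'⟩ := hx
    rcases O.mem_or_inv_mem a with ha | ha
    · refine ⟨d, hd, hdO, ?_⟩
      rw [smul_comm]
      exact Submodule.smul_mem _ (⟨a, ha⟩ : O) hd'
    · rcases eq_or_ne a 0 with rfl | ha0
      · exact ⟨d, hd, hdO, by rw [zero_smul, smul_zero]; exact Submodule.zero_mem _⟩
      · refine ⟨d * a⁻¹, mul_ne_zero hd (inv_ne_zero ha0), O.mul_mem _ _ hdO ha, ?_⟩
        rw [smul_smul, mul_assoc, inv_mul_cancel₀ ha0, mul_one]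
        exact hd'

lemma div_of_val {a b : F} (h : O.valuation a ≤ O.valuation b) : ∃ u ∈ O, a = u * b := by
  rcases eq_or_ne b 0 with rfl | hb
  · rw [map_zero, le_zero_iff, map_eq_zero] at h
    exact ⟨0, O.zero_mem, by rw [h, zero_mul]⟩
  · refine ⟨a / b, ?_, (div_mul_cancel₀ a hb).symm⟩
    rw [← O.valuation_le_one_iff, map_div₀]
    exact div_le_one_of_le₀ h zero_le

end lattice

section divis

variable {A : Type} [CommRing A] {n : ℕ} {I : Submodule A (Matrix (Fin n) (Fin n) A)}

lemma div_pow {b : A} {k : ℕ} (h : ∀ x ∈ I ^ k, ∀ p q, b ∣ x p q) :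
    ∀ t r : ℕ, ∀ x ∈ I ^ (k * t + r), ∀ p q, b ^ t ∣ x p q := by
  intro t r
  induction t with
  | zero => intro x _ p q; rw [pow_zero]; exact one_dvd _
  | succ t ih =>
    intro x hx p q
    rw [show k * (t + 1) + r = k + (k * t + r) by ring] at hx
    rcases Nat.eq_zero_or_pos (k * t + r) with h0 | h0
    · have ht := h0
      rw [Nat.add_eq_zero_iff, mul_eq_zero] at ht
      rw [h0, add_zero] at hx
      rcases ht.1 with hk | ht'
      · subst hk
        have hu : b ∣ (1 : A) := by
          rw [pow_zero] at h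
          have h1 := h 1 (Submodule.one_le.1 le_rfl) p p
          rwa [Matrix.one_apply_eq] at h1
        exact (isUnit_of_dvd_one hu).pow (t + 1) |>.dvd
      · subst ht'
        rw [zero_add, pow_one]
        exact h x hx p q
    · rcases Nat.eq_zero_or_pos k with hk | hk
      · subst hk
        have hu : b ∣ (1 : A) := by
          rw [pow_zero] at h
          have h1 := h 1 (Submodule.one_le.1 le_rfl) p p
          rwa [Matrix.one_apply_eq] at h1
        exact (isUnit_of_dvd_one hu).pow (t + 1) |>.dvd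
      rw [pow_add] at hx
      induction hx using Submodule.mul_induction_on' with
      | mem_mul_mem y hy z hz =>
        rw [Matrix.mul_apply]
        refine Finset.dvd_sum fun m _ => ?_
        rw [pow_succ']
        exact mul_dvd_mul (h y hy p m) (ih z hz m q)
      | add y _ z _ hy hz =>
        rw [Matrix.add_apply]
        exact dvd_add hy hz

end divis

section main

variable {A F : Type} [CommRing A] [IsDomain A] [IsDiscreteValuationRing A] [Field F]
  [Algebra A F] [Algebra.IsAlgebraic A F] {n : ℕ}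

lemma zero_of_div {O : ValuationSubring F} (hO : ∀ a, algebraMap A F a ∈ O)
    (hf : Function.Injective (algebraMap A F))
    {ϖ : A} (hϖ : Irreducible ϖ) (hloc : ∀ z ∈ O, algebraMap A F ϖ * z ≠ 1) {y : F}
    (hy : ∀ r : ℕ, ∃ z ∈ O, y = algebraMap A F ϖ ^ r * z) : y = 0 := by
  by_contra hy0
  obtain ⟨d, hd, hint⟩ := (Algebra.IsAlgebraic.isAlgebraic (R := A) (y⁻¹)).exists_integral_multiple
  have hmem : d • y⁻¹ ∈ O := by
    obtain ⟨P, hP, hP'⟩ := hint
    have h1 : IsIntegral O (d • y⁻¹) := by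
      let g : A →+* O := (algebraMap A F).codRestrict O.toSubring hO
      refine ⟨P.map g, hP.map g, ?_⟩
      rw [Polynomial.eval₂_map]
      exact hP'
    obtain ⟨z, hz⟩ := (IsIntegrallyClosed.isIntegral_iff (R := O) (K := F)).1 h1
    rw [← hz]
    exact z.2
  obtain ⟨k, u, hk⟩ := IsDiscreteValuationRing.eq_unit_mul_pow_irreducible hd hϖ
  obtain ⟨z, hz, hz'⟩ := hy (k + 1)
  have h1 : algebraMap A F d = (d • y⁻¹) * y := by
    rw [Algebra.smul_def, mul_assoc, inv_mul_cancel₀ hy0, mul_one]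
  have hϖ0 : algebraMap A F ϖ ≠ 0 := by
    rw [Ne, map_eq_zero_iff _ hf]
    exact hϖ.ne_zero
  have h2 : algebraMap A F (u : A) = algebraMap A F ϖ * ((d • y⁻¹) * z) := by
    apply mul_left_cancel₀ (pow_ne_zero k hϖ0)
    calc algebraMap A F ϖ ^ k * algebraMap A F (u : A) = algebraMap A F d := by
          rw [hk, map_mul, map_pow]; ring
      _ = (d • y⁻¹) * (algebraMap A F ϖ ^ (k + 1) * z) := by rw [h1, hz']
      _ = _ := by ring
  have h3 : algebraMap A F ((u⁻¹ : Aˣ) : A) * algebraMap A F (u : A) = 1 := by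
    rw [← map_mul, Units.inv_mul, map_one]
  apply hloc (algebraMap A F ((u⁻¹ : Aˣ) : A) * ((d • y⁻¹) * z))
    (O.mul_mem _ _ (hO _) (O.mul_mem _ _ hmem hz))
  rw [← h3, h2]
  ring

variable [IsAlgClosed F]

/-- **nilpotency from congruences** -/
theorem nil_core (hf : Function.Injective (algebraMap A F)) {l c e : ℕ} (hl : l.Prime)
    (hc1 : 1 < c) (hcl : ¬ l ∣ c) {ϖ : A} (hϖ : Irreducible ϖ)
    (hlϖ : ∃ u : Aˣ, (l : A) = u * ϖ ^ e) (he : 1 ≤ e)
    {I : Submodule A (Matrix (Fin n) (Fin n) A)} (hI : I * I ≤ I) (T : GL (Fin n) A)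
    (hc : ∀ x ∈ I, (T : Matrix (Fin n) (Fin n) A) * x *
      ((T⁻¹ : GL (Fin n) A) : Matrix (Fin n) (Fin n) A) - (c : A) • x ∈ I ^ 2)
    {k a : ℕ} (hk1 : 1 ≤ k) (hk : ∀ x ∈ I ^ k, ∀ p q, ϖ ^ a ∣ x p q)
    {α β : ℕ} (hSS : ∀ m, β * SS l c m ≤ α * m) (hnum : e * k * α < a * β) :
    ∃ N, I ^ N = ⊥ := by
  classical
  obtain ⟨i, hi, s, hs, hsI⟩ := exists_tors hI
  refine ⟨i, ?_⟩
  by_contra hne
  obtain ⟨O, hO, hloc⟩ := exists_factor_valuationRing (algebraMap A F)
  have hO' : ∀ a, algebraMap A F a ∈ O := hO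
  have hlocϖ : ∀ z ∈ O, algebraMap A F ϖ * z ≠ 1 := by
    intro z hz h1
    have h2 : IsUnit ((algebraMap A F).codRestrict O.toSubring hO ϖ) := by
      refine IsUnit.of_mul_eq_one (⟨z, hz⟩ : O.toSubring) ?_
      exact Subtype.ext h1
    exact hϖ.not_isUnit (hloc.map_nonunit _ h2)
  set f := algebraMap A F with hfdef
  -- the eigenvector
  set V : Submodule F (Matrix (Fin n) (Fin n) F) :=
    Submodule.span F ((fun x : Matrix (Fin n) (Fin n) A => x.map f) '' ((I ^ i : Submodule A _) : Set _))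
    with hV
  set T' := (T : Matrix (Fin n) (Fin n) A).map f with hT'
  set Ti := ((T⁻¹ : GL (Fin n) A) : Matrix (Fin n) (Fin n) A).map f with hTi
  let φ : Matrix (Fin n) (Fin n) F →ₗ[F] Matrix (Fin n) (Fin n) F :=
    { toFun := fun x => T' * x * Ti
      map_add' := fun x y => by rw [mul_add, add_mul]
      map_smul' := fun r x => by rw [mul_smul_comm, smul_mul_assoc]; rfl }
  have hconj := pow_conj hI T (c : A) hc
  have hφV : ∀ x ∈ V, φ x ∈ V := by
    intro x hx
    induction hx using Submodule.span_induction with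
    | mem x hx =>
      obtain ⟨y, hy, rfl⟩ := hx
      have h1 := hconj i hi y hy
      have h2 : (T : Matrix (Fin n) (Fin n) A) * y *
          ((T⁻¹ : GL (Fin n) A) : Matrix (Fin n) (Fin n) A) ∈ I ^ i := by
        have h3 := Submodule.add_mem _ (pow_anti hI hi (Nat.le_succ i) h1)
          (Submodule.smul_mem _ ((c : A) ^ i) hy)
        rwa [sub_add_cancel] at h3
      have h4 : φ (y.map f) = ((T : Matrix (Fin n) (Fin n) A) * y *
          ((T⁻¹ : GL (Fin n) A) : Matrix (Fin n) (Fin n) A)).map f := by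
        rw [Matrix.map_mul, Matrix.map_mul]
        rfl
      change φ (y.map f) ∈ V
      rw [h4]
      exact Submodule.subset_span ⟨_, h2, rfl⟩
    | zero => rw [map_zero]; exact Submodule.zero_mem _
    | add x y _ _ hx hy => rw [map_add]; exact Submodule.add_mem _ hx hy
    | smul r x _ hx => rw [map_smul]; exact Submodule.smul_mem _ _ hx
  obtain ⟨x0, hx0, hx0'⟩ := Submodule.exists_mem_ne_zero_of_ne_bot hne
  have hmapinj : Function.Injective (fun x : Matrix (Fin n) (Fin n) A => x.map f) :=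
    Matrix.map_injective hf
  have hnt : Nontrivial V := by
    refine ⟨⟨⟨x0.map f, Submodule.subset_span ⟨_, hx0, rfl⟩⟩, 0, ?_⟩⟩
    intro h
    apply hx0'
    have h1 : x0.map f = 0 := congrArg Subtype.val h
    apply hmapinj
    change x0.map f = (0 : Matrix (Fin n) (Fin n) A).map f
    rw [h1]
    ext p q
    simp
  obtain ⟨lam, hlam⟩ := Module.End.exists_eigenvalue (φ.restrict hφV)
  obtain ⟨v, hv⟩ := hlam.exists_hasEigenvector
  have hv1 := hv.apply_eq_smul
  have hv2 : (v : Matrix (Fin n) (Fin n) F) ≠ 0 := fun h => hv.2 (Subtype.ext h)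
  have hv3 : φ v = lam • (v : Matrix (Fin n) (Fin n) F) := congrArg Subtype.val hv1
  obtain ⟨d, hd, -, hdv⟩ := span_scale (O := O) v.2
  set x : Matrix (Fin n) (Fin n) F := d • v with hx
  have hxne : x ≠ 0 := smul_ne_zero hd hv2
  have hφx : φ x = lam • x := by rw [hx, map_smul, hv3, smul_comm]
  have hxL : x ∈ LL f O (I ^ i) := hdv
  -- the main estimate
  have hsn : ∀ j, i ≤ j → ∀ y ∈ LL f O (I ^ j), f s • y ∈ LL f O (I ^ (j + 1)) := fun j hj =>
    LL_smul s (tors_step hsI j hj)
  have hstep : ∀ j0 m, i ≤ m →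
      (∏ j ∈ Finset.Ico i m, (if j = j0 then f s else lam - f (c : A) ^ j)) • x ∈
        LL f O (I ^ m) := by
    intro j0 m hm
    induction m, hm using Nat.le_induction with
    | base => rw [Finset.Ico_self, Finset.prod_empty, one_smul]; exact hxL
    | succ m hm ih =>
      rw [Finset.prod_Ico_succ_top hm, mul_comm, mul_smul]
      split_ifs with h
      · exact hsn m hm _ ih
      · have h1 := LL_conj (O := O) T ((c : A) ^ m) (hconj m (hi.trans hm)) _ ih
        set z := (∏ j ∈ Finset.Ico i m, (if j = j0 then f s else lam - f (c : A) ^ j)) • x with hz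
        have h2 : T' * z * Ti = lam • z := by
          have h3 : φ z = lam • z := by rw [hz, map_smul, hφx, smul_comm]
          exact h3
        have h3 : (lam - f (c : A) ^ m) • z = T' * z * Ti - f ((c : A) ^ m) • z := by
          rw [h2, sub_smul, map_pow]
        rw [h3]
        exact h1
  have hlA : (l : A) ∈ maximalIdeal A := by
    obtain ⟨u, hu⟩ := hlϖ
    rw [hu]
    refine Ideal.mul_mem_left _ _ (Ideal.pow_mem_of_mem _ ?_ _ (by omega))
    exact (mem_maximalIdeal _).2 hϖ.not_isUnit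
  -- divisibility of `s • x`
  have hmain : ∀ r : ℕ, ∀ p q, ∃ z ∈ O, (f s • x) p q = f ϖ ^ r * z := by
    intro r p q
    -- a large index
    obtain ⟨t, ht1, ht2⟩ : ∃ t : ℕ, i < k * t ∧ e * α * (k * t) + β * r ≤ β * (a * t) := by
      refine ⟨β * r + i + 1, ?_, ?_⟩
      · calc i < β * r + i + 1 := by omega
          _ = 1 * (β * r + i + 1) := (one_mul _).symm
          _ ≤ _ := Nat.mul_le_mul_right _ hk1
      · have h1 : e * k * α + 1 ≤ a * β := hnum
        calc e * α * (k * (β * r + i + 1)) + β * r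
            ≤ e * α * (k * (β * r + i + 1)) + 1 * (β * r + i + 1) := by omega
          _ = (e * k * α + 1) * (β * r + i + 1) := by ring
          _ ≤ (a * β) * (β * r + i + 1) := Nat.mul_le_mul_right _ h1
          _ = _ := by ring
    have hβ : 0 < β := by
      rcases Nat.eq_zero_or_pos β with h | h
      · subst h; omega
      · exact h
    obtain ⟨j0, hj0, hmin⟩ := Finset.exists_min_image (Finset.Ico i (k * t))
      (fun j => O.valuation (lam - f (c : A) ^ j)) (Finset.nonempty_Ico.2 ht1)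
    rw [Finset.mem_Ico] at hj0
    have hstep1 := hstep j0 (k * t) ht1.le
    -- the product with the factor at `j0` taken out
    have hprod : (∏ j ∈ Finset.Ico i (k * t), (if j = j0 then f s else lam - f (c : A) ^ j)) =
        f s * ∏ j ∈ (Finset.Ico i (k * t)).erase j0, (lam - f (c : A) ^ j) := by
      rw [← Finset.mul_prod_erase _ _ (Finset.mem_Ico.2 hj0), if_pos rfl]
      congr 1
      refine Finset.prod_congr rfl fun j hj => ?_
      rw [if_neg (Finset.ne_of_mem_erase hj)]
    -- comparison with the differences of powers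
    have hcomp : ∃ u ∈ O, ∏ j ∈ (Finset.Ico i (k * t)).erase j0, (f (c : A) ^ j0 - f (c : A) ^ j) =
        u * ∏ j ∈ (Finset.Ico i (k * t)).erase j0, (lam - f (c : A) ^ j) := by
      have h1 : ∀ j ∈ (Finset.Ico i (k * t)).erase j0, ∃ u ∈ O,
          f (c : A) ^ j0 - f (c : A) ^ j = u * (lam - f (c : A) ^ j) := by
        intro j hj
        apply div_of_val
        have h2 := hmin j (Finset.mem_of_mem_erase hj)
        have h3 : f (c : A) ^ j0 - f (c : A) ^ j =
          (lam - f (c : A) ^ j) - (lam - f (c : A) ^ j0) := by ring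
        rw [h3]
        refine (O.valuation.map_sub _ _).trans (max_le le_rfl h2)
      choose! u hu hu' using h1
      refine ⟨∏ j ∈ (Finset.Ico i (k * t)).erase j0, u j, O.toSubring.prod_mem fun j hj => hu j hj, ?_⟩
      rw [← Finset.prod_mul_distrib]
      exact Finset.prod_congr rfl fun j hj => hu' j hj
    obtain ⟨u, hu, hcomp⟩ := hcomp
    obtain ⟨w, hw, hfac⟩ := prod_fac (A := A) hl hlA hc1 hcl hj0.1 hj0.2
    obtain ⟨ul, hul⟩ := hlϖ
    set nm := SS l c (j0 - i) + SS l c (k * t - 1 - j0) with hnm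
    -- the estimate of the exponent
    have hexp : e * nm + r ≤ a * t := by
      have h1 := hSS (j0 - i)
      have h2 := hSS (k * t - 1 - j0)
      have h3 : β * nm ≤ α * (k * t) := by
        rw [hnm, mul_add]
        calc β * SS l c (j0 - i) + β * SS l c (k * t - 1 - j0) ≤
            α * (j0 - i) + α * (k * t - 1 - j0) := by omega
          _ = α * ((j0 - i) + (k * t - 1 - j0)) := by ring
          _ ≤ _ := Nat.mul_le_mul_left _ (by omega)
      have h4 : β * (e * nm + r) ≤ β * (a * t) := by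
        calc β * (e * nm + r) = e * (β * nm) + β * r := by ring
          _ ≤ e * (α * (k * t)) + β * r := by gcongr
          _ = e * α * (k * t) + β * r := by ring
          _ ≤ _ := ht2
      exact Nat.le_of_mul_le_mul_left h4 hβ
    -- entries
    have hdiv : ∀ y ∈ LL f O (I ^ (k * t)), ∀ p q, ∃ z ∈ O, y p q = f (ϖ ^ (a * t)) * z := by
      refine LL_div hO' _ fun y hy p q => ?_
      have h1 := div_pow hk t 0 y (by rwa [add_zero]) p q
      rwa [← pow_mul] at h1
    obtain ⟨z, hz, hz'⟩ := hdiv _ hstep1 p q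
    rw [hprod] at hz'
    have h5 : (f s * ∏ j ∈ (Finset.Ico i (k * t)).erase j0, (f (c : A) ^ j0 - f (c : A) ^ j)) *
        x p q = f (ϖ ^ (a * t)) * (u * z) := by
      have h6 : ((f s * ∏ j ∈ (Finset.Ico i (k * t)).erase j0, (lam - f (c : A) ^ j)) • x) p q =
        (f s * ∏ j ∈ (Finset.Ico i (k * t)).erase j0, (lam - f (c : A) ^ j)) * x p q := rfl
      rw [h6] at hz'
      rw [hcomp]
      calc f s * (u * ∏ j ∈ (Finset.Ico i (k * t)).erase j0, (lam - f (c : A) ^ j)) * x p q
          = u * ((f s * ∏ j ∈ (Finset.Ico i (k * t)).erase j0, (lam - f (c : A) ^ j)) * x p q) := by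
            ring
        _ = _ := by rw [hz']; ring
    have h7 : ∏ j ∈ (Finset.Ico i (k * t)).erase j0, (f (c : A) ^ j0 - f (c : A) ^ j) =
        f w * (f (ul : A) ^ nm * f ϖ ^ (e * nm)) := by
      have h8 := congrArg f hfac
      rw [map_prod, map_mul, map_pow, hul, map_mul, map_pow, mul_pow, ← pow_mul] at h8
      rw [← h8]
      exact Finset.prod_congr rfl fun j _ => by rw [map_sub, map_pow, map_pow]
    obtain ⟨w', hw'⟩ := hw
    have hϖ0 : f ϖ ≠ 0 := by
      rw [Ne, map_eq_zero_iff _ hf]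
      exact hϖ.ne_zero
    refine ⟨f ϖ ^ (a * t - (e * nm + r)) * (f ((w'⁻¹ : Aˣ) : A) * f ((ul⁻¹ : Aˣ) : A) ^ nm) * (u * z),
      ?_, ?_⟩
    · exact O.mul_mem _ _ (O.mul_mem _ _ (pow_mem (hO' _) _) (O.mul_mem _ _ (hO' _)
        (pow_mem (hO' _) _))) (O.mul_mem _ _ hu hz)
    · have e1 : f ((w'⁻¹ : Aˣ) : A) * f w = 1 := by
        rw [← hw', ← map_mul, Units.inv_mul, map_one]
      have e2 : f ((ul⁻¹ : Aˣ) : A) * f (ul : A) = 1 := by
        rw [← map_mul, Units.inv_mul, map_one]
      have e3 : (f s • x) p q = f s * x p q := rfl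
      rw [e3]
      apply mul_left_cancel₀ (pow_ne_zero (e * nm) hϖ0)
      rw [h7] at h5
      have e4 : f ϖ ^ (e * nm) * (f s * x p q) =
          (f ((w'⁻¹ : Aˣ) : A) * f w) * ((f ((ul⁻¹ : Aˣ) : A) * f (ul : A)) ^ nm) *
          (f ϖ ^ (e * nm) * (f s * x p q)) := by
        rw [e1, e2, one_pow, one_mul, one_mul]
      have e5 : f ϖ ^ (a * t) = f ϖ ^ (e * nm) * f ϖ ^ r * f ϖ ^ (a * t - (e * nm + r)) := by
        rw [← pow_add, ← pow_add]
        congr 1
        omega
      rw [e4, mul_pow]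
      calc f ((w'⁻¹ : Aˣ) : A) * f w * (f ((ul⁻¹ : Aˣ) : A) ^ nm * f (ul : A) ^ nm) *
            (f ϖ ^ (e * nm) * (f s * x p q))
          = f ((w'⁻¹ : Aˣ) : A) * f ((ul⁻¹ : Aˣ) : A) ^ nm *
            (f s * (f w * (f (ul : A) ^ nm * f ϖ ^ (e * nm))) * x p q) := by ring
        _ = f ((w'⁻¹ : Aˣ) : A) * f ((ul⁻¹ : Aˣ) : A) ^ nm * (f (ϖ ^ (a * t)) * (u * z)) := by
            rw [h5]
        _ = _ := by rw [map_pow, e5]; ring
  -- conclusion
  apply hxne
  ext p q
  have h1 : (f s • x) p q = 0 := zero_of_div hO' hf hϖ hlocϖ fun r => hmain r p q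
  have h2 : f s * x p q = 0 := h1
  have h3 : f s ≠ 0 := by
    rw [Ne, map_eq_zero_iff _ hf]
    exact hs
  simpa [h3] using h2

end main

section final

variable {A : Type} [CommRing A] [IsDomain A] [IsDiscreteValuationRing A] {n : ℕ}

/-- **nilpotency from congruences**, with the numerical criterion -/
theorem nil_main {l c e N ε : ℕ} (hl : l.Prime)
    (hc1 : 1 < c) (hcl : ¬ l ∣ c) {ϖ : A} (hϖ : Irreducible ϖ)
    (hlϖ : ∃ u : Aˣ, (l : A) = u * ϖ ^ e) (he : 1 ≤ e)
    {I : Submodule A (Matrix (Fin n) (Fin n) A)} (hI : I * I ≤ I) (T : GL (Fin n) A)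
    (hc : ∀ x ∈ I, (T : Matrix (Fin n) (Fin n) A) * x *
      ((T⁻¹ : GL (Fin n) A) : Matrix (Fin n) (Fin n) A) - (c : A) • x ∈ I ^ 2)
    {k a : ℕ} (hk1 : 1 ≤ k) (hk : ∀ x ∈ I ^ k, ∀ p q, ϖ ^ a ∣ x p q)
    (hN : 1 ≤ N) (hv : ∀ b, b ≠ 0 → vv l c b = if N ∣ b then ε + padicValNat l (b / N) else 0)
    (hnum : e * k * ((l - 1) * ε + 1) < a * ((l - 1) * N)) :
    ∃ M, I ^ M = ⊥ := by
  have : Fact l.Prime := ⟨hl⟩
  have hinj : Function.Injective (algebraMap A (AlgebraicClosure (FractionRing A))) := by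
    rw [IsScalarTower.algebraMap_eq A (FractionRing A) (AlgebraicClosure (FractionRing A))]
    exact (algebraMap (FractionRing A) (AlgebraicClosure (FractionRing A))).injective.comp
      (IsFractionRing.injective A (FractionRing A))
  have halg : Algebra.IsAlgebraic A (AlgebraicClosure (FractionRing A)) :=
    (IsFractionRing.comap_isAlgebraic_iff (A := A) (K := FractionRing A)).2 inferInstance
  exact nil_core (F := AlgebraicClosure (FractionRing A)) hinj hl hc1 hcl hϖ hlϖ he hI T hc hk1 hk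
    (SS_bound hN hv) hnum

end final

end Run7.h784
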