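import Mathlib

/-!
# Open subsets of affine space: the function field, the geometric Galois group, inertia
-/

set_option autoImplicit false
set_option linter.unusedSectionVars false
set_option linter.unusedVariables false

namespace Run7.h784

open MvPolynomial

section defs

variable {ι : Type} (k K Ω : Type) [Field k] [Field K] [Field Ω]
  [Algebra (MvPolynomial ι k) K] [Algebra k K] [Algebra K Ω] [Algebra k Ω]

/-- the field generated over `K = k(t)` by the elements of `Ω` that are algebraic over `k` -/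
noncomputable abbrev geomField : IntermediateField K Ω :=
  IntermediateField.adjoin K {x : Ω | IsAlgebraic k x}

/-- the Galois group of `Ω` over `k^s(t)` -/
noncomputable abbrev Hg : Subgroup Gal(Ω/K) := (geomField k K Ω).fixingSubgroup

variable {k}

/-- the coordinate ring `k[t][1/g]` of the open subset `g ≠ 0` of affine space -/
noncomputable def coordRing (g : MvPolynomial ι k) : Subalgebra k K :=
  Algebra.adjoin k (Set.range (algebraMap (MvPolynomial ι k) K) ∪
    {(algebraMap (MvPolynomial ι k) K g)⁻¹})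

/-- its integral closure in `Ω` -/
noncomputable def intRing (g : MvPolynomial ι k) : Subring Ω :=
  (integralClosure (coordRing K g) Ω).toSubring

variable {K Ω}

/-- `τ` lies in the inertia group at the ideal `P` -/
def InInertia {g : MvPolynomial ι k} (P : Ideal (intRing K Ω g)) (τ : Gal(Ω/K)) : Prop :=
  ∀ y : intRing K Ω g, ∃ z ∈ P, (z : Ω) = τ (y : Ω) - (y : Ω)

/-- `z` is (the image of) an element of `P` -/
def InP {g : MvPolynomial ι k} (P : Ideal (intRing K Ω g)) (z : Ω) : Prop :=
  ∃ w ∈ P, (w : Ω) = z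

end defs

section inP

variable {ι k K Ω : Type} [Field k] [Field K] [Field Ω]
  [Algebra (MvPolynomial ι k) K] [Algebra k K] [Algebra K Ω] [Algebra k Ω]
  {g : MvPolynomial ι k} {P : Ideal (intRing K Ω g)} {z w : Ω}

lemma inP_iff (hz : z ∈ intRing K Ω g) : InP P z ↔ (⟨z, hz⟩ : intRing K Ω g) ∈ P := by
  constructor
  · rintro ⟨w, hw, h⟩
    have : w = ⟨z, hz⟩ := Subtype.ext h
    rwa [← this]
  · intro h
    exact ⟨_, h, rfl⟩

lemma InP.mem (h : InP P z) : z ∈ intRing K Ω g := by
  obtain ⟨w, -, rfl⟩ := h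
  exact w.2

lemma InP.add (h1 : InP P z) (h2 : InP P w) : InP P (z + w) := by
  obtain ⟨a, ha, rfl⟩ := h1
  obtain ⟨b, hb, rfl⟩ := h2
  exact ⟨a + b, P.add_mem ha hb, rfl⟩

lemma InP.neg (h1 : InP P z) : InP P (-z) := by
  obtain ⟨a, ha, rfl⟩ := h1
  exact ⟨-a, P.neg_mem ha, rfl⟩

lemma InP.sub (h1 : InP P z) (h2 : InP P w) : InP P (z - w) := by
  obtain ⟨a, ha, rfl⟩ := h1
  obtain ⟨b, hb, rfl⟩ := h2
  exact ⟨a - b, P.sub_mem ha hb, rfl⟩

lemma InP.mul_left (h1 : InP P z) (h2 : w ∈ intRing K Ω g) : InP P (w * z) := by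
  obtain ⟨a, ha, rfl⟩ := h1
  exact ⟨⟨w, h2⟩ * a, P.mul_mem_left _ ha, rfl⟩

lemma InP.mul_right (h1 : InP P z) (h2 : w ∈ intRing K Ω g) : InP P (z * w) := by
  rw [mul_comm]
  exact h1.mul_left h2

lemma InP.zero : InP P (0 : Ω) := ⟨0, P.zero_mem, rfl⟩

lemma InP.sum {α : Type} {s : Finset α} {f : α → Ω} (h : ∀ i ∈ s, InP P (f i)) :
    InP P (∑ i ∈ s, f i) := by
  classical
  induction s using Finset.induction_on with
  | empty => rw [Finset.sum_empty]; exact InP.zero
  | insert a s ha ih =>
    rw [Finset.sum_insert ha]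
    exact (h a (Finset.mem_insert_self _ _)).add
      (ih fun i hi => h i (Finset.mem_insert_of_mem hi))

lemma InP.prime (hP : P.IsPrime) (hz : z ∈ intRing K Ω g) (hw : w ∈ intRing K Ω g)
    (h : InP P (z * w)) : InP P z ∨ InP P w := by
  rw [inP_iff hz, inP_iff hw]
  rw [inP_iff ((intRing K Ω g).mul_mem hz hw)] at h
  exact hP.mem_or_mem (x := ⟨z, hz⟩) (y := ⟨w, hw⟩) h

lemma InP.of_pow (hP : P.IsPrime) (hz : z ∈ intRing K Ω g) {n : ℕ} (h : InP P (z ^ n)) :
    InP P z := by
  rw [inP_iff hz]
  rw [inP_iff ((intRing K Ω g).pow_mem hz n)] at h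
  exact hP.mem_of_pow_mem (r := ⟨z, hz⟩) n h

lemma mem_intRing : z ∈ intRing K Ω g ↔ IsIntegral (coordRing K g) z := Iff.rfl

lemma pow_mem_B {n : ℕ} (hn : 0 < n) (h : z ^ n ∈ intRing K Ω g) : z ∈ intRing K Ω g := by
  rw [mem_intRing] at h ⊢
  exact IsIntegral.of_pow hn h

lemma coord_mem {c : K} (hc : c ∈ coordRing K g) : algebraMap K Ω c ∈ intRing K Ω g := by
  rw [mem_intRing]
  exact isIntegral_algebraMap (R := coordRing K g) (A := Ω) (x := ⟨c, hc⟩)

lemma const_mem [IsScalarTower k K Ω] {a : Ω} (ha : IsAlgebraic k a) :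
    a ∈ intRing K Ω g := by
  rw [mem_intRing]
  exact ha.isIntegral.tower_top

lemma gal_mem (τ : Gal(Ω/K)) (hz : z ∈ intRing K Ω g) : τ z ∈ intRing K Ω g := by
  rw [mem_intRing] at hz ⊢
  exact hz.map ((τ : Ω →ₐ[K] Ω).restrictScalars (coordRing K g))

/-- the action of the Galois group on the integral closure -/
noncomputable abbrev act : MulSemiringAction Gal(Ω/K) (intRing K Ω g) where
  smul τ z := ⟨τ z, gal_mem τ z.2⟩
  one_smul z := Subtype.ext rfl
  mul_smul g h z := Subtype.ext rfl
  smul_zero g := Subtype.ext (map_zero g)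
  smul_add g z w := Subtype.ext (map_add g _ _)
  smul_one g := Subtype.ext (map_one g)
  smul_mul g z w := Subtype.ext (map_mul g _ _)

end inP

section ev

variable {ι k K Ω : Type} [Field k] [Field K] [Field Ω]
  [Algebra (MvPolynomial ι k) K] [Algebra k K] [Algebra K Ω] [Algebra k Ω]

variable (k Ω) in
/-- the algebraic closure of `k` in `Ω` -/
noncomputable abbrev ks : IntermediateField k Ω := algebraicClosure k Ω

variable (k K Ω ι) in
/-- the evaluation of polynomials with coefficients in `k^s` in `Ω` -/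
noncomputable def ev : MvPolynomial ι (ks k Ω) →ₐ[ks k Ω] Ω :=
  aeval fun i => algebraMap K Ω (algebraMap (MvPolynomial ι k) K (X i))

variable (k Ω ι) in
/-- the inclusion of the polynomials with coefficients in `k` -/
noncomputable def up : MvPolynomial ι k →+* MvPolynomial ι (ks k Ω) :=
  MvPolynomial.map (algebraMap k (ks k Ω))

lemma ks_alg (a : ks k Ω) : IsAlgebraic k (a : Ω) := mem_algebraicClosure_iff.1 a.2

lemma ev_C (a : ks k Ω) : ev ι k K Ω (C a) = a := by
  unfold ev
  rw [aeval_C]
  rfl

variable [IsScalarTower k (MvPolynomial ι k) K] [IsScalarTower k K Ω]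

lemma ev_up (p : MvPolynomial ι k) :
    ev ι k K Ω (up ι k Ω p) = algebraMap K Ω (algebraMap (MvPolynomial ι k) K p) := by
  induction p using MvPolynomial.induction_on with
  | C a =>
    unfold up
    rw [map_C, ev_C]
    have h1 : algebraMap (MvPolynomial ι k) K (C a) = algebraMap k K a := by
      rw [IsScalarTower.algebraMap_apply k (MvPolynomial ι k) K]
      rfl
    rw [h1, ← IsScalarTower.algebraMap_apply k K Ω]
    rfl
  | add p q hp hq => rw [map_add, map_add, map_add, map_add, hp, hq]
  | mul_X p i hp =>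
    rw [map_mul, map_mul, map_mul, map_mul, hp]
    congr 1
    unfold up ev
    rw [map_X, aeval_X]

variable [IsFractionRing (MvPolynomial ι k) K]

lemma ev_inj : Function.Injective (ev ι k K Ω) := by
  have hinj : Function.Injective (fun p : MvPolynomial ι k =>
      algebraMap K Ω (algebraMap (MvPolynomial ι k) K p)) :=
    (algebraMap K Ω).injective.comp (IsFractionRing.injective (MvPolynomial ι k) K)
  let φ : MvPolynomial ι k →ₐ[k] Ω :=
    { toRingHom := (algebraMap K Ω).comp (algebraMap (MvPolynomial ι k) K)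
      commutes' := fun r => by
        show algebraMap K Ω (algebraMap (MvPolynomial ι k) K (algebraMap k (MvPolynomial ι k) r)) =
          algebraMap k Ω r
        rw [← IsScalarTower.algebraMap_apply k (MvPolynomial ι k) K,
          ← IsScalarTower.algebraMap_apply k K Ω] }
  have hφ : Function.Injective φ := hinj
  have h0 := (MvPolynomial.algebraicIndependent_X ι k).map' (f := φ) hφ
  have h1 : AlgebraicIndependent k
      (fun i : ι => algebraMap K Ω (algebraMap (MvPolynomial ι k) K (X i))) := by
    have e : (fun i : ι => algebraMap K Ω (algebraMap (MvPolynomial ι k) K (X i))) =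
        φ ∘ (X : ι → MvPolynomial ι k) := by
      funext i
      rfl
    rw [e]
    exact h0
  have h2 : AlgebraicIndependent (ks k Ω)
      (fun i : ι => algebraMap K Ω (algebraMap (MvPolynomial ι k) K (X i))) :=
    h1.extendScalars (ks k Ω)
  unfold ev
  rw [algebraicIndependent_iff_injective_aeval] at h2
  exact h2

lemma ev_ne {p : MvPolynomial ι (ks k Ω)} (hp : p ≠ 0) : ev ι k K Ω p ≠ 0 := by
  intro h
  exact hp (ev_inj (by rw [h, map_zero]))

/-- the elements of `k^s(t)` are quotients -/
lemma geo {x : Ω} (hx : x ∈ geomField k K Ω) :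
    ∃ a b : MvPolynomial ι (ks k Ω), b ≠ 0 ∧ x * ev ι k K Ω b = ev ι k K Ω a := by
  let M : IntermediateField K Ω :=
    { carrier := {x | ∃ a b : MvPolynomial ι (ks k Ω), b ≠ 0 ∧
        x * ev ι k K Ω b = ev ι k K Ω a}
      mul_mem' := by
        rintro x y ⟨a, b, hb, h⟩ ⟨a', b', hb', h'⟩
        refine ⟨a * a', b * b', mul_ne_zero hb hb', ?_⟩
        rw [map_mul, map_mul, ← h, ← h']
        ring
      add_mem' := by
        rintro x y ⟨a, b, hb, h⟩ ⟨a', b', hb', h'⟩
        refine ⟨a * b' + a' * b, b * b', mul_ne_zero hb hb', ?_⟩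
        rw [map_mul, map_add, map_mul, map_mul, ← h, ← h']
        ring
      algebraMap_mem' := by
        intro c
        obtain ⟨p, q, hq, rfl⟩ := IsFractionRing.div_surjective (A := MvPolynomial ι k) c
        have hq0 : q ≠ 0 := nonZeroDivisors.ne_zero hq
        have h1 : algebraMap (MvPolynomial ι k) K q ≠ 0 := by
          intro h
          apply hq0
          exact IsFractionRing.injective (MvPolynomial ι k) K (by rw [h, map_zero])
        have h2 : algebraMap K Ω (algebraMap (MvPolynomial ι k) K q) ≠ 0 := by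
          intro h
          apply h1
          exact (algebraMap K Ω).injective (by rw [h, map_zero])
        refine ⟨up ι k Ω p, up ι k Ω q, ?_, ?_⟩
        · intro h
          have h3 := ev_up (K := K) (Ω := Ω) q
          rw [h, map_zero] at h3
          exact h2 h3.symm
        · rw [ev_up, ev_up, map_div₀, div_mul_cancel₀ _ h2]
      inv_mem' := by
        rintro x ⟨a, b, hb, h⟩
        by_cases hx0 : x = 0
        · rw [hx0, inv_zero]
          exact ⟨0, 1, one_ne_zero, by rw [zero_mul, map_zero]⟩
        · have ha : a ≠ 0 := by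
            rintro rfl
            rw [map_zero] at h
            rcases mul_eq_zero.1 h with h1 | h1
            · exact hx0 h1
            · exact ev_ne hb h1
          refine ⟨b, a, ha, ?_⟩
          rw [← h, ← mul_assoc, inv_mul_cancel₀ hx0, one_mul] }
  have h1 : geomField k K Ω ≤ M := by
    rw [IntermediateField.adjoin_le_iff]
    intro y hy
    refine ⟨C ⟨y, mem_algebraicClosure_iff.2 hy⟩, 1, one_ne_zero, ?_⟩
    rw [map_one, mul_one, ev_C]
  exact h1 hx

omit [IsScalarTower k (MvPolynomial ι k) K] [IsScalarTower k K Ω]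
  [IsFractionRing (MvPolynomial ι k) K] in
lemma ev_geom (p : MvPolynomial ι (ks k Ω)) : ev ι k K Ω p ∈ geomField k K Ω := by
  induction p using MvPolynomial.induction_on with
  | C a =>
    rw [ev_C]
    exact IntermediateField.subset_adjoin _ _ (ks_alg a)
  | add p q hp hq => rw [map_add]; exact (geomField k K Ω).add_mem hp hq
  | mul_X p i hp =>
    rw [map_mul]
    refine (geomField k K Ω).mul_mem hp ?_
    unfold ev
    rw [aeval_X]
    exact (geomField k K Ω).algebraMap_mem _

omit [IsScalarTower k (MvPolynomial ι k) K] [IsScalarTower k K Ω]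
  [IsFractionRing (MvPolynomial ι k) K] in
lemma fix_geom {τ : Gal(Ω/K)} (hτ : τ ∈ Hg k K Ω) {x : Ω} (hx : x ∈ geomField k K Ω) :
    τ x = x := by
  rw [IntermediateField.mem_fixingSubgroup_iff] at hτ
  exact hτ _ hx

omit [IsScalarTower k (MvPolynomial ι k) K] [IsScalarTower k K Ω]
  [IsFractionRing (MvPolynomial ι k) K] in
lemma fix_ev {τ : Gal(Ω/K)} (hτ : τ ∈ Hg k K Ω) (p : MvPolynomial ι (ks k Ω)) :
    τ (ev ι k K Ω p) = ev ι k K Ω p := fix_geom hτ (ev_geom p)

omit [Algebra (MvPolynomial ι k) K] [Algebra k K] in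
lemma alg_geom {x : Ω} (hx : IsAlgebraic k x) : x ∈ geomField k K Ω :=
  IntermediateField.subset_adjoin _ _ hx

end ev

end Run7.h784
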