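import Mathlib

/-!
# Kummer theory (after `Pool.Agent.W975.UG.Kuma`)
-/

set_option autoImplicit false
set_option linter.unusedVariables false

namespace Run7.h784

section

variable {F Ω : Type} [Field F] [Field Ω] [Algebra F Ω] [IsGalois F Ω]
  (K : IntermediateField F Ω) (N : Subgroup K.fixingSubgroup)

/-- the fixed elements of a subgroup -/
lemma closed_map (hN : IsOpen (N : Set K.fixingSubgroup)) :
    IsClosed ((N.map K.fixingSubgroup.subtype : Subgroup Gal(Ω/F)) : Set Gal(Ω/F)) := by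
  have h1 : IsClosed (N : Set K.fixingSubgroup) := Subgroup.isClosed_of_isOpen N hN
  have h2 : IsClosed (K.fixingSubgroup : Set Gal(Ω/F)) := InfiniteGalois.fixingSubgroup_isClosed K
  rw [Subgroup.coe_map]
  exact h2.isClosedEmbedding_subtypeVal.isClosedMap _ h1

/-- elements fixing the fixed field of `N` -/
lemma mem_of_fix (hN : IsOpen (N : Set K.fixingSubgroup)) (g : K.fixingSubgroup)
    (hg : ∀ x : Ω, (∀ n ∈ N, (n : Gal(Ω/F)) x = x) → (g : Gal(Ω/F)) x = x) : g ∈ N := by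
  have h1 := InfiniteGalois.fixingSubgroup_fixedField
    (⟨N.map K.fixingSubgroup.subtype, closed_map K N hN⟩ : ClosedSubgroup Gal(Ω/F))
  have h2 : (g : Gal(Ω/F)) ∈ (IntermediateField.fixedField
      (N.map K.fixingSubgroup.subtype : Subgroup Gal(Ω/F))).fixingSubgroup := by
    rw [IntermediateField.mem_fixingSubgroup_iff]
    intro x hx
    apply hg
    intro n hn
    exact hx ⟨n, ⟨n, hn, rfl⟩⟩
  have h3 : (g : Gal(Ω/F)) ∈ (N.map K.fixingSubgroup.subtype : Subgroup Gal(Ω/F)) := by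
    have h4 : (IntermediateField.fixedField
      (N.map K.fixingSubgroup.subtype : Subgroup Gal(Ω/F))).fixingSubgroup =
      (N.map K.fixingSubgroup.subtype : Subgroup Gal(Ω/F)) := h1
    rw [← h4]
    exact h2
  obtain ⟨n, hn, hng⟩ := h3
  have : n = g := Subtype.ext hng
  rw [← this]
  exact hn

/-- **Kummer theory** -/
theorem kummer {l : ℕ} (hl : l.Prime) {ζ : Ω} (hζ : IsPrimitiveRoot ζ l) (hζK : ζ ∈ K)
    (f : K.fixingSubgroup →* Multiplicative (ZMod l))
    (hf : IsOpen (f.ker : Set K.fixingSubgroup)) :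
    ∃ u : Ω, u ≠ 0 ∧ u ^ l ∈ K ∧ ∀ h : K.fixingSubgroup,
      (h : Gal(Ω/F)) u = ζ ^ (Multiplicative.toAdd (f h)).val * u := by
  classical
  have : Fact l.Prime := ⟨hl⟩
  have : NeZero l := ⟨hl.ne_zero⟩
  have hζl : ζ ^ l = 1 := hζ.pow_eq_one
  have hζ0 : ζ ≠ 0 := hζ.ne_zero hl.ne_zero
  have hfixζ : ∀ h : K.fixingSubgroup, (h : Gal(Ω/F)) ζ = ζ := fun h =>
    (IntermediateField.mem_fixingSubgroup_iff K _).1 h.2 ζ hζK
  by_cases hf1 : ∀ h, f h = 1
  · refine ⟨1, one_ne_zero, by rw [one_pow]; exact K.one_mem, fun h => ?_⟩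
    rw [hf1 h, toAdd_one, ZMod.val_zero, pow_zero, one_mul, map_one]
  · push Not at hf1
    obtain ⟨h₀, hh₀⟩ := hf1
    -- the generator
    obtain ⟨τ, hτ⟩ : ∃ τ, f τ = Multiplicative.ofAdd (1 : ZMod l) := by
      refine ⟨h₀ ^ ((Multiplicative.toAdd (f h₀))⁻¹ : ZMod l).val, ?_⟩
      apply Multiplicative.toAdd.injective
      have ha : Multiplicative.toAdd (f h₀) ≠ 0 := fun h => hh₀ (by
        apply Multiplicative.toAdd.injective
        rw [h, toAdd_one])
      rw [map_pow, toAdd_pow, toAdd_ofAdd, nsmul_eq_mul, ZMod.natCast_zmod_val,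
        inv_mul_cancel₀ ha]
    have hτj : ∀ j : ℕ, f (τ ^ j) = Multiplicative.ofAdd (j : ZMod l) := by
      intro j
      rw [map_pow, hτ, ← ofAdd_nsmul, nsmul_eq_mul, mul_one]
    -- characters
    set Mf : IntermediateField F Ω := IntermediateField.fixedField
      (f.ker.map K.fixingSubgroup.subtype : Subgroup Gal(Ω/F)) with hMf
    have hMf' : ∀ x ∈ Mf, ∀ n ∈ f.ker, (n : Gal(Ω/F)) x = x := by
      intro x hx n hn
      exact hx ⟨n, ⟨n, hn, rfl⟩⟩
    let χ : Fin l → (Mf →* Ω) := fun j =>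
      (((τ ^ (j : ℕ) : K.fixingSubgroup) : Gal(Ω/F)) :
        Ω →* Ω).comp (Mf.subtype : Mf →* Ω)
    have hχ : ∀ (j : Fin l) (x : Mf), χ j x =
      ((τ ^ (j : ℕ) : K.fixingSubgroup) : Gal(Ω/F)) x := fun j x => rfl
    have hχinj : Function.Injective χ := by
      intro i j hij
      have h1 : (τ ^ (i : ℕ))⁻¹ * τ ^ (j : ℕ) ∈ f.ker := by
        refine mem_of_fix K f.ker hf _ fun x hx => ?_
        have hxM : x ∈ Mf := by
          rw [hMf, IntermediateField.mem_fixedField_iff]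
          rintro _ ⟨n, hn, rfl⟩
          exact hx n hn
        have h2 := DFunLike.congr_fun hij ⟨x, hxM⟩
        rw [hχ, hχ] at h2
        have h3 : (((τ ^ (i : ℕ))⁻¹ * τ ^ (j : ℕ) : K.fixingSubgroup) :
            Gal(Ω/F)) x =
            ((τ ^ (i : ℕ) : K.fixingSubgroup) : Gal(Ω/F)).symm
              (((τ ^ (j : ℕ) : K.fixingSubgroup) : Gal(Ω/F)) x) := rfl
        rw [h3]
        have h4 : ((τ ^ (j : ℕ) : K.fixingSubgroup) : Gal(Ω/F)) x =
            ((τ ^ (i : ℕ) : K.fixingSubgroup) : Gal(Ω/F)) x := h2.symm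
        rw [h4, AlgEquiv.symm_apply_apply]
      rw [MonoidHom.mem_ker, map_mul, map_inv, hτj, hτj, inv_mul_eq_one] at h1
      have h5 : ((i : ℕ) : ZMod l) = ((j : ℕ) : ZMod l) := Multiplicative.ofAdd.injective h1
      apply Fin.ext
      have h6 := congrArg ZMod.val h5
      rwa [ZMod.val_natCast_of_lt i.2, ZMod.val_natCast_of_lt j.2] at h6
    have hli := (linearIndependent_monoidHom Mf Ω).comp χ hχinj
    rw [Fintype.linearIndependent_iff] at hli
    have hne : ∃ x : Mf, ∑ j : Fin l, (ζ⁻¹) ^ (j : ℕ) * χ j x ≠ 0 := by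
      by_contra hcon
      push Not at hcon
      have h1 := hli (fun j => (ζ⁻¹) ^ (j : ℕ)) (by
        funext x
        rw [Finset.sum_apply]
        simpa using hcon x) ⟨0, hl.pos⟩
      exact pow_ne_zero _ (inv_ne_zero hζ0) h1
    obtain ⟨θ, hθ⟩ := hne
    set u : Ω := ∑ j : Fin l, (ζ⁻¹) ^ (j : ℕ) * χ j θ with hu
    have hfixζ' : ∀ (h : K.fixingSubgroup) (j : ℕ),
        (h : Gal(Ω/F)) ((ζ⁻¹) ^ j) = (ζ⁻¹) ^ j := by
      intro h j
      rw [map_pow, map_inv₀, hfixζ]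
    have hnu : ∀ n ∈ f.ker, (n : Gal(Ω/F)) u = u := by
      intro n hn
      rw [hu, map_sum]
      refine Finset.sum_congr rfl fun j _ => ?_
      rw [map_mul, hfixζ', hχ]
      congr 1
      have h1 : (τ ^ (j : ℕ))⁻¹ * n * τ ^ (j : ℕ) ∈ f.ker := by
        rw [MonoidHom.mem_ker, map_mul, map_mul, map_inv, (MonoidHom.mem_ker).1 hn, mul_one,
          inv_mul_cancel]
      have h2 := hMf' θ θ.2 _ h1
      have h3 : n * τ ^ (j : ℕ) = τ ^ (j : ℕ) * ((τ ^ (j : ℕ))⁻¹ * n * τ ^ (j : ℕ)) := by group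
      have h4 : (n : Gal(Ω/F))
          (((τ ^ (j : ℕ) : K.fixingSubgroup) : Gal(Ω/F)) θ) =
          ((n * τ ^ (j : ℕ) : K.fixingSubgroup) : Gal(Ω/F)) θ := rfl
      rw [h4, h3]
      show ((τ ^ (j : ℕ) : K.fixingSubgroup) : Gal(Ω/F))
        ((((τ ^ (j : ℕ))⁻¹ * n * τ ^ (j : ℕ) : K.fixingSubgroup) :
          Gal(Ω/F)) θ) = _
      rw [h2]
    -- the generator acts by multiplication with `ζ`
    have hτl : ((τ ^ l : K.fixingSubgroup) : Gal(Ω/F)) θ = θ := by
      refine hMf' θ θ.2 _ ?_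
      rw [MonoidHom.mem_ker, hτj, ZMod.natCast_self, ofAdd_zero]
    have hτu : (τ : Gal(Ω/F)) u = ζ * u := by
      have hg : ∀ g : ℕ → Ω, (∑ j : Fin l, g j) = ∑ j ∈ Finset.range l, g j :=
        fun g => (Finset.sum_range g).symm
      have hu' : u = ∑ j ∈ Finset.range l, (ζ⁻¹) ^ j *
          ((τ ^ j : K.fixingSubgroup) : Gal(Ω/F)) θ :=
        hg (fun j => (ζ⁻¹) ^ j * ((τ ^ j : K.fixingSubgroup) : Gal(Ω/F)) θ)
      rw [hu', map_sum, Finset.mul_sum]
      have h1 : ∀ j, (τ : Gal(Ω/F)) ((ζ⁻¹) ^ j *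
          ((τ ^ j : K.fixingSubgroup) : Gal(Ω/F)) θ) =
          ζ * ((ζ⁻¹) ^ (j + 1) *
            ((τ ^ (j + 1) : K.fixingSubgroup) : Gal(Ω/F)) θ) := by
        intro j
        rw [map_mul, hfixζ', pow_succ' (ζ⁻¹), ← mul_assoc, ← mul_assoc, mul_inv_cancel₀ hζ0,
          one_mul]
        congr 1
        rw [pow_succ' τ]
        rfl
      rw [Finset.sum_congr rfl fun j _ => h1 j, ← Finset.mul_sum, ← Finset.mul_sum]
      congr 1
      have h2 := Finset.sum_range_succ (fun j => (ζ⁻¹) ^ j *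
        ((τ ^ j : K.fixingSubgroup) : Gal(Ω/F)) θ) l
      have h3 := Finset.sum_range_succ' (fun j => (ζ⁻¹) ^ j *
        ((τ ^ j : K.fixingSubgroup) : Gal(Ω/F)) θ) l
      rw [h2] at h3
      have h4 : (ζ⁻¹) ^ l * ((τ ^ l : K.fixingSubgroup) : Gal(Ω/F)) θ = θ := by
        rw [hτl, inv_pow, hζl, inv_one, one_mul]
      have h5 : (ζ⁻¹) ^ 0 * ((τ ^ 0 : K.fixingSubgroup) : Gal(Ω/F)) θ = θ := by
        rw [pow_zero, pow_zero, one_mul]
        rfl
      rw [h4, h5] at h3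
      exact (add_right_cancel h3).symm
    have hτju : ∀ j : ℕ, ((τ ^ j : K.fixingSubgroup) : Gal(Ω/F)) u =
        ζ ^ j * u := by
      intro j
      induction j with
      | zero =>
        rw [pow_zero, pow_zero, one_mul]
        rfl
      | succ j ih =>
        have h1 : ((τ ^ (j + 1) : K.fixingSubgroup) : Gal(Ω/F)) u =
            (τ : Gal(Ω/F))
              (((τ ^ j : K.fixingSubgroup) : Gal(Ω/F)) u) := by
          rw [pow_succ' τ]
          rfl
        rw [h1, ih, map_mul, map_pow, hfixζ, hτu, pow_succ]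
        ring
    have hact : ∀ h : K.fixingSubgroup, (h : Gal(Ω/F)) u =
        ζ ^ (Multiplicative.toAdd (f h)).val * u := by
      intro h
      set a := (Multiplicative.toAdd (f h)).val with ha
      have h1 : (τ ^ a)⁻¹ * h ∈ f.ker := by
        rw [MonoidHom.mem_ker, map_mul, map_inv, hτj, ha, ZMod.natCast_zmod_val, inv_mul_eq_one]
        rfl
      have h2 : h = τ ^ a * ((τ ^ a)⁻¹ * h) := by group
      have h3 : (h : Gal(Ω/F)) u =
          ((τ ^ a : K.fixingSubgroup) : Gal(Ω/F))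
            ((((τ ^ a)⁻¹ * h : K.fixingSubgroup) : Gal(Ω/F)) u) := by
        conv_lhs => rw [h2]
        rfl
      rw [h3, hnu _ h1, hτju]
    refine ⟨u, hθ, ?_, hact⟩
    have hgal : IntermediateField.fixedField K.fixingSubgroup = K :=
      InfiniteGalois.fixedField_fixingSubgroup K
    rw [← hgal, IntermediateField.mem_fixedField_iff]
    intro g hg
    have h1 := hact ⟨g, hg⟩
    have h2 : g u = ζ ^ (Multiplicative.toAdd (f ⟨g, hg⟩)).val * u := h1
    rw [map_pow, h2, mul_pow, ← pow_mul, mul_comm _ l, pow_mul, hζl, one_pow, one_mul]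

end

end Run7.h784
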