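import Pool.Agent.Run7.h784.Ram
import Pool.Agent.Run7.h784.Kum

/-!
# Characters of `l`-power order of the geometric fundamental group
-/

set_option autoImplicit false
set_option linter.unusedSectionVars false
set_option linter.unusedVariables false

namespace Run7.h784

open MvPolynomial

section

variable {ι k K Ω : Type} [Field k] [Field K] [Field Ω]
  [Algebra (MvPolynomial ι k) K] [Algebra k K] [Algebra K Ω] [Algebra k Ω]
  [IsScalarTower k (MvPolynomial ι k) K] [IsScalarTower k K Ω]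
  [IsFractionRing (MvPolynomial ι k) K] {g : MvPolynomial ι k}

variable (K Ω) in
/-- the polynomials dividing a power of `g`, as elements of `Ω` -/
def Un (g : MvPolynomial ι k) : Set Ω :=
  {w | ∃ (a : MvPolynomial ι (ks k Ω)) (M : ℕ), a ∣ up ι k Ω g ^ M ∧ ev ι k K Ω a = w}

lemma up_ne (hg : g ≠ 0) : up ι k Ω g ≠ 0 := by
  intro h
  apply hg
  unfold up at h
  exact MvPolynomial.map_injective _ (algebraMap k (ks k Ω)).injective (by rw [h, map_zero])

lemma dvd_pow_of_primes {R : Type} [CommRing R] [IsDomain R] [UniqueFactorizationMonoid R]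
    {G : R} (w : R) (hw : w ≠ 0) (h : ∀ π : R, Prime π → π ∣ w → π ∣ G) :
    ∃ M : ℕ, w ∣ G ^ M := by
  induction w using UniqueFactorizationMonoid.induction_on_prime with
  | h₁ => exact absurd rfl hw
  | h₂ x hx => exact ⟨0, hx.dvd⟩
  | h₃ a p ha hp ih =>
    obtain ⟨M, hM⟩ := ih ha fun π hπ hπa => h π hπ (hπa.mul_left p)
    refine ⟨M + 1, ?_⟩
    rw [pow_succ']
    exact mul_dvd_mul (h p hp (dvd_mul_right _ _)) hM

/-- characters of order `l` -/
theorem key0 [Finite ι] [IsSepClosed Ω] [IsGalois K Ω] (hg : g ≠ 0) {l : ℕ} (hl : l.Prime)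
    (hlk : (l : k) ≠ 0) {ζ : Ω} (hζ : IsPrimitiveRoot ζ l)
    (f : Hg k K Ω →* Multiplicative (ZMod l)) (hf : IsOpen (f.ker : Set (Hg k K Ω)))
    (hin : ∀ P : Ideal (intRing K Ω g), P.IsMaximal → ∀ τ : Hg k K Ω,
      InInertia P (τ : Gal(Ω/K)) → f τ = 1) :
    ∃ v : Ω, v ≠ 0 ∧ v ^ l ∈ Un K Ω g ∧ ∀ h : Hg k K Ω,
      (h : Gal(Ω/K)) v = ζ ^ (Multiplicative.toAdd (f h)).val * v := by
  have hζalg : IsAlgebraic k ζ := by
    refine ⟨Polynomial.X ^ l - 1, ?_, ?_⟩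
    · exact Polynomial.X_pow_sub_C_ne_zero hl.pos 1
    · rw [map_sub, map_pow, Polynomial.aeval_X, hζ.pow_eq_one, map_one, sub_self]
  obtain ⟨u, hu0, hul, hu⟩ := kummer (geomField k K Ω) hl hζ (alg_geom hζalg) f hf
  obtain ⟨a, b, hb, hab⟩ := geo (ι := ι) hul
  -- the main induction
  have main : ∀ w : MvPolynomial ι (ks k Ω), w ≠ 0 → ∀ v : Ω, v ≠ 0 → v ^ l = ev ι k K Ω w →
      (∀ h : Hg k K Ω, (h : Gal(Ω/K)) v = ζ ^ (Multiplicative.toAdd (f h)).val * v) →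
      ∃ v : Ω, v ≠ 0 ∧ v ^ l ∈ Un K Ω g ∧ ∀ h : Hg k K Ω,
        (h : Gal(Ω/K)) v = ζ ^ (Multiplicative.toAdd (f h)).val * v := by
    intro w
    induction w using (wellFounded_dvdNotUnit
      (α := MvPolynomial ι (ks k Ω))).induction with
    | _ w ih =>
      intro hw v hv hvw hch
      by_cases hall : ∀ π : MvPolynomial ι (ks k Ω), Prime π → π ∣ w → π ∣ up ι k Ω g
      · obtain ⟨M, hM⟩ := dvd_pow_of_primes w hw hall
        exact ⟨v, hv, ⟨w, M, hM, hvw.symm⟩, hch⟩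
      · push Not at hall
        obtain ⟨π, hπ, hπw, hπg⟩ := hall
        obtain ⟨e, w', rfl, hw'⟩ := val_exists hπ hw
        by_cases he : l ∣ e
        · obtain ⟨e', rfl⟩ := he
          have hw'0 : w' ≠ 0 := by
            rintro rfl
            exact hw' (dvd_zero _)
          have he0 : l * e' ≠ 0 := by
            intro h0
            rw [h0, pow_zero, one_mul] at hπw
            exact hw' hπw
          have hπ0 : ev ι k K Ω π ≠ 0 := ev_ne hπ.ne_zero
          refine ih w' ⟨hw'0, π ^ (l * e'), ?_, mul_comm _ _⟩ hw'0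
            (v * (ev ι k K Ω π ^ e')⁻¹) (mul_ne_zero hv (inv_ne_zero (pow_ne_zero _ hπ0))) ?_ ?_
          · intro hunit
            exact hπ.not_isUnit (isUnit_of_dvd_unit (dvd_pow_self π he0) hunit)
          · rw [mul_pow, hvw, map_mul, map_pow, inv_pow, ← pow_mul, mul_comm e' l]
            have h1 : ev ι k K Ω π ^ (l * e') ≠ 0 := pow_ne_zero _ hπ0
            field_simp
          · intro h
            rw [map_mul, map_inv₀, map_pow, fix_ev h.2, hch h]
            ring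
        · exfalso
          obtain ⟨P, hP, τ, hτ, hτi, hτv⟩ := ram hg hπ hπg rfl hw' hl hlk he hvw
          apply hτv
          have h1 := hch ⟨τ, hτ⟩
          rw [hin P hP ⟨τ, hτ⟩ hτi] at h1
          simpa using h1
  obtain ⟨l', rfl⟩ : ∃ l', l = l' + 1 := ⟨l - 1, by have := hl.pos; omega⟩
  have ha : a ≠ 0 := by
    rintro rfl
    rw [map_zero] at hab
    rcases mul_eq_zero.1 hab with h1 | h1
    · exact pow_ne_zero _ hu0 h1
    · exact ev_ne hb h1
  refine main (a * b ^ l') (mul_ne_zero ha (pow_ne_zero _ hb)) (u * ev ι k K Ω b)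
    (mul_ne_zero hu0 (ev_ne hb)) ?_ ?_
  · rw [mul_pow, map_mul, map_pow, ← hab, pow_succ (ev ι k K Ω b)]
    ring
  · intro h
    rw [map_mul, fix_ev h.2, hu h]
    ring

/-- a character of order `l` with values in a field -/
theorem toZ {G F : Type} [Group G] [Field F] {l : ℕ} (hl : l.Prime) {ζ : F}
    (hζ : IsPrimitiveRoot ζ l) (f : G →* Fˣ) (hf : ∀ g, f g ^ l = 1) :
    ∃ f1 : G →* Multiplicative (ZMod l), ∀ g,
      (f g : F) = ζ ^ (Multiplicative.toAdd (f1 g)).val := by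
  have : NeZero l := ⟨hl.ne_zero⟩
  have h1 : ∀ g, ∃ i : ℕ, ζ ^ i = (f g : F) := by
    intro g
    obtain ⟨i, -, hi⟩ := hζ.eq_pow_of_pow_eq_one (ξ := (f g : F)) (by
      rw [← Units.val_pow_eq_pow_val, hf, Units.val_one])
    exact ⟨i, hi⟩
  choose i hi using h1
  have h2 : ∀ a b : ℕ, ζ ^ a = ζ ^ b ↔ (a : ZMod l) = b := by
    intro a b
    rw [ZMod.natCast_eq_natCast_iff, hζ.eq_orderOf]
    exact IsOfFinOrder.pow_eq_pow_iff_modEq
      (isOfFinOrder_iff_pow_eq_one.2 ⟨l, hl.pos, hζ.pow_eq_one⟩)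
  refine ⟨MonoidHom.mk' (fun g => Multiplicative.ofAdd (i g : ZMod l)) (fun a b => ?_),
    fun g => ?_⟩
  · rw [← ofAdd_add, ← Nat.cast_add]
    congr 1
    rw [← h2, pow_add, hi, hi, hi, map_mul, Units.val_mul]
  · rw [MonoidHom.mk'_apply, toAdd_ofAdd, ← hi, h2, ZMod.natCast_zmod_val]

lemma lk_ne {l : ℕ} (hlk : (l : k) ≠ 0) : (l : Ω) ≠ 0 := by
  intro h
  apply hlk
  have h5 : algebraMap k Ω (l : k) = 0 := by rw [map_natCast]; exact h
  exact (algebraMap k Ω).injective (by rw [h5, map_zero])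

theorem key1 [Finite ι] [IsSepClosed Ω] [IsGalois K Ω] (hg : g ≠ 0) {l : ℕ} (hl : l.Prime)
    (hlk : (l : k) ≠ 0) (f : Hg k K Ω →* Ωˣ) (hfl : ∀ h, f h ^ l = 1)
    (hf : IsOpen (f.ker : Set (Hg k K Ω)))
    (hin : ∀ P : Ideal (intRing K Ω g), P.IsMaximal → ∀ τ : Hg k K Ω,
      InInertia P (τ : Gal(Ω/K)) → f τ = 1) :
    ∃ v : Ω, v ≠ 0 ∧ v ^ l ∈ Un K Ω g ∧ ∀ h : Hg k K Ω, (h : Gal(Ω/K)) v = (f h : Ω) * v := by
  have hlΩ : (l : Ω) ≠ 0 := lk_ne hlk
  have : NeZero (l : Ω) := ⟨hlΩ⟩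
  have : NeZero l := ⟨hl.ne_zero⟩
  have hE : HasEnoughRootsOfUnity Ω l := IsSepClosed.hasEnoughRootsOfUnity Ω l
  obtain ⟨ζ, hζ⟩ := HasEnoughRootsOfUnity.exists_primitiveRoot Ω l
  obtain ⟨f1, hf1⟩ := toZ hl hζ f hfl
  have h1 : ∀ h, f1 h = 1 ↔ f h = 1 := by
    intro h
    rw [← Units.val_inj, hf1, Units.val_one, hζ.pow_eq_one_iff_dvd]
    constructor
    · intro h2
      rw [h2]
      simp
    · intro h2
      have h4 : (Multiplicative.toAdd (f1 h)).val = 0 :=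
        Nat.eq_zero_of_dvd_of_lt h2 (ZMod.val_lt _)
      have h5 : Multiplicative.toAdd (f1 h) = 0 := (ZMod.val_eq_zero _).1 h4
      exact Multiplicative.toAdd.injective h5
  obtain ⟨v, hv0, hvU, hv⟩ := key0 hg hl hlk hζ f1 (by
    have h2 : f1.ker = f.ker := by
      ext h
      exact h1 h
    rw [h2]
    exact hf) (fun P hP τ hτ => (h1 τ).2 (hin P hP τ hτ))
  refine ⟨v, hv0, hvU, fun h => ?_⟩
  rw [hv h, hf1]

/-- the elements of `Un` and their inverses are integral -/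
lemma un_mem (hg : g ≠ 0) {w : Ω} (hw : w ∈ Un K Ω g) :
    w ≠ 0 ∧ w ∈ intRing K Ω g ∧ w⁻¹ ∈ intRing K Ω g ∧ w ∈ geomField k K Ω := by
  obtain ⟨a, M, ⟨b, hab⟩, rfl⟩ := hw
  have hg0 := inc0_ne (K := K) (Ω := Ω) hg
  have ha0 : a ≠ 0 := by
    rintro rfl
    rw [zero_mul] at hab
    exact pow_ne_zero _ (up_ne (Ω := Ω) hg) hab
  have h1 : ev ι k K Ω a ≠ 0 := ev_ne ha0
  refine ⟨h1, ev_mem a, ?_, ev_geom a⟩
  have h2 : ev ι k K Ω a * ev ι k K Ω b = inc0 ι k K Ω g ^ M := by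
    rw [← map_mul, ← hab, map_pow, ← inc0_eq]
  have h3 : (ev ι k K Ω a)⁻¹ = ev ι k K Ω b * (inc0 ι k K Ω g)⁻¹ ^ M := by
    rw [inv_pow, ← h2]
    have h4 : ev ι k K Ω b ≠ 0 := by
      intro h
      rw [h, mul_zero] at h2
      exact pow_ne_zero _ hg0 h2.symm
    field_simp
  rw [h3]
  exact (intRing K Ω g).mul_mem (ev_mem b) ((intRing K Ω g).pow_mem ginv_mem _)

theorem inertia_root (hg : g ≠ 0) {P : Ideal (intRing K Ω g)} (hP : P.IsMaximal)
    {τ : Gal(Ω/K)} (hτ : InInertia P τ) {V ω : Ω} {N : ℕ} (hN : (N : k) ≠ 0) (hω : ω ^ N = 1)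
    (hV0 : V ≠ 0) (hVN : V ^ N ∈ Un K Ω g) (hgV : τ V = ω * V) : ω = 1 := by
  have hN0 : N ≠ 0 := by
    rintro rfl
    exact hN (by rw [Nat.cast_zero])
  have hNΩ : (N : Ω) ≠ 0 := lk_ne hN
  by_contra hne
  obtain ⟨-, h1, h2, -⟩ := un_mem hg hVN
  have hV : V ∈ intRing K Ω g := pow_mem_B (Nat.pos_of_ne_zero hN0) h1
  have hV' : V⁻¹ ∈ intRing K Ω g := by
    apply pow_mem_B (Nat.pos_of_ne_zero hN0)
    rw [inv_pow]
    exact h2
  have hωi : ω ∈ intRing K Ω g := by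
    apply pow_mem_B (Nat.pos_of_ne_zero hN0)
    rw [hω]
    exact (intRing K Ω g).one_mem
  have hNi : (N : Ω)⁻¹ ∈ intRing K Ω g := by
    apply const_mem
    have h4 : ((N : Ω)⁻¹) = algebraMap k Ω ((N : k)⁻¹) := by rw [map_inv₀, map_natCast]
    rw [h4]
    exact isAlgebraic_algebraMap _
  let V1 : intRing K Ω g := ⟨V, hV⟩
  let V2 : intRing K Ω g := ⟨V⁻¹, hV'⟩
  let w : intRing K Ω g := ⟨ω, hωi⟩
  let N1 : intRing K Ω g := ⟨(N : Ω)⁻¹, hNi⟩
  obtain ⟨z, hzP, hz⟩ := hτ V1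
  have h1 : w - 1 ∈ P := by
    have h2 : w - 1 = z * V2 := by
      apply Subtype.ext
      show ω - 1 = (z : Ω) * V⁻¹
      rw [hz]
      show ω - 1 = (τ V - V) * V⁻¹
      rw [hgV]
      field_simp
    rw [h2]
    exact P.mul_mem_right _ hzP
  have h3 : ∑ i ∈ Finset.range N, w ^ i = 0 := by
    have h4 : (∑ i ∈ Finset.range N, w ^ i) * (w - 1) = w ^ N - 1 := geom_sum_mul w N
    have h5 : w ^ N = 1 := Subtype.ext (by
      show ω ^ N = 1
      exact hω)
    rw [h5, sub_self, mul_eq_zero] at h4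
    rcases h4 with h4 | h4
    · exact h4
    · exfalso
      apply hne
      have h6 := congrArg (fun z : intRing K Ω g => (z : Ω)) h4
      have h7 : ω - 1 = 0 := h6
      exact sub_eq_zero.1 h7
  have h8 : (N : intRing K Ω g) ∈ P := by
    have h9 : (N : intRing K Ω g) = -(∑ i ∈ Finset.range N, (w ^ i - 1)) := by
      rw [Finset.sum_sub_distrib, h3]
      simp
    rw [h9]
    refine P.neg_mem (P.sum_mem fun i _ => ?_)
    have h10 : w - 1 ∣ w ^ i - 1 := by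
      have h11 := sub_dvd_pow_sub_pow w 1 i
      rwa [one_pow] at h11
    exact P.mem_of_dvd h10 h1
  apply hP.ne_top
  rw [Ideal.eq_top_iff_one]
  have h12 : (1 : intRing K Ω g) = N1 * (N : intRing K Ω g) := by
    apply Subtype.ext
    show (1 : Ω) = (N : Ω)⁻¹ * (((N : intRing K Ω g)) : Ω)
    have h13 : (((N : intRing K Ω g)) : Ω) = (N : Ω) := by
      exact map_natCast (intRing K Ω g).subtype N
    rw [h13, inv_mul_cancel₀ hNΩ]
  rw [h12]
  exact P.mul_mem_left _ h8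

theorem isOpen_stab [IsGalois K Ω] (V : Ω) : IsOpen {h : Hg k K Ω | (h : Gal(Ω/K)) V = V} := by
  have h1 := stabilizer_isOpen_of_isIntegral (K := K) V
  exact h1.preimage continuous_subtype_val

variable (K Ω) in
/-- `σ` fixes the divisors of `g` up to constants. -/
def SemiInv (g : MvPolynomial ι k) (σ : Gal(Ω/K)) : Prop :=
  ∀ a : MvPolynomial ι (ks k Ω), a ∣ up ι k Ω g →
    ∃ c : Ω, IsAlgebraic k c ∧ σ (ev ι k K Ω a) = c * ev ι k K Ω a

lemma SemiInv.pow {σ : Gal(Ω/K)} (hσ : SemiInv K Ω g σ) (M : ℕ) (a : MvPolynomial ι (ks k Ω))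
    (ha : a ∣ up ι k Ω g ^ M) :
    ∃ c : Ω, IsAlgebraic k c ∧ σ (ev ι k K Ω a) = c * ev ι k K Ω a := by
  induction a using UniqueFactorizationMonoid.induction_on_prime with
  | h₁ => exact ⟨1, isAlgebraic_one, by simp⟩
  | h₂ x hx => exact hσ x hx.dvd
  | h₃ a p ha0 hp ih =>
    obtain ⟨c1, h1, h1'⟩ := ih ((dvd_mul_left a p).trans ha)
    obtain ⟨c2, h2, h2'⟩ := hσ p (hp.dvd_of_dvd_pow ((dvd_mul_right p a).trans ha))
    refine ⟨c2 * c1, h2.mul h1, ?_⟩
    rw [map_mul, map_mul, h1', h2']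
    ring

lemma alg_gal (σ : Gal(Ω/K)) {x : Ω} (hx : IsAlgebraic k x) : IsAlgebraic k (σ x) := by
  have h := hx.algHom ((σ : Ω →ₐ[K] Ω).restrictScalars k)
  exact h

/-- the action of the Galois group on the characters of `l`-power order of the geometric
fundamental group -/
theorem kump [Finite ι] [IsSepClosed Ω] [IsGalois K Ω] (hg : g ≠ 0) {l : ℕ} (hl : l.Prime)
    (hlk : (l : k) ≠ 0) (σ : Gal(Ω/K)) (hsi : SemiInv K Ω g σ) (c : ℕ) : ∀ (N : ℕ),
    (∀ z : Ω, z ^ (l ^ N) = 1 → σ z = z ^ c) →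
    ∀ (f : Hg k K Ω →* Ωˣ), (∀ h, f h ^ (l ^ N) = 1) → IsOpen (f.ker : Set (Hg k K Ω)) →
    (∀ P : Ideal (intRing K Ω g), P.IsMaximal → ∀ τ : Hg k K Ω,
      InInertia P (τ : Gal(Ω/K)) → f τ = 1) →
    ∀ (h : Hg k K Ω) (hh : σ * h * σ⁻¹ ∈ Hg k K Ω), f ⟨σ * h * σ⁻¹, hh⟩ = f h ^ c := by
  intro N
  induction N with
  | zero =>
    intro _ f hf _ _ h hh
    have h1 : ∀ h, f h = 1 := by simpa using hf
    rw [h1, h1, one_pow]
  | succ N ih =>
    intro hσ f hfK hfo hin h hh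
    obtain ⟨v, hv0, hvU, hv⟩ := key1 hg hl hlk ((powMonoidHom (l ^ N)).comp f) (fun h => by
      show (f h ^ (l ^ N)) ^ l = 1
      rw [← pow_mul, ← pow_succ]
      exact hfK h) (by
      refine Subgroup.isOpen_mono (H₁ := f.ker) ?_ hfo
      intro h hh
      show f h ^ (l ^ N) = 1
      rw [show f h = 1 from hh, one_pow]) (fun P hP τ hτ => by
      show f τ ^ (l ^ N) = 1
      rw [hin P hP τ hτ, one_pow])
    have hlK : 0 < l ^ N := Nat.pow_pos hl.pos
    have hlK1 : 0 < l ^ (N + 1) := Nat.pow_pos hl.pos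
    have hlk1 : ((l ^ (N + 1) : ℕ) : k) ≠ 0 := by
      push_cast
      exact pow_ne_zero _ hlk
    have hne : NeZero ((l ^ N : ℕ) : Ω) := ⟨lk_ne (by push_cast; exact pow_ne_zero _ hlk)⟩
    obtain ⟨V, hV⟩ := IsSepClosed.exists_pow_nat_eq v (l ^ N)
    have hV0 : V ≠ 0 := by
      rintro rfl
      rw [zero_pow hlK.ne'] at hV
      exact hv0 hV.symm
    have hVD : V ^ (l ^ (N + 1)) ∈ Un K Ω g := by
      rw [pow_succ, pow_mul, hV]
      exact hvU
    obtain ⟨hD0, -, -, hDg⟩ := un_mem hg hVD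
    have hrt : ∀ τ ∈ Hg k K Ω, (τ V * V⁻¹) ^ (l ^ (N + 1)) = 1 := by
      intro τ hτ
      rw [mul_pow, ← map_pow, fix_geom hτ hDg, inv_pow, mul_inv_cancel₀ (pow_ne_zero _ hV0)]
    have hrtalg : ∀ (z : Ω), z ^ (l ^ (N + 1)) = 1 → IsAlgebraic k z := by
      intro z hz
      refine ⟨Polynomial.X ^ (l ^ (N + 1)) - 1, ?_, ?_⟩
      · exact Polynomial.X_pow_sub_C_ne_zero hlK1 1
      · rw [map_sub, map_pow, Polynomial.aeval_X, hz, map_one, sub_self]
    have hrtfix : ∀ (z : Ω), z ^ (l ^ (N + 1)) = 1 → ∀ h : Hg k K Ω, (h : Gal(Ω/K)) z = z :=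
      fun z hz h => fix_geom h.2 (alg_geom (hrtalg z hz))
    -- `σ⁻¹ V / V` is a constant
    have hμ : IsAlgebraic k (σ⁻¹ V * V⁻¹) := by
      obtain ⟨a, M, haM, ha⟩ := hVD
      obtain ⟨c1, hc1, hc1'⟩ := hsi.pow M a haM
      have h1 : (σ⁻¹ V * V⁻¹) ^ (l ^ (N + 1)) = (σ⁻¹ c1)⁻¹ := by
        have h2 : σ⁻¹ (σ (ev ι k K Ω a)) = ev ι k K Ω a := by
          rw [← AlgEquiv.mul_apply, inv_mul_cancel]
          rfl
        rw [hc1', map_mul] at h2
        rw [mul_pow, ← map_pow, inv_pow, ← ha]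
        have h3 : ev ι k K Ω a ≠ 0 := by rw [ha]; exact hD0
        have h4 : σ⁻¹ (ev ι k K Ω a) ≠ 0 := by
          intro h
          rw [h, mul_zero] at h2
          exact h3 h2.symm
        nth_rewrite 2 [← h2]
        rw [mul_inv]
        field_simp
      have h5 : IsAlgebraic k ((σ⁻¹ V * V⁻¹) ^ (l ^ (N + 1))) := by
        rw [h1]
        exact (alg_gal _ hc1).inv
      exact h5.of_pow hlK1
    let g0' : Hg k K Ω →* Ω :=
      { toFun := fun h => (h : Gal(Ω/K)) V * V⁻¹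
        map_one' := by
          show (1 : Gal(Ω/K)) V * V⁻¹ = 1
          rw [AlgEquiv.one_apply, mul_inv_cancel₀ hV0]
        map_mul' := fun a b => by
          show ((a : Gal(Ω/K)) * (b : Gal(Ω/K))) V * V⁻¹ = _
          rw [AlgEquiv.mul_apply]
          have h1 : (b : Gal(Ω/K)) V = ((b : Gal(Ω/K)) V * V⁻¹) * V := by
            rw [mul_assoc, inv_mul_cancel₀ hV0, mul_one]
          rw [h1, map_mul, hrtfix _ (hrt b b.2) a, ← h1]
          ring }
    let g0 : Hg k K Ω →* Ωˣ := g0'.toHomUnits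
    have hg0 : ∀ h, ((g0 h : Ωˣ) : Ω) = (h : Gal(Ω/K)) V * V⁻¹ := fun h => rfl
    have hg0V : ∀ h : Hg k K Ω, (h : Gal(Ω/K)) V = (g0 h : Ω) * V := by
      intro h
      rw [hg0, mul_assoc, inv_mul_cancel₀ hV0, mul_one]
    have h3 : g0 ⟨σ * h * σ⁻¹, hh⟩ = g0 h ^ c := by
      rw [← Units.val_inj, Units.val_pow_eq_pow_val, hg0]
      show (σ ((h : Gal(Ω/K)) (σ⁻¹ V))) * V⁻¹ = _
      have h4 : σ⁻¹ V = (σ⁻¹ V * V⁻¹) * V := by
        rw [mul_assoc, inv_mul_cancel₀ hV0, mul_one]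
      have h5 : (h : Gal(Ω/K)) (σ⁻¹ V) = (g0 h : Ω) * σ⁻¹ V := by
        rw [h4, map_mul, fix_geom h.2 (alg_geom hμ), hg0V, ← h4]
        nth_rewrite 2 [h4]
        ring
      rw [h5, map_mul, hσ _ (by rw [hg0]; exact hrt h h.2)]
      have h6 : σ (σ⁻¹ V) = V := by
        show (σ * σ⁻¹) V = V
        rw [mul_inv_cancel]
        rfl
      rw [h6, mul_assoc, mul_inv_cancel₀ hV0, mul_one]
    have h7 : (f / g0) ⟨σ * h * σ⁻¹, hh⟩ = (f / g0) h ^ c := by
      refine ih (fun z hz => hσ z (by rw [pow_succ, pow_mul, hz, one_pow])) (f / g0) ?_ ?_ ?_ h hh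
      · intro h
        have h20 : (g0 h : Ω) ^ (l ^ N) = (f h : Ω) ^ (l ^ N) := by
          rw [hg0, mul_pow, inv_pow, ← map_pow (h : Gal(Ω/K)), hV, hv h, mul_assoc,
            mul_inv_cancel₀ hv0, mul_one]
          rfl
        rw [MonoidHom.div_apply, div_pow, div_eq_one, ← Units.val_inj,
          Units.val_pow_eq_pow_val, Units.val_pow_eq_pow_val, h20]
      · have h8 : IsOpen ((g0.ker : Subgroup (Hg k K Ω)) : Set (Hg k K Ω)) := by
          have h9 : ((g0.ker : Subgroup (Hg k K Ω)) : Set (Hg k K Ω)) =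
              {h : Hg k K Ω | (h : Gal(Ω/K)) V = V} := by
            ext h
            show g0 h = 1 ↔ (h : Gal(Ω/K)) V = V
            rw [← Units.val_inj, hg0, Units.val_one, mul_inv_eq_one₀ hV0]
          rw [h9]
          exact isOpen_stab V
        refine Subgroup.isOpen_mono (H₁ := f.ker ⊓ g0.ker) ?_ (hfo.inter h8)
        rintro h ⟨h10, h11⟩
        show (f / g0) h = 1
        rw [MonoidHom.div_apply, show f h = 1 from h10, show g0 h = 1 from h11, div_one]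
      · intro P hP τ hτ
        have h12 : g0 τ = 1 := by
          rw [← Units.val_inj, Units.val_one]
          exact inertia_root hg hP hτ hlk1 (hrt τ τ.2) hV0 hVD (hg0V τ)
        rw [MonoidHom.div_apply, hin P hP τ hτ, h12, div_one]
    rw [MonoidHom.div_apply, MonoidHom.div_apply, h3, div_pow] at h7
    exact div_left_injective h7

/-- The action of the Galois group on the abelianised finite quotients of the geometric
fundamental group. -/
theorem ab [Finite ι] [IsSepClosed Ω] [IsGalois K Ω] (hg : g ≠ 0) {l : ℕ} (hl : l.Prime)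
    (hlk : (l : k) ≠ 0) (σ : Gal(Ω/K)) (hsi : SemiInv K Ω g σ)
    (c N : ℕ) (hσ : ∀ z : Ω, z ^ (l ^ N) = 1 → σ z = z ^ c)
    (U : Subgroup (Hg k K Ω)) (hU : IsOpen (U : Set (Hg k K Ω)))
    (hN : ∀ h : Hg k K Ω, h ^ (l ^ N) ∈ U)
    (hin : ∀ P : Ideal (intRing K Ω g), P.IsMaximal → ∀ τ : Hg k K Ω,
      InInertia P (τ : Gal(Ω/K)) → τ ∈ U)
    (h : Hg k K Ω) (hh : σ * h * σ⁻¹ ∈ Hg k K Ω) :
    ∃ y ∈ commutator (Hg k K Ω), ∃ n ∈ U, (⟨σ * h * σ⁻¹, hh⟩ : Hg k K Ω) = h ^ c * y * n := by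
  have hcomp : CompactSpace (Hg k K Ω) := isCompact_iff_compactSpace.1
    (InfiniteGalois.fixingSubgroup_isClosed (geomField k K Ω)).isCompact
  have hfin : Finite (Hg k K Ω ⧸ U) := U.quotient_finite_of_isOpen hU
  have hsurj : Function.Surjective (Abelianization.of : Hg k K Ω →* Abelianization (Hg k K Ω)) :=
    QuotientGroup.mk_surjective
  have hidx : (U.map (Abelianization.of : Hg k K Ω →* Abelianization (Hg k K Ω))).index ≠ 0 := by
    intro h0
    have h1 := U.index_map_dvd hsurj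
    rw [h0, zero_dvd_iff, Subgroup.index_eq_card, Nat.card_eq_zero] at h1
    rcases h1 with h1 | h1
    · exact h1.elim (QuotientGroup.mk 1)
    · exact h1.not_finite hfin
  have hQ : Finite (Abelianization (Hg k K Ω) ⧸ U.map (Abelianization.of)) := by
    apply Nat.finite_of_card_ne_zero
    rw [← Subgroup.index_eq_card]
    exact hidx
  set π : Hg k K Ω →* Abelianization (Hg k K Ω) ⧸ U.map (Abelianization.of) :=
    (QuotientGroup.mk' (U.map (Abelianization.of))).comp Abelianization.of with hπ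
  have hπN : ∀ n ∈ U, π n = 1 := by
    intro n hn
    show QuotientGroup.mk' (U.map (Abelianization.of)) (Abelianization.of n) = 1
    rw [QuotientGroup.mk'_apply, QuotientGroup.eq_one_iff]
    exact ⟨n, hn, rfl⟩
  have hexp : NeZero ((Monoid.exponent
      (Abelianization (Hg k K Ω) ⧸ U.map (Abelianization.of)) : ℕ) : Ω) := by
    have h1 : Monoid.exponent (Abelianization (Hg k K Ω) ⧸ U.map (Abelianization.of)) ∣ l ^ N := by
      apply Monoid.exponent_dvd_of_forall_pow_eq_one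
      intro x
      obtain ⟨y, rfl⟩ := QuotientGroup.mk_surjective x
      obtain ⟨z, rfl⟩ := hsurj y
      have h2 : (π z) ^ l ^ N = 1 := by rw [← map_pow, hπN _ (hN z)]
      exact h2
    obtain ⟨j, -, hj⟩ := (Nat.dvd_prime_pow hl).1 h1
    rw [hj]
    exact ⟨lk_ne (by push_cast; exact pow_ne_zero _ hlk)⟩
  have hE : HasEnoughRootsOfUnity Ω (Monoid.exponent
      (Abelianization (Hg k K Ω) ⧸ U.map (Abelianization.of))) :=
    IsSepClosed.hasEnoughRootsOfUnity Ω _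
  have hx : π ((h ^ c)⁻¹ * ⟨σ * h * σ⁻¹, hh⟩) = 1 := by
    by_contra hne
    obtain ⟨φ, hφ⟩ := CommGroup.exists_apply_ne_one_of_hasEnoughRootsOfUnity
      (Abelianization (Hg k K Ω) ⧸ U.map (Abelianization.of)) Ω hne
    apply hφ
    have h1 := kump hg hl hlk σ hsi c N hσ (φ.comp π) (fun h => by
      rw [MonoidHom.comp_apply, ← map_pow, ← map_pow, hπN _ (hN h), map_one]) (by
      refine Subgroup.isOpen_mono (H₁ := U) ?_ hU
      intro n hn
      show φ (π n) = 1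
      rw [hπN n hn, map_one]) (fun P hP τ hτ => by
      show φ (π τ) = 1
      rw [hπN τ (hin P hP τ hτ), map_one]) h hh
    have h2 : φ (π ⟨σ * h * σ⁻¹, hh⟩) = φ (π h) ^ c := h1
    rw [map_mul, map_mul, map_inv, map_inv, map_pow, map_pow, h2, inv_mul_cancel]
  have h2 : Abelianization.of ((h ^ c)⁻¹ * ⟨σ * h * σ⁻¹, hh⟩) ∈
      U.map (Abelianization.of : Hg k K Ω →* Abelianization (Hg k K Ω)) := by
    have h3 : QuotientGroup.mk' (U.map (Abelianization.of))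
        (Abelianization.of ((h ^ c)⁻¹ * ⟨σ * h * σ⁻¹, hh⟩)) = 1 := hx
    rw [QuotientGroup.mk'_apply, QuotientGroup.eq_one_iff] at h3
    exact h3
  obtain ⟨n, hn, hn'⟩ := h2
  refine ⟨((h ^ c)⁻¹ * ⟨σ * h * σ⁻¹, hh⟩) * n⁻¹, ?_, n, hn, ?_⟩
  · rw [← Abelianization.ker_of, MonoidHom.mem_ker, map_mul, map_inv, hn', mul_inv_cancel]
  · generalize (⟨σ * h * σ⁻¹, hh⟩ : Hg k K Ω) = x
    group

end

end Run7.h784
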