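import Pool.Agent.Run7.h784.Rep
import Pool.Agent.Run7.h784.Char
import Pool.Agent.W349.UG.Prod
import Pool.Agent.W45.UG.Nil

/-!
# The theorems on geometric monodromy
-/

set_option autoImplicit false
set_option linter.unusedSectionVars false
set_option linter.unusedVariables false

namespace Run7.h784

open Matrix IsLocalRing MvPolynomial

section normal

variable {ι k K Ω : Type} [Field k] [Field K] [Field Ω]
  [Algebra (MvPolynomial ι k) K] [Algebra k K] [Algebra K Ω] [Algebra k Ω]
  [IsScalarTower k K Ω]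

lemma mem_Hg {g : Gal(Ω/K)} : g ∈ Hg k K Ω ↔ ∀ x : Ω, IsAlgebraic k x → g x = x := by
  refine (IntermediateField.mem_fixingSubgroup_iff _ _).trans ?_
  constructor
  · intro h x hx
    exact h x (IntermediateField.subset_adjoin _ _ hx)
  · intro h x hx
    have h1 : geomField k K Ω ≤ IntermediateField.fixedField (Subgroup.zpowers g) := by
      rw [IntermediateField.adjoin_le_iff]
      intro z hz
      show z ∈ IntermediateField.fixedField (Subgroup.zpowers g)
      rw [IntermediateField.mem_fixedField_iff]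
      intro f hf
      have h2 : Subgroup.zpowers g ≤ MulAction.stabilizer (Gal(Ω/K)) z := by
        rw [Subgroup.zpowers_le, MulAction.mem_stabilizer_iff]
        exact h z hz
      exact h2 hf
    exact (IntermediateField.mem_fixedField_iff _ _).1 (h1 hx) g (Subgroup.mem_zpowers g)

instance normal_Hg : (Hg k K Ω).Normal := by
  refine ⟨fun h hh g => ?_⟩
  rw [mem_Hg] at hh ⊢
  intro z hz
  show g (h (g⁻¹ z)) = z
  rw [hh _ (alg_gal g⁻¹ hz)]
  show (g * g⁻¹) z = z
  rw [mul_inv_cancel]
  rfl

end normal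

/-- a normal subgroup acting unipotently acts trivially in a semisimple representation -/
theorem trivial_of_semisimple' {A Λ : Type} [CommRing A] [Field Λ] [Algebra A Λ]
    (hinj : Function.Injective (algebraMap A Λ)) {n N : ℕ} {G : Type} [Group G] (H : Subgroup G)
    [hH : H.Normal] (ρ : G →* GL (Fin n) A) (hnil : (aug H ρ) ^ N = ⊥)
    (hss : ∀ W : Submodule Λ (Fin n → Λ),
      (∀ g, ∀ w ∈ W, ((ρ g : Matrix (Fin n) (Fin n) A).map (algebraMap A Λ)) *ᵥ w ∈ W) →
      ∃ W' : Submodule Λ (Fin n → Λ), IsCompl W W' ∧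
        ∀ g, ∀ w ∈ W', ((ρ g : Matrix (Fin n) (Fin n) A).map (algebraMap A Λ)) *ᵥ w ∈ W')
    (g : H) : ρ g = 1 := by
  classical
  -- the representation over the fraction field
  let r : G →* Matrix (Fin n) (Fin n) Λ :=
    (((algebraMap A Λ).mapMatrix : Matrix (Fin n) (Fin n) A →+* Matrix (Fin n) (Fin n) Λ) :
      Matrix (Fin n) (Fin n) A →* Matrix (Fin n) (Fin n) Λ).comp
      ((Units.coeHom (Matrix (Fin n) (Fin n) A)).comp ρ)
  have hr : ∀ g, r g = (ρ g : Matrix (Fin n) (Fin n) A).map (algebraMap A Λ) := fun g => rfl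
  have hnil' : ∀ l : List H, l.length = N →
      (l.map fun g : H => r (g : G) - 1).prod = 0 := by
    intro l hl
    have h1 : (l.map fun g : H => (ρ g : Matrix (Fin n) (Fin n) A) - 1).prod ∈
        (aug H ρ) ^ N := by
      rw [← hl]
      clear hl
      induction l with
      | nil =>
        rw [List.map_nil, List.prod_nil, List.length_nil, pow_zero]
        exact Submodule.one_le.1 le_rfl
      | cons a l ih =>
        rw [List.map_cons, List.prod_cons, List.length_cons, pow_succ']
        exact Submodule.mul_mem_mul (Submodule.subset_span ⟨a, rfl⟩) ih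
    rw [hnil, Submodule.mem_bot] at h1
    have h2 := congrArg (algebraMap A Λ).mapMatrix h1
    rw [map_zero, map_list_prod, List.map_map] at h2
    rw [← h2]
    congr 1
    refine List.map_congr_left fun g _ => ?_
    show r g - 1 = (algebraMap A Λ).mapMatrix ((ρ g : Matrix (Fin n) (Fin n) A) - 1)
    rw [map_sub, map_one]
    rfl
  let W : Submodule Λ (Fin n → Λ) :=
    { carrier := {w | ∀ h : H, r (h : G) *ᵥ w = w}
      add_mem' := fun {a b} ha hb h => by rw [Matrix.mulVec_add, ha h, hb h]
      zero_mem' := fun h => by rw [Matrix.mulVec_zero]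
      smul_mem' := fun c w hw h => by rw [Matrix.mulVec_smul, hw h] }
  have hW : ∀ w, w ∈ W ↔ ∀ h : H, r (h : G) *ᵥ w = w := fun w => Iff.rfl
  obtain ⟨W', hcompl, hW'⟩ := hss W (fun g w hw => by
    rw [hW] at hw ⊢
    intro h
    rw [← hr]
    have h1 : (h : G) * g = g * (g⁻¹ * h * g) := by group
    rw [Matrix.mulVec_mulVec, ← map_mul, h1, map_mul, ← Matrix.mulVec_mulVec]
    have h2 : g⁻¹ * h * g ∈ H := by
      have h3 := hH.conj_mem h h.2 g⁻¹
      rwa [inv_inv] at h3
    rw [hw ⟨_, h2⟩])
  -- the complement is zero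
  have hW'0 : W' = ⊥ := by
    by_contra hne
    obtain ⟨w, hw, hw0⟩ := (Submodule.ne_bot_iff _).1 hne
    -- the largest length with a nonzero value
    have hex : ∃ m : ℕ, ∀ l : List H, l.length = m →
        (l.map fun g : H => r (g : G) - 1).prod *ᵥ w = 0 :=
      ⟨N, fun l hl => by rw [hnil' l hl, Matrix.zero_mulVec]⟩
    set m := Nat.find hex with hm
    have hm0 : m ≠ 0 := by
      intro h0
      have h1 := Nat.find_spec hex
      rw [← hm, h0] at h1
      have h2 := h1 [] rfl
      rw [List.map_nil, List.prod_nil, Matrix.one_mulVec] at h2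
      exact hw0 h2
    obtain ⟨m', hm'⟩ := Nat.exists_eq_succ_of_ne_zero hm0
    have h1 := Nat.find_min hex (m := m') (by rw [← hm]; omega)
    push Not at h1
    obtain ⟨l, hl, hlw⟩ := h1
    set v := (l.map fun g : H => r (g : G) - 1).prod *ᵥ w with hv
    have hvW : v ∈ W := by
      rw [hW]
      intro h
      have h2 := Nat.find_spec hex (h :: l) (by rw [List.length_cons, hl, ← hm, hm'])
      rw [List.map_cons, List.prod_cons, ← Matrix.mulVec_mulVec, Matrix.sub_mulVec,
        Matrix.one_mulVec, sub_eq_zero] at h2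
      exact h2
    have hvW' : v ∈ W' := by
      have h2 : ∀ l : List H, (l.map fun g : H => r (g : G) - 1).prod *ᵥ w ∈ W' := by
        intro l
        induction l with
        | nil => rw [List.map_nil, List.prod_nil, Matrix.one_mulVec]; exact hw
        | cons a l ih =>
          rw [List.map_cons, List.prod_cons, ← Matrix.mulVec_mulVec, Matrix.sub_mulVec,
            Matrix.one_mulVec]
          exact Submodule.sub_mem _ (hW' _ _ ih) ih
      exact h2 l
    have h3 := hcompl.disjoint
    rw [Submodule.disjoint_def] at h3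
    exact hlw (h3 v hvW hvW')
  have hWtop : W = ⊤ := by
    have h1 := hcompl.sup_eq_top
    rw [hW'0, sup_bot_eq] at h1
    exact h1
  have h1 : r (g : G) = 1 := by
    apply Matrix.ext_of_mulVec_single
    intro i
    have h2 : Pi.single i (1 : Λ) ∈ W := by
      rw [hWtop]
      trivial
    rw [Matrix.one_mulVec]
    exact h2 g
  apply Units.ext
  apply Matrix.map_injective hinj
  show (ρ g : Matrix (Fin n) (Fin n) A).map (algebraMap A Λ) =
    ((1 : Matrix (Fin n) (Fin n) A)).map (algebraMap A Λ)
  rw [← hr, h1, Matrix.map_one _ (map_zero _) (map_one _)]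

theorem trivial_of_semisimple {A Λ : Type} [CommRing A] [IsDomain A] [Field Λ] [Algebra A Λ]
    [IsFractionRing A Λ] {n N : ℕ} {G : Type} [Group G] (H : Subgroup G) [hH : H.Normal]
    (ρ : G →* GL (Fin n) A) (hnil : (aug H ρ) ^ N = ⊥)
    (hss : ∀ W : Submodule Λ (Fin n → Λ),
      (∀ g, ∀ w ∈ W, ((ρ g : Matrix (Fin n) (Fin n) A).map (algebraMap A Λ)) *ᵥ w ∈ W) →
      ∃ W' : Submodule Λ (Fin n → Λ), IsCompl W W' ∧
        ∀ g, ∀ w ∈ W', ((ρ g : Matrix (Fin n) (Fin n) A).map (algebraMap A Λ)) *ᵥ w ∈ W')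
    (g : H) : ρ g = 1 :=
  trivial_of_semisimple' (IsFractionRing.injective A Λ) H ρ hnil hss g

/-- products of elements of the augmentation ideal, from products of the generators -/
lemma aug_pow_ent {G : Type} [Group G] {H : Subgroup G} {A : Type} [CommRing A] {n : ℕ}
    (ρ : G →* GL (Fin n) A) {k : ℕ} {J : Ideal A}
    (h : ∀ g : Fin k → H, ∀ i j,
      (List.ofFn fun s => (ρ (g s : G) : Matrix (Fin n) (Fin n) A) - 1).prod i j ∈ J) :
    ∀ x ∈ aug H ρ ^ k, ∀ i j, x i j ∈ J := by
  intro x hx
  unfold aug at hx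
  rw [Submodule.span_pow] at hx
  induction hx using Submodule.span_induction with
  | mem x hx =>
    rw [Set.mem_pow] at hx
    obtain ⟨f, rfl⟩ := hx
    choose g hg using fun s => (f s).2
    have h1 := h g
    have h2 : (List.ofFn fun s => (ρ (g s : G) : Matrix (Fin n) (Fin n) A) - 1) =
        List.ofFn fun s => ((f s : Set.range fun g : H =>
          (ρ g : Matrix (Fin n) (Fin n) A) - 1) : Matrix (Fin n) (Fin n) A) := by
      congr 1
      funext s
      exact hg s
    rw [h2] at h1
    exact h1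
  | zero => intro i j; exact J.zero_mem
  | add x y _ _ hx hy => intro i j; exact J.add_mem (hx i j) (hy i j)
  | smul a x _ hx => intro i j; exact J.mul_mem_left _ (hx i j)

lemma prod_of_aug {G : Type} [Group G] {H : Subgroup G} {A : Type} [CommRing A] {n : ℕ}
    (ρ : G →* GL (Fin n) A) {k : ℕ} (h : aug H ρ ^ k = ⊥) (g : Fin k → G) (hg : ∀ s, g s ∈ H) :
    (List.ofFn fun s => (ρ (g s) : Matrix (Fin n) (Fin n) A) - 1).prod = 0 := by
  have h1 : (List.ofFn fun s => (ρ (g s) : Matrix (Fin n) (Fin n) A) - 1).prod ∈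
      aug H ρ ^ k := by
    unfold aug
    rw [Submodule.span_pow]
    refine Submodule.subset_span ?_
    rw [Set.mem_pow]
    exact ⟨fun s => ⟨_, ⟨⟨g s, hg s⟩, rfl⟩⟩, rfl⟩
  rw [h, Submodule.mem_bot] at h1
  exact h1

end Run7.h784
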