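import Pool.Agent.Run7.h784.Main

/-!
# Finite base fields: irreducible geometrically constant sheaves have finite monodromy
-/

set_option autoImplicit false
set_option linter.unusedSectionVars false
set_option linter.unusedVariables false

namespace Run7.h784

open Matrix

/-- automorphisms commute on the elements algebraic over a finite field -/
lemma comm_alg {k Ω : Type} [Field k] [Finite k] [Field Ω] [Algebra k Ω] (a b : Ω ≃ₐ[k] Ω) {x : Ω}
    (hx : IsAlgebraic k x) : a (b x) = b (a x) := by
  have hfd : FiniteDimensional k (IntermediateField.adjoin k {x}) :=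
    IntermediateField.adjoin.finiteDimensional hx.isIntegral
  have hfin : Finite (IntermediateField.adjoin k {x}) := Module.finite_of_finite k
  set L := IntermediateField.adjoin k {x} with hL
  let x' : L := ⟨x, IntermediateField.mem_adjoin_simple_self k x⟩
  have h1 : ∀ (a : Ω ≃ₐ[k] Ω) (y : L), (((a.restrictNormal L) y : L) : Ω) = a y := fun a y =>
    a.restrictNormal_commutes L y
  have h2 : a.restrictNormal L * b.restrictNormal L = b.restrictNormal L * a.restrictNormal L :=
    mul_comm' _ _
  have h3 := congrArg (fun φ : L ≃ₐ[k] L => ((φ x' : L) : Ω)) h2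
  have h4 : a (b x) = (((a.restrictNormal L) ((b.restrictNormal L) x') : L) : Ω) := by
    rw [h1, h1]
  have h5 : b (a x) = (((b.restrictNormal L) ((a.restrictNormal L) x') : L) : Ω) := by
    rw [h1, h1]
  rw [h4, h5]
  exact h3

/-- an irreducible representation trivial on `H` with abelian quotient and determinant of finite
order has finite image -/
theorem finite_of_irred {A Λ : Type} [CommRing A] [IsDomain A] [Field Λ] [IsAlgClosed Λ]
    [Algebra A Λ] (hinj : Function.Injective (algebraMap A Λ)) {r : ℕ} {G : Type} [Group G]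
    (ρ : G →* GL (Fin r) A) (hcomm : ∀ a b, ρ a * ρ b = ρ b * ρ a)
    (hirr : ∀ W : Submodule Λ (Fin r → Λ),
      (∀ g, ∀ w ∈ W, ((ρ g : Matrix (Fin r) (Fin r) A).map (algebraMap A Λ)) *ᵥ w ∈ W) →
      W = ⊥ ∨ W = ⊤) {m : ℕ} (hm : m ≠ 0)
    (hdet : ∀ g, (ρ g : Matrix (Fin r) (Fin r) A).det ^ m = 1) :
    (Set.range ρ).Finite := by
  classical
  -- every element acts as a scalar
  let R : G → Matrix (Fin r) (Fin r) Λ := fun g =>
    (ρ g : Matrix (Fin r) (Fin r) A).map (algebraMap A Λ)
  have hRc : ∀ a b, R a * R b = R b * R a := by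
    intro a b
    have h1 := congrArg (fun x : GL (Fin r) A => (x : Matrix (Fin r) (Fin r) A).map
      (algebraMap A Λ)) (hcomm a b)
    simp only [Units.val_mul, Matrix.map_mul] at h1
    exact h1
  rcases Nat.eq_zero_or_pos r with hr | hr
  · subst hr
    have : Subsingleton (GL (Fin 0) A) := ⟨fun a b => Units.ext (Subsingleton.elim _ _)⟩
    exact Set.toFinite _
  have hne : Nonempty (Fin r) := ⟨⟨0, hr⟩⟩
  have hnt : Nontrivial (Fin r → Λ) := inferInstance
  have hscal : ∀ g, ∃ c : Λ, ∀ v : Fin r → Λ, R g *ᵥ v = c • v := by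
    intro g
    obtain ⟨c, hc⟩ := Module.End.exists_eigenvalue (R g).mulVecLin
    refine ⟨c, ?_⟩
    let W : Submodule Λ (Fin r → Λ) := Module.End.eigenspace (R g).mulVecLin c
    have hW : ∀ w, w ∈ W ↔ R g *ᵥ w = c • w := fun w => Module.End.mem_eigenspace_iff
    rcases hirr W (fun h w hw => by
      rw [hW] at hw ⊢
      show R g *ᵥ (R h *ᵥ w) = c • (R h *ᵥ w)
      rw [Matrix.mulVec_mulVec, hRc, ← Matrix.mulVec_mulVec, hw, Matrix.mulVec_smul]) with h | h
    · exact absurd h hc
    · intro v
      rw [← hW, h]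
      trivial
  -- the rank is one
  have hr1 : r = 1 := by
    by_contra hr1
    let i : Fin r := ⟨0, hr⟩
    let j : Fin r := ⟨1, by omega⟩
    let W : Submodule Λ (Fin r → Λ) := Submodule.span Λ {Pi.single i 1}
    rcases hirr W (fun h w hw => by
      obtain ⟨c, hc⟩ := hscal h
      show R h *ᵥ w ∈ W
      rw [hc]
      exact W.smul_mem _ hw) with h | h
    · have h1 : (Pi.single i (1 : Λ) : Fin r → Λ) ∈ W := Submodule.mem_span_singleton_self _
      rw [h, Submodule.mem_bot] at h1
      have h2 := congrFun h1 i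
      rw [Pi.single_eq_same] at h2
      exact one_ne_zero h2
    · have h1 : (Pi.single j (1 : Λ) : Fin r → Λ) ∈ W := by rw [h]; trivial
      obtain ⟨c, hc⟩ := Submodule.mem_span_singleton.1 h1
      have h2 := congrFun hc j
      rw [Pi.single_eq_same, Pi.smul_apply, Pi.single_eq_of_ne (by
        intro h3
        have := congrArg Fin.val h3
        simp [i, j] at this), smul_zero] at h2
      exact one_ne_zero h2.symm
  subst hr1
  have hfin : ((fun g => (ρ g : Matrix (Fin 1) (Fin 1) A) 0 0) '' (Set.univ : Set G)).Finite := by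
    refine Set.Finite.subset (Polynomial.nthRoots m (1 : A)).toFinset.finite_toSet ?_
    rintro _ ⟨g, -, rfl⟩
    have h1 := hdet g
    rw [Matrix.det_fin_one] at h1
    simp only [Finset.mem_coe, Multiset.mem_toFinset]
    exact (Polynomial.mem_nthRoots (by omega)).2 h1
  have hinj' : Function.Injective (fun x : GL (Fin 1) A => (x : Matrix (Fin 1) (Fin 1) A) 0 0) := by
    intro x y hxy
    apply Units.ext
    ext i j
    rw [Subsingleton.elim i 0, Subsingleton.elim j 0]
    exact hxy
  refine Set.Finite.of_finite_image (f := fun x : GL (Fin 1) A =>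
    (x : Matrix (Fin 1) (Fin 1) A) 0 0) ?_ hinj'.injOn
  refine hfin.subset ?_
  rintro _ ⟨_, ⟨g, rfl⟩, rfl⟩
  exact ⟨g, trivial, rfl⟩

section

variable {k K Ω : Type} [Field k] [Finite k] [Field K] [Field Ω] [Algebra k K] [Algebra K Ω]
  [Algebra k Ω] [IsScalarTower k K Ω]

lemma comm_of_geomConstant {A : Type} [CommRing A] {r : ℕ} (ρ : Gal(Ω/K) →* GL (Fin r) A)
    (h : ∀ x ∈ Hg k K Ω, ρ x = 1) (a b : Gal(Ω/K)) : ρ a * ρ b = ρ b * ρ a := by
  have h1 : a * b * (b * a)⁻¹ ∈ Hg k K Ω := by
    rw [mem_Hg]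
    intro x hx
    have h2 : IsAlgebraic k ((b * a)⁻¹ x) := alg_gal _ hx
    show a (b ((b * a)⁻¹ x)) = x
    have h3 : a (b ((b * a)⁻¹ x)) = b (a ((b * a)⁻¹ x)) :=
      comm_alg (a.restrictScalars k) (b.restrictScalars k) h2
    rw [h3]
    show ((b * a) * (b * a)⁻¹) x = x
    rw [mul_inv_cancel]
    rfl
  have h2 := h _ h1
  rw [map_mul, map_inv, mul_inv_eq_one, map_mul, map_mul] at h2
  exact h2

end

end Run7.h784
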