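import Pool.Agent.Run7.h784.Basic

/-!
# The elements of `k^s(t)` that are integral over `k[t][1/g]`
-/

set_option autoImplicit false
set_option linter.unusedSectionVars false
set_option linter.unusedVariables false

namespace Run7.h784

open MvPolynomial

section

variable {ι k K Ω : Type} [Field k] [Field K] [Field Ω]
  [Algebra (MvPolynomial ι k) K] [Algebra k K] [Algebra K Ω] [Algebra k Ω]
  [IsScalarTower k (MvPolynomial ι k) K] [IsScalarTower k K Ω]
  [IsFractionRing (MvPolynomial ι k) K] {g : MvPolynomial ι k}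

lemma alg_ne (hg : g ≠ 0) : algebraMap (MvPolynomial ι k) K g ≠ 0 := by
  intro h
  exact hg (IsFractionRing.injective (MvPolynomial ι k) K (by rw [h, map_zero]))

/-- the elements of the coordinate ring have denominators powers of `g` -/
lemma coord_den (hg : g ≠ 0) {c : K} (hc : c ∈ coordRing K g) :
    ∃ (M : ℕ) (q : MvPolynomial ι k), ∀ N, M ≤ N →
      c * algebraMap (MvPolynomial ι k) K g ^ N = algebraMap (MvPolynomial ι k) K
        (q * g ^ (N - M)) := by
  have hg0 := alg_ne (K := K) hg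
  have key : ∃ (M : ℕ) (q : MvPolynomial ι k),
      c * algebraMap (MvPolynomial ι k) K g ^ M = algebraMap (MvPolynomial ι k) K q := by
    unfold coordRing at hc
    induction hc using Algebra.adjoin_induction with
    | mem x hx =>
      rcases hx with ⟨q, rfl⟩ | hx
      · exact ⟨0, q, by rw [pow_zero, mul_one]⟩
      · rw [Set.mem_singleton_iff] at hx
        refine ⟨1, 1, ?_⟩
        rw [hx, pow_one, inv_mul_cancel₀ hg0, map_one]
    | algebraMap r =>
      refine ⟨0, C r, ?_⟩
      rw [pow_zero, mul_one, IsScalarTower.algebraMap_apply k (MvPolynomial ι k) K]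
      rfl
    | add x z _ _ hx hz =>
      obtain ⟨M, q, h⟩ := hx
      obtain ⟨M', q', h'⟩ := hz
      refine ⟨M + M', q * g ^ M' + q' * g ^ M, ?_⟩
      rw [map_add, map_mul, map_mul, map_pow, map_pow, ← h, ← h', pow_add]
      ring
    | mul x z _ _ hx hz =>
      obtain ⟨M, q, h⟩ := hx
      obtain ⟨M', q', h'⟩ := hz
      refine ⟨M + M', q * q', ?_⟩
      rw [map_mul, ← h, ← h', pow_add]
      ring
  obtain ⟨M, q, h⟩ := key
  refine ⟨M, q, fun N hN => ?_⟩
  rw [map_mul, map_pow, ← h, mul_assoc, ← pow_add, Nat.add_sub_cancel' hN]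

variable (ι k K Ω) in
/-- the polynomials as elements of `Ω` -/
noncomputable def inc0 : MvPolynomial ι k →+* Ω :=
  (algebraMap K Ω).comp (algebraMap (MvPolynomial ι k) K)

lemma inc0_eq (p : MvPolynomial ι k) : inc0 ι k K Ω p = ev ι k K Ω (up ι k Ω p) := by
  rw [ev_up]
  rfl

lemma inc0_inj : Function.Injective (inc0 ι k K Ω) := by
  intro a b h
  exact IsFractionRing.injective (MvPolynomial ι k) K ((algebraMap K Ω).injective h)

lemma inc0_ne (hg : g ≠ 0) : inc0 ι k K Ω g ≠ 0 := by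
  intro h
  exact hg (inc0_inj (by rw [h, map_zero]))

/-- clearing denominators -/
lemma int_den (hg : g ≠ 0) {z : Ω} (hz : z ∈ intRing K Ω g) :
    ∃ M : ℕ, (inc0 ι k K Ω).IsIntegralElem (inc0 ι k K Ω g ^ M * z) := by
  classical
  obtain ⟨p, hp, h1⟩ : ∃ p : Polynomial (coordRing K g), p.Monic ∧
      Polynomial.eval₂ (algebraMap (coordRing K g) Ω) z p = 0 := hz
  have hden : ∀ i : ℕ, ∃ (M : ℕ) (q : MvPolynomial ι k), ∀ N, M ≤ N →
      ((p.coeff i : coordRing K g) : K) * algebraMap (MvPolynomial ι k) K g ^ N =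
        algebraMap (MvPolynomial ι k) K (q * g ^ (N - M)) := fun i => coord_den hg (p.coeff i).2
  choose m q hq using hden
  set M : ℕ := (Finset.range (p.natDegree + 1)).sup m with hM
  have hle : ∀ i, i ≤ p.natDegree → m i ≤ M := fun i hi =>
    Finset.le_sup (f := m) (Finset.mem_range.2 (Nat.lt_succ_of_le hi))
  have hgK := alg_ne (K := K) hg
  have hgc : algebraMap (MvPolynomial ι k) K g ∈ coordRing K g :=
    Algebra.subset_adjoin (Or.inl ⟨g, rfl⟩)
  set γ : coordRing K g := ⟨algebraMap (MvPolynomial ι k) K g, hgc⟩ with hγ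
  -- the scaled polynomial
  set P := p.scaleRoots (γ ^ M) with hP
  have hPm : P.Monic := (Polynomial.monic_scaleRoots_iff _).2 hp
  have h2 : Polynomial.eval₂ (algebraMap (coordRing K g) Ω)
      (algebraMap (coordRing K g) Ω (γ ^ M) * z) P = 0 :=
    Polynomial.scaleRoots_eval₂_eq_zero _ h1
  -- it comes from `k[t]`
  have hPc : ∀ i, ((P.coeff i : coordRing K g) : K) ∈
      Set.range (algebraMap (MvPolynomial ι k) K) := by
    intro i
    rw [hP, Polynomial.coeff_scaleRoots]
    rcases lt_trichotomy i p.natDegree with hi | hi | hi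
    · have h3 := hq i M (hle i hi.le)
      obtain ⟨j, hj⟩ : ∃ j, p.natDegree - i = j + 1 := ⟨p.natDegree - i - 1, by omega⟩
      refine ⟨q i * g ^ (M - m i) * (g ^ M) ^ j, ?_⟩
      rw [hj, map_mul, ← h3, map_pow, map_pow]
      have e : ((p.coeff i * (γ ^ M) ^ (j + 1) : coordRing K g) : K) =
          (p.coeff i : K) * (algebraMap (MvPolynomial ι k) K g ^ M) ^ (j + 1) := rfl
      rw [e, pow_succ' _ j]
      ring
    · rw [hi, Nat.sub_self, pow_zero, mul_one]
      refine ⟨1, ?_⟩
      have : p.coeff p.natDegree = 1 := hp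
      rw [this, map_one]
      rfl
    · rw [Polynomial.coeff_eq_zero_of_natDegree_lt hi, zero_mul]
      exact ⟨0, by rw [map_zero]; rfl⟩
  -- lift
  let θ : coordRing K g →+* K := (coordRing K g).val.toRingHom
  have h3 : P.map θ ∈ Polynomial.lifts (algebraMap (MvPolynomial ι k) K) := by
    rw [Polynomial.lifts_iff_coeff_lifts]
    intro i
    rw [Polynomial.coeff_map]
    exact hPc i
  obtain ⟨Q, hQ1, -, hQ2⟩ := Polynomial.lifts_and_natDegree_eq_and_monic h3 (hPm.map _)
  refine ⟨M, Q, hQ2, ?_⟩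
  have e1 : (inc0 ι k K Ω : MvPolynomial ι k →+* Ω) =
      (algebraMap K Ω).comp (algebraMap (MvPolynomial ι k) K) := rfl
  have e2 : algebraMap (coordRing K g) Ω = (algebraMap K Ω).comp θ := rfl
  rw [e1, ← Polynomial.eval₂_map, hQ1, Polynomial.eval₂_map, ← e2]
  have e3 : ((algebraMap K Ω).comp (algebraMap (MvPolynomial ι k) K)) g ^ M * z =
      algebraMap (coordRing K g) Ω (γ ^ M) * z := by
    rw [map_pow]
    rfl
  rw [e3]
  exact h2

/-- an integral element of `k^s(t)` becomes a polynomial after multiplication with a power of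
`g` -/
lemma int_geom (hg : g ≠ 0) {z : Ω} (hz : z ∈ intRing K Ω g) (hz' : z ∈ geomField k K Ω) :
    ∃ (M : ℕ) (c : MvPolynomial ι (ks k Ω)), inc0 ι k K Ω g ^ M * z = ev ι k K Ω c := by
  obtain ⟨M, hM⟩ := int_den hg hz
  refine ⟨M, ?_⟩
  set y := inc0 ι k K Ω g ^ M * z with hy
  have hyg : y ∈ geomField k K Ω := by
    refine (geomField k K Ω).mul_mem (pow_mem ?_ _) hz'
    rw [inc0_eq]
    exact ev_geom _
  obtain ⟨a, b, hb, hab⟩ := geo (ι := ι) hyg
  let Q := FractionRing (MvPolynomial ι (ks k Ω))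
  let ψ : Q →+* Ω := IsFractionRing.lift (A := MvPolynomial ι (ks k Ω))
    (g := (ev ι k K Ω : MvPolynomial ι (ks k Ω) →+* Ω)) ev_inj
  have hψ : ∀ c, ψ (algebraMap (MvPolynomial ι (ks k Ω)) Q c) = ev ι k K Ω c := fun c =>
    IsFractionRing.lift_algebraMap (A := MvPolynomial ι (ks k Ω))
      (g := (ev ι k K Ω : MvPolynomial ι (ks k Ω) →+* Ω)) ev_inj c
  have hψ' : ψ.comp (algebraMap (MvPolynomial ι (ks k Ω)) Q) =
      (ev ι k K Ω : MvPolynomial ι (ks k Ω) →+* Ω) := RingHom.ext hψ
  set q : Q := algebraMap _ Q a / algebraMap _ Q b with hq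
  have hqy : ψ q = y := by
    rw [hq, map_div₀, hψ, hψ, ← hab, mul_div_cancel_right₀ _ (ev_ne hb)]
  obtain ⟨p, hp, h1⟩ := hM
  have hint : IsIntegral (MvPolynomial ι (ks k Ω)) q := by
    refine ⟨p.map (up ι k Ω), hp.map _, ?_⟩
    apply ψ.injective
    rw [Polynomial.eval₂_map, Polynomial.hom_eval₂, map_zero, ← RingHom.comp_assoc, hψ', hqy]
    have e1 : (ev ι k K Ω : MvPolynomial ι (ks k Ω) →+* Ω).comp (up ι k Ω) = inc0 ι k K Ω :=
      RingHom.ext fun r => (inc0_eq r).symm
    rw [e1]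
    exact h1
  rw [IsIntegrallyClosed.isIntegral_iff] at hint
  obtain ⟨c, hc⟩ := hint
  refine ⟨c, ?_⟩
  rw [← hqy, ← hc, hψ]

end

end Run7.h784
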