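import Pool.Agent.Run7.h784.Fin
import Pool.Agent.W569.UG.Pig

/-!
# The theorems on geometric monodromy, in general form
-/

set_option autoImplicit false
set_option linter.unusedSectionVars false
set_option linter.unusedVariables false

namespace Run7.h784

open Matrix IsLocalRing MvPolynomial

section

variable {ι k K Ω : Type} [Field k] [Field K] [Field Ω]
  [Algebra (MvPolynomial ι k) K] [Algebra k K] [Algebra K Ω] [Algebra k Ω]
  [IsScalarTower k (MvPolynomial ι k) K] [IsScalarTower k K Ω]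
  [IsFractionRing (MvPolynomial ι k) K] [Finite ι] [IsSepClosed Ω] [IsGalois K Ω]
  {g : MvPolynomial ι k}

/-- `l` does not divide the exponent of the action on the roots of unity of order `l` -/
lemma not_dvd_exp {l c : ℕ} (hl : l.Prime) (hlk : (l : k) ≠ 0) (σ : Gal(Ω/K))
    (hσ : ∀ z : Ω, z ^ l = 1 → σ z = z ^ c) : ¬ l ∣ c := by
  rintro ⟨d, rfl⟩
  have : NeZero (l : Ω) := ⟨lk_ne (k := k) hlk⟩
  have : NeZero l := ⟨hl.ne_zero⟩
  obtain ⟨ζ, hζ⟩ := HasEnoughRootsOfUnity.exists_primitiveRoot Ω l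
  have h1 := hσ ζ hζ.pow_eq_one
  rw [pow_mul, hζ.pow_eq_one, one_pow] at h1
  have h2 : ζ = 1 := by
    apply σ.injective
    rw [h1, map_one]
  exact hζ.ne_one hl.one_lt h2

/-- the elements of the inertia groups -/
def UrS (K Ω : Type) [Field K] [Field Ω] [Algebra (MvPolynomial ι k) K] [Algebra k K]
    [Algebra K Ω] [Algebra k Ω] (g : MvPolynomial ι k) : Set Gal(Ω/K) :=
  {τ | ∃ P : Ideal (intRing K Ω g), P.IsMaximal ∧ InInertia P τ}

/-- **the congruence theorem** -/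
theorem main_congr (hg : g ≠ 0) {l : ℕ} (hl : l.Prime) (hlk : (l : k) ≠ 0)
    {A : Type} [CommRing A] [IsDomain A] [IsDiscreteValuationRing A] [TopologicalSpace A]
    (hA : IsAdic (maximalIdeal A)) {e : ℕ} (he : 1 ≤ e)
    (hle : Ideal.span {(l : A)} = maximalIdeal A ^ e)
    {r : ℕ} (ρ : Gal(Ω/K) →* GL (Fin r) A) (hρ : Continuous ρ)
    (hlisse : ∀ τ ∈ UrS K Ω g, ρ τ = 1)
    (σ : Gal(Ω/K)) {c : ℕ} (hc1 : 1 < c) (hσ : ∀ (M : ℕ) (z : Ω), z ^ l ^ M = 1 → σ z = z ^ c)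
    (hsi : SemiInv K Ω g σ) {N ε : ℕ}
    (hN : (l ≠ 2 ∧ N = orderOf (c : ZMod l)) ∨ (l = 2 ∧ 4 ∣ c - 1 ∧ N = 1))
    (hε : ε = padicValNat l (c ^ N - 1)) {κ a : ℕ} (hκ : 1 ≤ κ)
    (hprod : ∀ h : Fin κ → Hg k K Ω, ∀ i j,
      (List.ofFn fun s => (ρ (h s : Gal(Ω/K)) : Matrix (Fin r) (Fin r) A) - 1).prod i j ∈
        maximalIdeal A ^ a)
    (hnum : e * κ * ((l - 1) * ε + 1) < a * ((l - 1) * N)) :
    ∃ M, aug (Hg k K Ω) ρ ^ M = ⊥ := by
  have hfl : Fact l.Prime := ⟨hl⟩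
  have hcl : ¬ l ∣ c := not_dvd_exp hl hlk σ fun z hz => hσ 1 z (by rwa [pow_one])
  have ha0 : a ≠ 0 := by
    rintro rfl
    simp at hnum
  have hlA : (l : A) ∈ maximalIdeal A := by
    have h1 : (l : A) ∈ maximalIdeal A ^ e := by
      rw [← hle]
      exact Ideal.mem_span_singleton_self _
    exact Ideal.pow_le_self (by omega) h1
  obtain ⟨ϖ, hϖ⟩ := IsDiscreteValuationRing.exists_irreducible A
  have hlϖ : ∃ u : Aˣ, (l : A) = u * ϖ ^ e := by
    rw [hϖ.maximalIdeal_eq, Ideal.span_singleton_pow, Ideal.span_singleton_eq_span_singleton]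
      at hle
    obtain ⟨u, hu⟩ := hle.symm
    exact ⟨u, by rw [← hu, mul_comm]⟩
  have hk : ∀ x ∈ aug (Hg k K Ω) ρ ^ κ, ∀ p q, ϖ ^ a ∣ x p q := by
    intro x hx p q
    have h1 := aug_pow_ent ρ hprod x hx p q
    rwa [hϖ.maximalIdeal_eq, Ideal.span_singleton_pow, Ideal.mem_span_singleton] at h1
  have hk' : ∀ h : Hg k K Ω, ∀ p q,
      (((ρ (h : Gal(Ω/K)) : Matrix (Fin r) (Fin r) A) - 1) ^ κ) p q ∈ maximalIdeal A := by
    intro h p q
    have h0 : (ρ (h : Gal(Ω/K)) : Matrix (Fin r) (Fin r) A) - 1 ∈ aug (Hg k K Ω) ρ :=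
      Submodule.subset_span ⟨h, rfl⟩
    have h1 : ((ρ (h : Gal(Ω/K)) : Matrix (Fin r) (Fin r) A) - 1) ^ κ ∈
        aug (Hg k K Ω) ρ ^ κ := Submodule.pow_mem_pow _ h0 κ
    exact Ideal.pow_le_self ha0 (aug_pow_ent ρ hprod _ h1 p q)
  have hrel := rel (A := A) (H := Hg k K Ω) (c := c) hl hA hlA ρ hρ (UrS K Ω g)
    (fun τ hτ => hlisse τ hτ) hk' σ (fun M U hU hM hUr h => by
      have h2 : σ * h * σ⁻¹ ∈ Hg k K Ω := normal_Hg.conj_mem _ h.2 σ
      obtain ⟨y, hy, x, hx, h1⟩ := ab hg hl hlk σ hsi c M (hσ M) U hU hM (fun P hP τ hτ =>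
        hUr τ ⟨P, hP, hτ⟩) h h2
      refine ⟨y, hy, x, hx, ?_⟩
      rw [← h1]
      exact Subtype.ext (MulAut.conjNormal_apply σ h))
  rcases hN with ⟨h2, hN⟩ | ⟨h2, h4, hN⟩
  · have hodd : Odd l := hl.odd_of_ne_two h2
    have hcz : (c : ZMod l) ≠ 0 := fun h1 => hcl ((ZMod.natCast_eq_zero_iff c l).1 h1)
    have hl2 := hl.two_le
    have hN1 : 1 ≤ N := by
      rw [hN]
      exact orderOf_pos_iff.2 (isOfFinOrder_iff_pow_eq_one.2
        ⟨l - 1, by omega, ZMod.pow_card_sub_one_eq_one hcz⟩)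
    refine nil_main hl hc1 hcl hϖ hlϖ he (aug_mul ρ) (ρ σ) hrel hκ hk hN1 (ε := ε) ?_ hnum
    intro b hb
    rw [vv_odd hodd hc1 hcl hb, ← hN, hε]
    rfl
  · subst h2
    subst hN
    refine nil_main hl hc1 hcl hϖ hlϖ he (aug_mul ρ) (ρ σ) hrel hκ hk le_rfl (ε := ε) ?_ hnum
    intro b hb
    rw [vv_two hc1 h4 hb, hε]
    rfl

/-- **the theorem on small ranks** -/
theorem main_small (hg : g ≠ 0) {l : ℕ} (hl : l.Prime) (hlk : (l : k) ≠ 0)
    {A : Type} [CommRing A] [IsLocalRing A] [IsNoetherianRing A] [TopologicalSpace A]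
    (hA : IsAdic (maximalIdeal A)) (hfin : Finite (ResidueField A))
    (hlA : (l : A) ∈ maximalIdeal A)
    {n : ℕ} (ρ : Gal(Ω/K) →* GL (Fin n) A) (hρ : Continuous ρ)
    (hlisse : ∀ τ ∈ UrS K Ω g, ρ τ = 1)
    (hres : ∀ h ∈ Hg k K Ω, ∃ M : ℕ, ∀ i j,
      (((ρ h : Matrix (Fin n) (Fin n) A) - 1) ^ M) i j ∈ maximalIdeal A)
    (σ : Gal(Ω/K)) {c : ℕ} (hσ : ∀ z : Ω, z ^ l = 1 → σ z = z ^ c)
    (hsi : SemiInv K Ω g σ)
    (h : n < orderOf (c : ZMod l) ∨ Pool.Agent.W569.UG.NoCoset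
      ((ρ σ : Matrix (Fin n) (Fin n) A).map (residue A))
      (c : ResidueField A) (orderOf (c : ZMod l))) :
    aug (Hg k K Ω) ρ ^ (orderOf (c : ZMod l)) = ⊥ := by
  have : Fact l.Prime := ⟨hl⟩
  have hcharA : CharP (ResidueField A) l := by
    have h1 : ((l : ℕ) : ResidueField A) = 0 := by
      have h2 : residue A (l : A) = 0 := (residue_eq_zero_iff _).2 hlA
      rw [map_natCast] at h2
      exact h2
    exact (CharP.charP_iff_prime_eq_zero hl).2 h1
  have hc0 : ¬ l ∣ c := not_dvd_exp hl hlk σ hσ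
  have hcz : (c : ZMod l) ≠ 0 := fun h1 => hc0 ((ZMod.natCast_eq_zero_iff c l).1 h1)
  have hl1 : 0 < l - 1 := by
    have := hl.two_le
    omega
  have hcl : (c : ZMod l) ^ (l - 1) = 1 := ZMod.pow_card_sub_one_eq_one hcz
  have hN1 : 1 ≤ orderOf (c : ZMod l) :=
    Nat.pos_of_dvd_of_pos (orderOf_dvd_of_pow_eq_one hcl) hl1
  have hcop : Nat.Coprime c l := (Nat.coprime_comm.1 ((hl.coprime_iff_not_dvd).2 hc0))
  have hcj : ∀ j, 0 < j → j < orderOf (c : ZMod l) → ¬ c ^ j ≡ 1 [MOD l] := by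
    intro j h0 hj h1
    have h2 : (c : ZMod l) ^ j = 1 := by
      have h3 := (ZMod.natCast_eq_natCast_iff _ _ _).2 h1
      rw [Nat.cast_pow, Nat.cast_one] at h3
      exact h3
    have h3 := Nat.le_of_dvd h0 (orderOf_dvd_of_pow_eq_one h2)
    omega
  have hNC : Pool.Agent.W569.UG.NoCoset ((ρ σ : Matrix (Fin n) (Fin n) A).map (residue A))
      (c : ResidueField A) (orderOf (c : ZMod l)) := by
    rcases h with h | h
    · refine Pool.Agent.W569.UG.noCoset_of_lt _ ?_ _ ?_ h fun j h0 hj h1 =>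
        hcj j h0 hj ?_
      · have h1 : IsUnit ((ρ σ : Matrix (Fin n) (Fin n) A).det) :=
          (Matrix.isUnit_iff_isUnit_det _).1 (ρ σ).isUnit
        have h2 : ((ρ σ : Matrix (Fin n) (Fin n) A).map (residue A)).det =
            residue A ((ρ σ : Matrix (Fin n) (Fin n) A).det) := by
          rw [RingHom.map_det]
          rfl
        rw [h2]
        exact (h1.map (residue A)).ne_zero
      · intro h1
        exact hc0 ((CharP.cast_eq_zero_iff (ResidueField A) l c).1 h1)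
      · rw [← Nat.cast_pow, ← Nat.cast_one (R := ResidueField A), CharP.natCast_eq_natCast
          (ResidueField A) l] at h1
        exact h1
    · exact h
  refine Pool.Agent.W569.UG.mainNil (Pool.Agent.W45.UGNIL.main Pool.Agent.W349.UG.Prod.main) hl hA
    hfin hlA hN1 hcop hcj ρ hρ (UrS K Ω g) (fun τ hτ => hlisse τ hτ) (fun g => hres g g.2) σ hNC ?_
  intro f hf hfu x
  -- a character with values in the roots of unity
  have hnz : NeZero (l : Ω) := ⟨lk_ne (k := k) hlk⟩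
  have hnz' : NeZero l := ⟨hl.ne_zero⟩
  obtain ⟨ζ, hζ⟩ := HasEnoughRootsOfUnity.exists_primitiveRoot Ω l
  have hζ' := IsPrimitiveRoot.isUnit_unit hl.ne_zero hζ
  set e := hζ'.zmodEquivZPowers with he
  let χ : Multiplicative (ZMod l) →* Ωˣ :=
    (Subgroup.subtype _).comp (AddMonoidHom.toMultiplicativeLeft e.toAddMonoidHom)
  have hχ : Function.Injective χ := by
    intro x y hxy
    have h1 := Subtype.ext hxy
    exact Multiplicative.toAdd.injective (e.injective h1)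
  have h2 : σ * x * σ⁻¹ ∈ Hg k K Ω := normal_Hg.conj_mem _ x.2 σ
  have h3 := kump hg hl hlk σ hsi c 1 (fun z hz => hσ z (by rwa [pow_one] at hz)) (χ.comp f)
    (fun h => by
      rw [MonoidHom.comp_apply, ← map_pow, pow_one]
      have h4 : f h ^ l = 1 := by
        apply Multiplicative.toAdd.injective
        rw [toAdd_pow, toAdd_one, nsmul_eq_mul, CharP.cast_eq_zero, zero_mul]
      rw [h4, map_one]) (by
      refine Subgroup.isOpen_mono (H₁ := f.ker) ?_ hf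
      intro h hh
      show χ (f h) = 1
      rw [show f h = 1 from hh, map_one]) (fun P hP τ hτ => by
      show χ (f τ) = 1
      rw [hfu τ ⟨P, hP, hτ⟩, map_one]) x h2
  apply hχ
  rw [map_pow]
  have h4 : (MulAut.conjNormal σ x : Hg k K Ω) = ⟨σ * x * σ⁻¹, h2⟩ :=
    Subtype.ext (MulAut.conjNormal_apply σ x)
  rw [h4]
  exact h3

end

end Run7.h784
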