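import Pool.Agent.Run7.h784.Res

/-!
# Ramification of `l`-th roots
-/

set_option autoImplicit false
set_option linter.unusedSectionVars false
set_option linter.unusedVariables false

namespace Run7.h784

open MvPolynomial
open scoped Pointwise IntermediateField

/-- transitivity on the primes above a prime of the ring of invariants -/
lemma exists_smul_eq {B G : Type} [CommRing B] [Group G] [MulSemiringAction G B]
    [TopologicalSpace G] [CompactSpace G] [TotallyDisconnectedSpace G] [IsTopologicalGroup G]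
    (hst : ∀ z : B, IsOpen (MulAction.stabilizer G z : Set G))
    (P Q : Ideal B) [P.IsPrime] [Q.IsPrime]
    (h : ∀ z : B, (∀ g : G, g • z = z) → (z ∈ P ↔ z ∈ Q)) : ∃ g : G, Q = g • P := by
  let A : Subring B := FixedPoints.subring B G
  have hc : SMulCommClass G A B := ⟨fun g a b => by
    show g • ((a : B) * b) = (a : B) * g • b
    rw [smul_mul', a.2 g]⟩
  have hi : Algebra.IsInvariant A B G := ⟨fun b hb => ⟨⟨b, hb⟩, rfl⟩⟩
  let _ : TopologicalSpace B := ⊥
  have hd : DiscreteTopology B := ⟨rfl⟩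
  have hcs : ContinuousSMul G B := by
    rw [continuousSMul_iff_stabilizer_isOpen]
    exact hst
  refine Algebra.IsInvariant.exists_smul_of_under_eq_of_profinite (A := A) (G := G) P Q ?_
  ext z
  exact h z z.2

section val

variable {R : Type} [CommRing R] [IsDomain R] {π : R}

lemma val_unique (hπ : Prime π) {n m : ℕ} {p q : R} (hp : ¬ π ∣ p) (hq : ¬ π ∣ q)
    (h : π ^ n * p = π ^ m * q) : n = m := by
  rcases lt_trichotomy n m with hnm | hnm | hnm
  · exfalso
    obtain ⟨d, rfl⟩ := Nat.exists_eq_add_of_lt hnm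
    rw [show n + d + 1 = n + (d + 1) by ring, pow_add, mul_assoc] at h
    have h1 := mul_left_cancel₀ (pow_ne_zero n hπ.ne_zero) h
    apply hp
    rw [h1, pow_succ']
    exact ⟨π ^ d * q, by ring⟩
  · exact hnm
  · exfalso
    obtain ⟨d, rfl⟩ := Nat.exists_eq_add_of_lt hnm
    rw [show m + d + 1 = m + (d + 1) by ring, pow_add, mul_assoc] at h
    have h1 := mul_left_cancel₀ (pow_ne_zero m hπ.ne_zero) h
    apply hq
    rw [← h1, pow_succ']
    exact ⟨π ^ d * p, by ring⟩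

lemma val_exists [UniqueFactorizationMonoid R] (hπ : Prime π) {p : R} (hp : p ≠ 0) :
    ∃ (n : ℕ) (q : R), p = π ^ n * q ∧ ¬ π ∣ q :=
  (FiniteMultiplicity.of_not_isUnit hπ.not_isUnit hp).exists_eq_pow_mul_and_not_dvd.elim
    fun q hq => ⟨_, q, hq.1, hq.2⟩

end val

section

variable {ι k K Ω : Type} [Field k] [Field K] [Field Ω]
  [Algebra (MvPolynomial ι k) K] [Algebra k K] [Algebra K Ω] [Algebra k Ω]
  [IsScalarTower k (MvPolynomial ι k) K] [IsScalarTower k K Ω]
  [IsFractionRing (MvPolynomial ι k) K] {g : MvPolynomial ι k}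

lemma ev_mem (p : MvPolynomial ι (ks k Ω)) : ev ι k K Ω p ∈ intRing K Ω g := by
  induction p using MvPolynomial.induction_on with
  | C a =>
    rw [ev_C]
    exact const_mem (ks_alg a)
  | add p q hp hq => rw [map_add]; exact (intRing K Ω g).add_mem hp hq
  | mul_X p i hp =>
    rw [map_mul]
    refine (intRing K Ω g).mul_mem hp ?_
    unfold ev
    rw [aeval_X]
    exact coord_mem (Algebra.subset_adjoin (Or.inl ⟨X i, rfl⟩))

lemma ginv_mem : (inc0 ι k K Ω g)⁻¹ ∈ intRing K Ω g := by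
  have h1 := coord_mem (Ω := Ω) (g := g) (K := K)
    (Algebra.subset_adjoin (Or.inr rfl) : (algebraMap (MvPolynomial ι k) K g)⁻¹ ∈ coordRing K g)
  rwa [map_inv₀] at h1

/-- elements of the field generated by `u` -/
lemma exists_sum {l : ℕ} (hl : 0 < l) {u : Ω} (hu : u ^ l ∈ geomField k K Ω) {z : Ω}
    (hz : z ∈ (geomField k K Ω)⟮u⟯) :
    ∃ c : ℕ → Ω, (∀ i, c i ∈ geomField k K Ω) ∧ z = ∑ i ∈ Finset.range l, c i * u ^ i := by
  have hM : (Polynomial.X ^ l - Polynomial.C (⟨u ^ l, hu⟩ : geomField k K Ω)).Monic :=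
    Polynomial.monic_X_pow_sub_C _ hl.ne'
  have h0 : Polynomial.aeval u (Polynomial.X ^ l -
      Polynomial.C (⟨u ^ l, hu⟩ : geomField k K Ω)) = 0 := by
    rw [map_sub, map_pow, Polynomial.aeval_X, Polynomial.aeval_C]
    exact sub_self _
  have halg : IsAlgebraic (geomField k K Ω) u := ⟨_, hM.ne_zero, h0⟩
  have h1 : z ∈ Algebra.adjoin (geomField k K Ω) {u} := by
    rw [← IntermediateField.adjoin_simple_toSubalgebra_of_isAlgebraic halg]
    exact hz
  rw [Algebra.adjoin_singleton_eq_range_aeval] at h1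
  obtain ⟨p, hp⟩ := h1
  have h2 : Polynomial.aeval u (p %ₘ (Polynomial.X ^ l -
      Polynomial.C (⟨u ^ l, hu⟩ : geomField k K Ω))) = z := by
    rw [← hp]
    show _ = Polynomial.aeval u p
    conv_rhs => rw [← Polynomial.modByMonic_add_div p (Polynomial.X ^ l -
      Polynomial.C (⟨u ^ l, hu⟩ : geomField k K Ω))]
    rw [map_add, map_mul, h0, zero_mul, add_zero]
  have h3 : (p %ₘ (Polynomial.X ^ l -
      Polynomial.C (⟨u ^ l, hu⟩ : geomField k K Ω))).degree < l := by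
    have := Polynomial.degree_modByMonic_lt p hM
    rwa [Polynomial.degree_X_pow_sub_C hl] at this
  generalize p %ₘ (Polynomial.X ^ l - Polynomial.C (⟨u ^ l, hu⟩ : geomField k K Ω)) = r at h2 h3
  refine ⟨fun i => (r.coeff i : Ω), fun i => (r.coeff i).2, ?_⟩
  rw [← h2]
  by_cases hr : r = 0
  · rw [hr, map_zero]
    symm
    refine Finset.sum_eq_zero fun i _ => ?_
    simp
  have h4 : r.natDegree < l := (Polynomial.natDegree_lt_iff_degree_lt hr).2 h3
  rw [Polynomial.aeval_eq_sum_range' h4]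
  rfl

variable {P : Ideal (intRing K Ω g)} {π w w' : MvPolynomial ι (ks k Ω)} {e : ℕ}

/-- the homogeneous parts of positive degree lie in `P` -/
lemma part_P (hg : g ≠ 0) (hP : P.IsPrime) (hπ : Prime π) (hπg : ¬ π ∣ up ι k Ω g)
    (hπP : InP P (ev ι k K Ω π)) (hw : w = π ^ e * w') (hw' : ¬ π ∣ w') {l : ℕ} (hl : l.Prime)
    (he : ¬ l ∣ e) {u : Ω} (hu : u ^ l = ev ι k K Ω w) {i : ℕ} (hi : ¬ l ∣ i) {c : Ω}
    (hc : c ∈ geomField k K Ω) (hcu : c * u ^ i ∈ intRing K Ω g) : InP P (c * u ^ i) := by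
  have hY : (c * u ^ i) ^ l = c ^ l * (ev ι k K Ω w) ^ i := by
    rw [mul_pow, ← pow_mul, mul_comm i l, pow_mul, hu]
  have hYg : (c * u ^ i) ^ l ∈ geomField k K Ω := by
    rw [hY]
    exact (geomField k K Ω).mul_mem (pow_mem hc _) (pow_mem (ev_geom _) _)
  obtain ⟨M, a, ha⟩ := int_geom hg ((intRing K Ω g).pow_mem hcu l) hYg
  obtain ⟨α, β, hβ, hαβ⟩ := geo (ι := ι) hc
  have hg0 := inc0_ne (K := K) (Ω := Ω) hg
  by_cases ha0 : a = 0
  · rw [ha0, map_zero] at ha
    rcases mul_eq_zero.1 ha with h1 | h1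
    · exact absurd h1 (pow_ne_zero _ hg0)
    · rw [pow_eq_zero_iff hl.ne_zero] at h1
      rw [h1]
      exact InP.zero
  have heq : β ^ l * a = up ι k Ω g ^ M * (α ^ l * w ^ i) := by
    apply ev_inj (K := K) (Ω := Ω)
    rw [map_mul, map_mul, map_mul, map_pow, map_pow, map_pow, map_pow, ← ha, hY, ← inc0_eq,
      ← hαβ]
    ring
  have hα : α ≠ 0 := by
    rintro rfl
    rw [zero_pow hl.ne_zero, zero_mul, mul_zero, mul_eq_zero] at heq
    rcases heq with h1 | h1
    · exact pow_ne_zero _ hβ h1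
    · exact ha0 h1
  obtain ⟨b1, β', rfl, hβ'⟩ := val_exists hπ hβ
  obtain ⟨a1, a', rfl, ha'⟩ := val_exists hπ ha0
  obtain ⟨a2, α', rfl, hα'⟩ := val_exists hπ hα
  have h2 : π ^ (l * b1 + a1) * (β' ^ l * a') =
      π ^ (l * a2 + e * i) * (up ι k Ω g ^ M * (α' ^ l * w' ^ i)) := by
    rw [hw] at heq
    calc π ^ (l * b1 + a1) * (β' ^ l * a') = (π ^ b1 * β') ^ l * (π ^ a1 * a') := by
          rw [pow_add, mul_comm l b1, pow_mul]; ring
      _ = _ := by rw [heq, pow_add, mul_comm l a2, pow_mul, pow_mul]; ring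
  have hnd : ∀ {x y : MvPolynomial ι (ks k Ω)}, ¬ π ∣ x → ¬ π ∣ y → ¬ π ∣ x * y := by
    intro x y hx hy hxy
    rcases hπ.dvd_or_dvd hxy with h | h
    · exact hx h
    · exact hy h
  have hnp : ∀ {x : MvPolynomial ι (ks k Ω)} (n : ℕ), ¬ π ∣ x → ¬ π ∣ x ^ n := by
    intro x n hx hxn
    exact hx (hπ.dvd_of_dvd_pow hxn)
  have h3 := val_unique hπ (hnd (hnp l hβ') ha') (hnd (hnp M hπg) (hnd (hnp l hα') (hnp i hw'))) h2
  have h4 : a1 ≠ 0 := by
    intro h0
    rw [h0, add_zero] at h3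
    have h5 : l ∣ e * i := by
      have h6 : l ∣ l * a2 + e * i := by rw [← h3]; exact dvd_mul_right _ _
      exact (Nat.dvd_add_right (dvd_mul_right _ _)).1 h6
    rcases hl.dvd_mul.1 h5 with h | h
    · exact he h
    · exact hi h
  obtain ⟨a3, rfl⟩ := Nat.exists_eq_succ_of_ne_zero h4
  have h5 : InP P (ev ι k K Ω (π ^ (a3 + 1) * a')) := by
    rw [pow_succ', mul_assoc, map_mul]
    exact hπP.mul_right (ev_mem _)
  have h6 : InP P ((c * u ^ i) ^ l) := by
    have h7 : (c * u ^ i) ^ l = (inc0 ι k K Ω g)⁻¹ ^ M * ev ι k K Ω (π ^ (a3 + 1) * a') := by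
      rw [← ha, ← mul_assoc, ← mul_pow, inv_mul_cancel₀ hg0, one_pow, one_mul]
    rw [h7]
    exact h5.mul_left ((intRing K Ω g).pow_mem ginv_mem _)
  exact h6.of_pow hP hcu

/-- the residue of an element of the field generated by `u` does not depend on the choice of the
root -/
lemma dec (hg : g ≠ 0) (hP : P.IsPrime) (hπ : Prime π) (hπg : ¬ π ∣ up ι k Ω g)
    (hπP : InP P (ev ι k K Ω π)) (hw : w = π ^ e * w') (hw' : ¬ π ∣ w') {l : ℕ} (hl : l.Prime)
    (hlk : (l : k) ≠ 0) (he : ¬ l ∣ e) {u : Ω} (hu0 : u ≠ 0) (hu : u ^ l = ev ι k K Ω w)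
    {τ : Gal(Ω/K)} (hτ : τ ∈ Hg k K Ω) {ζ : Ω} (hζ : IsPrimitiveRoot ζ l)
    (hτu : τ u = ζ * u) {z : Ω} (hz : z ∈ intRing K Ω g) (hzu : z ∈ (geomField k K Ω)⟮u⟯) :
    InP P z ↔ InP P (τ⁻¹ z) := by
  have hl0 : 0 < l := hl.pos
  have hζalg : IsAlgebraic k ζ := by
    refine ⟨Polynomial.X ^ l - 1, ?_, ?_⟩
    · exact Polynomial.X_pow_sub_C_ne_zero hl0 1
    · rw [map_sub, map_pow, Polynomial.aeval_X, hζ.pow_eq_one, map_one, sub_self]
  have hζm : ∀ j : ℕ, ζ ^ j ∈ intRing K Ω g := fun j => (intRing K Ω g).pow_mem (const_mem hζalg) j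
  have hζmi : ∀ j : ℕ, (ζ ^ j)⁻¹ ∈ intRing K Ω g := fun j => const_mem (hζalg.pow j).inv
  have hfixζ : ∀ σ ∈ Hg k K Ω, σ ζ = ζ := fun σ hσ => fix_geom hσ (alg_geom hζalg)
  have hul : u ^ l ∈ geomField k K Ω := by rw [hu]; exact ev_geom _
  obtain ⟨c, hc, hze⟩ := exists_sum hl0 hul hzu
  have hζ0 : ζ ≠ 0 := hζ.ne_zero hl0.ne'
  have hτc : ∀ σ ∈ Hg k K Ω, ∀ ω : Ω, σ u = ω * u →
      σ z = ∑ i ∈ Finset.range l, c i * ω ^ i * u ^ i := by
    intro σ hσ ω hω
    rw [hze, map_sum]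
    refine Finset.sum_congr rfl fun i _ => ?_
    rw [map_mul, map_pow, fix_geom hσ (hc i), hω, mul_pow]
    ring
  have hpow : ∀ j : ℕ, (τ ^ j) u = ζ ^ j * u := by
    intro j
    induction j with
    | zero => simp
    | succ j ih =>
      rw [pow_succ, AlgEquiv.mul_apply, hτu, map_mul, ih, hfixζ _ ((Hg k K Ω).pow_mem hτ j)]
      ring
  -- the homogeneous parts
  have hpart : ∀ i < l, c i * u ^ i ∈ intRing K Ω g := by
    intro i hi
    have h1 : ∑ j ∈ Finset.range l, (ζ ^ (i * j))⁻¹ * (τ ^ j) z =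
        (l : Ω) * (c i * u ^ i) := by
      have h2 : ∀ j, (ζ ^ (i * j))⁻¹ * (τ ^ j) z =
          ∑ m ∈ Finset.range l, c m * u ^ m * (ζ ^ m * (ζ ^ i)⁻¹) ^ j := by
        intro j
        rw [hτc _ ((Hg k K Ω).pow_mem hτ j) _ (hpow j), Finset.mul_sum]
        refine Finset.sum_congr rfl fun m _ => ?_
        rw [mul_pow, inv_pow, ← pow_mul, ← pow_mul, ← pow_mul, mul_comm j m]
        ring
      simp only [h2]
      rw [Finset.sum_comm]
      have h3 : ∀ m ∈ Finset.range l, ∑ j ∈ Finset.range l,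
          c m * u ^ m * (ζ ^ m * (ζ ^ i)⁻¹) ^ j =
          if m = i then (l : Ω) * (c i * u ^ i) else 0 := by
        intro m hm
        have hm' := Finset.mem_range.1 hm
        rw [← Finset.mul_sum]
        by_cases hmi : m = i
        · rw [if_pos hmi, hmi, mul_inv_cancel₀ (pow_ne_zero _ hζ0)]
          simp
          ring
        · rw [if_neg hmi]
          have h4 : ζ ^ m * (ζ ^ i)⁻¹ - 1 ≠ 0 := by
            intro h5
            apply hmi
            refine hζ.pow_inj hm' hi ?_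
            have h6 : ζ ^ m * (ζ ^ i)⁻¹ = 1 := by linear_combination h5
            exact (mul_inv_eq_one₀ (pow_ne_zero _ hζ0)).1 h6
          have h5 : (ζ ^ m * (ζ ^ i)⁻¹) ^ l = 1 := by
            rw [mul_pow, inv_pow, ← pow_mul, ← pow_mul, mul_comm m l, mul_comm i l, pow_mul,
              pow_mul, hζ.pow_eq_one, one_pow, one_pow, inv_one, mul_one]
          have h6 := mul_geom_sum (ζ ^ m * (ζ ^ i)⁻¹) l
          rw [h5, sub_self] at h6
          rcases mul_eq_zero.1 h6 with h7 | h7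
          · exact absurd h7 h4
          · rw [h7, mul_zero]
      rw [Finset.sum_congr rfl h3, Finset.sum_ite_eq', if_pos (Finset.mem_range.2 hi)]
    have h2 : (l : Ω) * (c i * u ^ i) ∈ intRing K Ω g := by
      rw [← h1]
      exact (intRing K Ω g).sum_mem fun j _ => (intRing K Ω g).mul_mem (hζmi _)
        (gal_mem _ hz)
    have hl1 : (l : Ω) ≠ 0 := by
      intro h
      apply hlk
      have h5 : algebraMap k Ω (l : k) = 0 := by rw [map_natCast]; exact h
      exact (algebraMap k Ω).injective (by rw [h5, map_zero])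
    have h3 : (l : Ω)⁻¹ * ((l : Ω) * (c i * u ^ i)) = c i * u ^ i := by
      rw [← mul_assoc, inv_mul_cancel₀ hl1, one_mul]
    rw [← h3]
    refine (intRing K Ω g).mul_mem (const_mem ?_) h2
    have h4 : ((l : Ω)⁻¹) = algebraMap k Ω ((l : k)⁻¹) := by rw [map_inv₀, map_natCast]
    rw [h4]
    exact isAlgebraic_algebraMap _
  have hpartP : ∀ i < l, 1 ≤ i → InP P (c i * u ^ i) := by
    intro i hi hi1
    exact part_P hg hP hπ hπg hπP hw hw' hl he hu
      (fun h => absurd (Nat.le_of_dvd hi1 h) (by omega)) (hc i) (hpart i hi)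
  have hτi : τ⁻¹ u = ζ⁻¹ * u := by
    have h1 : τ (ζ⁻¹ * u) = u := by
      rw [map_mul, map_inv₀, hfixζ τ hτ, hτu, ← mul_assoc, inv_mul_cancel₀ hζ0, one_mul]
    have h2 : τ⁻¹ (τ (ζ⁻¹ * u)) = ζ⁻¹ * u := by
      rw [← AlgEquiv.mul_apply, inv_mul_cancel]
      rfl
    rw [← h2, h1]
  have hgen : ∀ σ ∈ Hg k K Ω, ∀ ω : Ω, IsAlgebraic k ω → σ u = ω * u → InP P (σ z - c 0) := by
    intro σ hσ ω hωa hω
    have h1 : σ z - c 0 = ∑ i ∈ Finset.range (l - 1), ω ^ (i + 1) *
        (c (i + 1) * u ^ (i + 1)) := by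
      obtain ⟨n, rfl⟩ : ∃ n, l = n + 1 := ⟨l - 1, by omega⟩
      rw [hτc _ hσ _ hω, Finset.sum_range_succ', Nat.add_sub_cancel, pow_zero, pow_zero, mul_one,
        mul_one, add_sub_cancel_right]
      refine Finset.sum_congr rfl fun i _ => ?_
      ring
    rw [h1]
    refine InP.sum fun i hi => ?_
    have := Finset.mem_range.1 hi
    exact (hpartP (i + 1) (by omega) (by omega)).mul_left (const_mem (hωa.pow _))
  have e1 : InP P (z - c 0) := by
    have := hgen 1 (Hg k K Ω).one_mem 1 isAlgebraic_one (by simp)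
    simpa using this
  have e2 : InP P (τ⁻¹ z - c 0) := hgen τ⁻¹ ((Hg k K Ω).inv_mem hτ) _ hζalg.inv hτi
  constructor
  · intro h
    have h1 := (h.sub e1).add e2
    have h2 : z - (z - c 0) + (τ⁻¹ z - c 0) = τ⁻¹ z := by ring
    rwa [h2] at h1
  · intro h
    have h1 := (h.sub e2).add e1
    have h2 : τ⁻¹ z - (τ⁻¹ z - c 0) + (z - c 0) = z := by ring
    rwa [h2] at h1

/-- **Ramification**: if the exponent of the prime `π` in `u ^ l` is not divisible by `l`, then
`u` is moved by an element of an inertia group. -/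
theorem ram [Finite ι] [IsSepClosed Ω] [IsGalois K Ω] (hg : g ≠ 0) (hπ : Prime π)
    (hπg : ¬ π ∣ up ι k Ω g) (hw : w = π ^ e * w') (hw' : ¬ π ∣ w') {l : ℕ} (hl : l.Prime)
    (hlk : (l : k) ≠ 0) (he : ¬ l ∣ e) {u : Ω} (hu : u ^ l = ev ι k K Ω w) :
    ∃ P : Ideal (intRing K Ω g), P.IsMaximal ∧ ∃ τ ∈ Hg k K Ω, InInertia P τ ∧ τ u ≠ u := by
  have hl0 : 0 < l := hl.pos
  have hw0 : w ≠ 0 := by
    rw [hw]
    refine mul_ne_zero (pow_ne_zero _ hπ.ne_zero) ?_
    rintro rfl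
    exact hw' (dvd_zero _)
  have hu0 : u ≠ 0 := by
    rintro rfl
    rw [zero_pow hl.ne_zero] at hu
    exact ev_ne hw0 hu.symm
  -- `u` is not in `k^s(t)`
  have huF : u ∉ geomField k K Ω := by
    intro hu'
    obtain ⟨α, β, hβ, hαβ⟩ := geo (ι := ι) hu'
    have h1 : β ^ l * w = α ^ l := by
      apply ev_inj (K := K) (Ω := Ω)
      rw [map_mul, map_pow, map_pow, ← hu, ← hαβ]
      ring
    have hα : α ≠ 0 := by
      rintro rfl
      rw [zero_pow hl.ne_zero, mul_eq_zero] at h1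
      rcases h1 with h1 | h1
      · exact pow_ne_zero _ hβ h1
      · exact hw0 h1
    obtain ⟨b1, β', rfl, hβ'⟩ := val_exists hπ hβ
    obtain ⟨a2, α', rfl, hα'⟩ := val_exists hπ hα
    have h2 : π ^ (l * b1 + e) * (β' ^ l * w') = π ^ (l * a2) * α' ^ l := by
      rw [hw] at h1
      calc π ^ (l * b1 + e) * (β' ^ l * w') = (π ^ b1 * β') ^ l * (π ^ e * w') := by
            rw [pow_add, mul_comm l b1, pow_mul]; ring
        _ = _ := by rw [h1, mul_comm l a2, pow_mul]; ring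
    have h3 := val_unique hπ (fun h => by
      rcases hπ.dvd_or_dvd h with h | h
      · exact hβ' (hπ.dvd_of_dvd_pow h)
      · exact hw' h) (fun h => hα' (hπ.dvd_of_dvd_pow h)) h2
    apply he
    have h6 : l ∣ l * b1 + e := by rw [h3]; exact dvd_mul_right _ _
    exact (Nat.dvd_add_right (dvd_mul_right _ _)).1 h6
  obtain ⟨τ, hτ, hτu⟩ : ∃ τ ∈ Hg k K Ω, τ u ≠ u := by
    by_contra hcon
    push Not at hcon
    apply huF
    rw [← InfiniteGalois.fixedField_fixingSubgroup (geomField k K Ω),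
      IntermediateField.mem_fixedField_iff]
    exact hcon
  -- the maximal ideal
  obtain ⟨P, hPm, hπP⟩ : ∃ P : Ideal (intRing K Ω g), P.IsMaximal ∧ InP P (ev ι k K Ω π) := by
    have h1 : ¬ IsUnit (⟨ev ι k K Ω π, ev_mem π⟩ : intRing K Ω g) := by
      intro h
      obtain ⟨v, hv⟩ := h.exists_right_inv
      have h2 : ev ι k K Ω π * (v : Ω) = 1 := congrArg Subtype.val hv
      have h3 : (v : Ω) = (ev ι k K Ω π)⁻¹ := eq_inv_of_mul_eq_one_right h2
      obtain ⟨M, c, hc⟩ := int_geom hg v.2 (by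
        rw [h3]
        exact (geomField k K Ω).inv_mem (ev_geom _))
      have h4 : up ι k Ω g ^ M = π * c := by
        apply ev_inj (K := K) (Ω := Ω)
        rw [map_mul, map_pow, ← inc0_eq, ← hc, mul_comm, mul_assoc, mul_comm (v : Ω), h2, mul_one]
      exact hπg (hπ.dvd_of_dvd_pow (h4 ▸ dvd_mul_right π c))
    obtain ⟨P, hP, h2⟩ := exists_max_ideal_of_mem_nonunits h1
    exact ⟨P, hP, ⟨_, h2, rfl⟩⟩
  have hPp : P.IsPrime := hPm.isPrime
  -- the root of unity
  set ζ : Ω := τ u / u with hζd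
  have hz1 : ζ ^ l = 1 := by
    rw [hζd, div_pow, ← map_pow, hu, fix_ev hτ, ← hu]
    exact div_self (pow_ne_zero _ hu0)
  have hζu : τ u = ζ * u := by rw [hζd, div_mul_cancel₀ _ hu0]
  have hζ1 : ζ ≠ 1 := by
    intro h
    apply hτu
    rw [hζu, h, one_mul]
  have hprim : IsPrimitiveRoot ζ l := by
    have h1 := IsPrimitiveRoot.orderOf ζ
    have : Fact l.Prime := ⟨hl⟩
    rwa [orderOf_eq_prime hz1 hζ1] at h1
  -- transitivity
  let _ : MulSemiringAction Gal(Ω/K) (intRing K Ω g) := act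
  set L : IntermediateField K Ω := ((geomField k K Ω)⟮u⟯).restrictScalars K with hL
  have hclosed : IsClosed (L.fixingSubgroup : Set Gal(Ω/K)) :=
    InfiniteGalois.fixingSubgroup_isClosed L
  have hcomp : CompactSpace L.fixingSubgroup := isCompact_iff_compactSpace.1 hclosed.isCompact
  have hQp : (τ • P).IsPrime := inferInstance
  have hst : ∀ z : intRing K Ω g, IsOpen (MulAction.stabilizer L.fixingSubgroup z :
      Set L.fixingSubgroup) := by
    intro z
    have h1 := stabilizer_isOpen_of_isIntegral (K := K) (z : Ω)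
    have h2 := h1.preimage (continuous_subtype_val (p := fun g => g ∈ L.fixingSubgroup))
    convert h2 using 1
    ext g
    constructor
    · intro h
      exact congrArg Subtype.val h
    · intro h
      exact Subtype.ext h
  obtain ⟨γ, hγ⟩ := exists_smul_eq (G := L.fixingSubgroup) hst P (τ • P) (by
    intro z hz
    rw [Ideal.mem_pointwise_smul_iff_inv_smul_mem]
    have hzL : (z : Ω) ∈ L := by
      rw [← InfiniteGalois.fixedField_fixingSubgroup L]
      intro g
      exact congrArg Subtype.val (hz g)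
    have h1 := dec hg hPp hπ hπg hπP hw hw' hl hlk he hu0 hu hτ hprim hζu z.2 hzL
    rw [inP_iff z.2, inP_iff (gal_mem _ z.2)] at h1
    exact h1)
  have hγm := (IntermediateField.mem_fixingSubgroup_iff _ _).1 γ.2
  have hle : geomField k K Ω ≤ L := by
    intro c hc
    exact ((geomField k K Ω)⟮u⟯).algebraMap_mem ⟨c, hc⟩
  have hγH : (γ : Gal(Ω/K)) ∈ Hg k K Ω := by
    rw [IntermediateField.mem_fixingSubgroup_iff]
    intro c hc
    exact hγm c (hle hc)
  have hγu : (γ : Gal(Ω/K))⁻¹ u = u := by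
    have huL : u ∈ L := by
      have h0 : u ∈ (geomField k K Ω)⟮u⟯ :=
        IntermediateField.mem_adjoin_simple_self (geomField k K Ω) u
      exact h0
    have h1 : (γ : Gal(Ω/K)) u = u := hγm u huL
    have h2 : (γ : Gal(Ω/K))⁻¹ ((γ : Gal(Ω/K)) u) = u := by
      rw [← AlgEquiv.mul_apply, inv_mul_cancel]
      rfl
    rwa [h1] at h2
  have hmem : (γ : Gal(Ω/K))⁻¹ * τ ∈ Hg k K Ω :=
    (Hg k K Ω).mul_mem ((Hg k K Ω).inv_mem hγH) hτ
  refine ⟨P, hPm, (γ : Gal(Ω/K))⁻¹ * τ, hmem, ?_, ?_⟩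
  · apply inertia_of_stab hPm hmem
    intro z hz
    have h3 := (inP_iff hz.mem).1 hz
    have h4 := Ideal.smul_mem_pointwise_smul τ _ P h3
    rw [hγ, Ideal.mem_pointwise_smul_iff_inv_smul_mem] at h4
    exact ⟨_, h4, rfl⟩
  · rw [AlgEquiv.mul_apply, hζu, map_mul, hγu]
    have hζalg : IsAlgebraic k ζ := by
      refine ⟨Polynomial.X ^ l - 1, ?_, ?_⟩
      · exact Polynomial.X_pow_sub_C_ne_zero hl0 1
      · rw [map_sub, map_pow, Polynomial.aeval_X, hz1, map_one, sub_self]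
    rw [fix_geom ((Hg k K Ω).inv_mem hγH) (alg_geom hζalg)]
    intro h
    apply hζ1
    have h1 : ζ * u = 1 * u := by rw [h, one_mul]
    exact mul_right_cancel₀ hu0 h1

end

end Run7.h784
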