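import Pool.Agent.W569.UG.MainA
import Pool.Agent.Run7.h784.AlgC

/-!
# From the abelianised action to the augmentation ideal
-/

set_option autoImplicit false
set_option linter.unusedSectionVars false
set_option linter.unusedVariables false

namespace Run7.h784

open Matrix IsLocalRing

section filt

variable {A : Type} [CommRing A] {n : ℕ} {J : Ideal A}

lemma ent_mul {a b : ℕ} {x y : Matrix (Fin n) (Fin n) A} (hx : ∀ p q, x p q ∈ J ^ a)
    (hy : ∀ p q, y p q ∈ J ^ b) : ∀ p q, (x * y) p q ∈ J ^ (a + b) := by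
  intro p q
  rw [Matrix.mul_apply]
  exact Ideal.sum_mem _ fun m _ => by rw [pow_add]; exact Ideal.mul_mem_mul (hx p m) (hy m q)

lemma ent_mul_left {a : ℕ} {x y : Matrix (Fin n) (Fin n) A} (hy : ∀ p q, y p q ∈ J ^ a) :
    ∀ p q, (x * y) p q ∈ J ^ a := by
  intro p q
  rw [Matrix.mul_apply]
  exact Ideal.sum_mem _ fun m _ => Ideal.mul_mem_left _ _ (hy m q)

lemma ent_pow_sub_one {a : ℕ} {y : Matrix (Fin n) (Fin n) A} (hy : ∀ p q, (y - 1) p q ∈ J ^ a)
    (i : ℕ) : ∀ p q, (y ^ i - 1) p q ∈ J ^ a := by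
  induction i with
  | zero => intro p q; rw [pow_zero, sub_self]; exact Ideal.zero_mem _
  | succ i ih =>
    have h1 : y ^ (i + 1) - 1 = y ^ i * (y - 1) + (y ^ i - 1) := by
      rw [mul_sub, mul_one, ← pow_succ]
      abel
    intro p q
    rw [h1, Matrix.add_apply]
    exact Ideal.add_mem _ (ent_mul_left hy p q) (ih p q)

lemma ent_pow_l {l : ℕ} (hl : (l : A) ∈ J) {a : ℕ} {y : Matrix (Fin n) (Fin n) A}
    (hy : ∀ p q, (y - 1) p q ∈ J ^ (a + 1)) : ∀ p q, (y ^ l - 1) p q ∈ J ^ (a + 2) := by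
  have h1 : y ^ l - 1 = (y - 1) * ∑ i ∈ Finset.range l, y ^ i := (mul_geom_sum y l).symm
  have h2 : ∑ i ∈ Finset.range l, y ^ i = ((l : A) • (1 : Matrix (Fin n) (Fin n) A)) +
      ∑ i ∈ Finset.range l, (y ^ i - 1) := by
    rw [Finset.sum_sub_distrib, Finset.sum_const, Finset.card_range, Nat.cast_smul_eq_nsmul]
    abel
  have h3 : ∀ p q, (∑ i ∈ Finset.range l, y ^ i) p q ∈ J ^ 1 := by
    intro p q
    rw [h2, Matrix.add_apply, Matrix.sum_apply, pow_one]
    refine Ideal.add_mem _ ?_ (Ideal.sum_mem _ fun i _ => ?_)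
    · rw [Matrix.smul_apply, smul_eq_mul]
      exact Ideal.mul_mem_right _ _ hl
    · exact Ideal.pow_le_self (by omega) (ent_pow_sub_one hy i p q)
  intro p q
  rw [h1]
  have h4 := ent_mul hy h3 p q
  rwa [add_assoc] at h4

lemma ent_pow_lM {l : ℕ} (hl : (l : A) ∈ J) {y : Matrix (Fin n) (Fin n) A}
    (hy : ∀ p q, (y - 1) p q ∈ J) (M : ℕ) : ∀ p q, (y ^ l ^ M - 1) p q ∈ J ^ (M + 1) := by
  induction M with
  | zero =>
    intro p q
    simpa using hy p q
  | succ M ih =>
    have h1 : y ^ l ^ (M + 1) = (y ^ l ^ M) ^ l := by rw [← pow_mul, ← pow_succ]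
    intro p q
    rw [h1]
    exact ent_pow_l hl ih p q

/-- the first step: from unipotent modulo the ideal to trivial modulo the ideal -/
lemma ent_unip {l : ℕ} (hp : l.Prime) [J.IsPrime] (hl : (l : A) ∈ J)
    {y : Matrix (Fin n) (Fin n) A} {k t : ℕ} (hk : ∀ p q, ((y - 1) ^ k) p q ∈ J)
    (hkt : k ≤ l ^ t) : ∀ p q, (y ^ l ^ t - 1) p q ∈ J := by
  rcases isEmpty_or_nonempty (Fin n) with he | he
  · intro p; exact he.elim p
  have hprime : Fact l.Prime := ⟨hp⟩
  have hch : CharP (A ⧸ J) l := by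
    refine (CharP.charP_iff_prime_eq_zero hp).2 ?_
    have h1 : Ideal.Quotient.mk J (l : A) = 0 := Ideal.Quotient.eq_zero_iff_mem.2 hl
    rwa [map_natCast] at h1
  have hch' : CharP (Matrix (Fin n) (Fin n) (A ⧸ J)) l := inferInstance
  set f : Matrix (Fin n) (Fin n) A →+* Matrix (Fin n) (Fin n) (A ⧸ J) :=
    (Ideal.Quotient.mk J).mapMatrix with hf
  have hf0 : ∀ x : Matrix (Fin n) (Fin n) A, f x = 0 ↔ ∀ p q, x p q ∈ J := by
    intro x
    constructor
    · intro h p q
      have h1 := congrFun (congrFun h p) q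
      exact Ideal.Quotient.eq_zero_iff_mem.1 h1
    · intro h
      ext p q
      exact Ideal.Quotient.eq_zero_iff_mem.2 (h p q)
  rw [← hf0] at hk ⊢
  rw [map_pow] at hk
  have h1 : (f y - 1) ^ l ^ t = 0 := by
    rw [map_sub, map_one] at hk
    exact pow_eq_zero_of_le hkt hk
  rw [map_sub, map_pow, map_one]
  have h2 := sub_pow_char_pow_of_commute (R := Matrix (Fin n) (Fin n) (A ⧸ J)) (p := l) (n := t)
    (x := f y) (y := 1) (Commute.one_right _)
  rw [one_pow] at h2
  rw [← h2, h1]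

end filt

section rel

variable {A : Type} [CommRing A] [IsLocalRing A] [IsNoetherianRing A] [TopologicalSpace A] {n : ℕ}
  {G : Type} [Group G] [TopologicalSpace G] [IsTopologicalGroup G] {H : Subgroup G} [hH : H.Normal]

/-- the augmentation ideal of the restriction to `H` -/
def aug {G : Type} [Group G] (H : Subgroup G) {A : Type} [CommRing A] {n : ℕ}
    (ρ : G →* GL (Fin n) A) : Submodule A (Matrix (Fin n) (Fin n) A) :=
  Submodule.span A (Set.range fun g : H => (ρ g : Matrix (Fin n) (Fin n) A) - 1)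

lemma aug_mul {G : Type} [Group G] {H : Subgroup G} {A : Type} [CommRing A] {n : ℕ}
    (ρ : G →* GL (Fin n) A) : aug H ρ * aug H ρ ≤ aug H ρ := by
  unfold aug
  refine Pool.Agent.W569.UF.span_mul_le (fun g : H => (ρ g : Matrix (Fin n) (Fin n) A) - 1) ?_
  intro g h
  simp only [Subgroup.coe_mul, map_mul, Units.val_mul]
  noncomm_ring

theorem rel {l c : ℕ} (hp : l.Prime) (hA : IsAdic (maximalIdeal A))
    (hlA : (l : A) ∈ maximalIdeal A) (ρ : G →* GL (Fin n) A) (hρ : Continuous ρ) (Ur : Set G)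
    (hur : ∀ τ : H, (τ : G) ∈ Ur → ρ τ = 1) {k : ℕ}
    (hk : ∀ g : H, ∀ p q, (((ρ g : Matrix (Fin n) (Fin n) A) - 1) ^ k) p q ∈ maximalIdeal A)
    (σ : G)
    (hab : ∀ N : ℕ, ∀ U : Subgroup H, IsOpen (U : Set H) → (∀ h : H, h ^ l ^ N ∈ U) →
      (∀ τ : H, (τ : G) ∈ Ur → τ ∈ U) → ∀ h : H, ∃ y ∈ commutator H, ∃ x ∈ U,
        MulAut.conjNormal σ h = h ^ c * y * x) :
    ∀ x ∈ aug H ρ, (ρ σ : Matrix (Fin n) (Fin n) A) * x *
      (((ρ σ)⁻¹ : GL (Fin n) A) : Matrix (Fin n) (Fin n) A) - (c : A) • x ∈ aug H ρ ^ 2 := by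
  set X : H → Matrix (Fin n) (Fin n) A := fun g => (ρ g : Matrix (Fin n) (Fin n) A) - 1 with hX
  have hXm : ∀ g h, X (g * h) = X g + X h + X g * X h := by
    intro g h
    simp only [hX, Subgroup.coe_mul, map_mul, Units.val_mul]
    noncomm_ring
  have hXI : ∀ g, X g ∈ aug H ρ := fun g => Submodule.subset_span ⟨g, rfl⟩
  have hconj : ∀ g, (ρ σ : Matrix (Fin n) (Fin n) A) * X g *
      (((ρ σ)⁻¹ : GL (Fin n) A) : Matrix (Fin n) (Fin n) A) = X (MulAut.conjNormal σ g) := by
    intro g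
    simp only [hX, MulAut.conjNormal_apply, map_mul, map_inv, Units.val_mul]
    rw [mul_sub, sub_mul, mul_one, Units.mul_inv]
  -- the map is additive modulo the square
  have hadd : ∀ g h, X (g * h) - (X g + X h) ∈ aug H ρ ^ 2 := by
    intro g h
    rw [hXm, add_sub_cancel_left, pow_two]
    exact Submodule.mul_mem_mul (hXI g) (hXI h)
  let F : H →* Multiplicative (Matrix (Fin n) (Fin n) A ⧸ (aug H ρ ^ 2)) :=
    MonoidHom.mk' (fun g => Multiplicative.ofAdd (Submodule.Quotient.mk (X g))) (fun g h => by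
      rw [← ofAdd_add]
      congr 1
      rw [← Submodule.Quotient.mk_add, Submodule.Quotient.eq]
      exact hadd g h)
  have hF : ∀ g, F g = Multiplicative.ofAdd (Submodule.Quotient.mk (X g)) := fun g => rfl
  have hcomm : ∀ y ∈ commutator H, X y ∈ aug H ρ ^ 2 := by
    intro y hy
    have h1 : F y = 1 := (Abelianization.commutator_subset_ker F) hy
    rw [hF, ofAdd_eq_one, Submodule.Quotient.mk_eq_zero] at h1
    exact h1
  have hpow : ∀ g (m : ℕ), X (g ^ m) - (m : A) • X g ∈ aug H ρ ^ 2 := by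
    intro g m
    have h1 : F (g ^ m) = F g ^ m := map_pow F g m
    rw [hF, hF, ← ofAdd_nsmul] at h1
    have h2 := Multiplicative.ofAdd.injective h1
    rw [← Nat.cast_smul_eq_nsmul A, ← Submodule.Quotient.mk_smul, Submodule.Quotient.eq] at h2
    exact h2
  have hmain : ∀ g, X (MulAut.conjNormal σ g) - (c : A) • X g ∈ aug H ρ ^ 2 := by
    intro g
    refine Pool.Agent.W975.UF.krull _ _ fun M => ?_
    -- the subgroup of the elements trivial modulo the `M`-th power
    let f : H →* GL (Fin n) (A ⧸ maximalIdeal A ^ M) :=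
      (Matrix.GeneralLinearGroup.map (Ideal.Quotient.mk (maximalIdeal A ^ M))).comp
        (ρ.comp H.subtype)
    have hf1 : ∀ g : H, (∀ i j, ((ρ g : Matrix (Fin n) (Fin n) A) - 1) i j ∈
        maximalIdeal A ^ M) → f g = 1 := fun g hg => Pool.Agent.W569.FM.map_eq_one hg
    have hf2 : ∀ g : H, f g = 1 → X g ∈
        (maximalIdeal A ^ M) • (⊤ : Submodule A (Matrix (Fin n) (Fin n) A)) := by
      intro g hg
      refine Pool.Agent.W569.UG.mem_smul_top' _ _ fun a b => ?_
      have h2 : Matrix.GeneralLinearGroup.map (Ideal.Quotient.mk (maximalIdeal A ^ M)) (ρ g) =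
          Matrix.GeneralLinearGroup.map (Ideal.Quotient.mk (maximalIdeal A ^ M)) 1 := by
        rw [map_one]
        exact hg
      exact Pool.Agent.W569.FM.ME_of_map_eq h2 a b
    have hopen : IsOpen (f.ker : Set H) := by
      apply Subgroup.isOpen_of_mem_nhds _ (g := (1 : H))
      have h1 := Pool.Agent.W569.FM.eventually_ME hA (ρ.comp H.subtype)
        (hρ.comp continuous_subtype_val) M
      filter_upwards [h1] with g hg
      exact hf1 g hg
    have hkl : k ≤ l ^ k := (Nat.lt_pow_self hp.one_lt).le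
    obtain ⟨y, hy, x, hx, hgx⟩ := hab (k + M) f.ker hopen (fun h => by
      rw [MonoidHom.mem_ker]
      apply hf1
      intro i j
      have h1 := ent_unip (J := maximalIdeal A) hp hlA (hk h) hkl
      have h2 := ent_pow_lM hlA h1 M i j
      have h3 : (ρ ((h ^ l ^ (k + M) : H) : G) : Matrix (Fin n) (Fin n) A) =
          ((ρ h : Matrix (Fin n) (Fin n) A) ^ l ^ k) ^ l ^ M := by
        rw [Subgroup.coe_pow, map_pow, Units.val_pow_eq_pow_val, ← pow_mul, ← pow_add]
      rw [h3]
      exact Ideal.pow_le_pow_right (by omega) h2) (fun τ hτ => by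
      rw [MonoidHom.mem_ker]
      show Matrix.GeneralLinearGroup.map (Ideal.Quotient.mk (maximalIdeal A ^ M)) (ρ τ) = 1
      rw [hur τ hτ, map_one]) g
    rw [hgx]
    have h1 : X (g ^ c * y * x) - (c : A) • X g = (X (g ^ c * y * x) - (X (g ^ c * y) + X x)) +
        (X (g ^ c * y) - (X (g ^ c) + X y)) + (X (g ^ c) - (c : A) • X g) + X y + X x := by
      abel
    rw [h1]
    refine Submodule.add_mem _ (Submodule.mem_sup_left ?_) (Submodule.mem_sup_right (hf2 x hx))
    exact Submodule.add_mem _ (Submodule.add_mem _ (Submodule.add_mem _ (hadd _ _) (hadd _ _))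
      (hpow _ _)) (hcomm y hy)
  intro x hx
  unfold aug at hx
  induction hx using Submodule.span_induction with
  | mem x hx =>
    obtain ⟨g, rfl⟩ := hx
    have h1 := hmain g
    rw [← hconj] at h1
    exact h1
  | zero => rw [mul_zero, zero_mul, smul_zero, sub_zero]; exact Submodule.zero_mem _
  | add x y _ _ hx hy =>
    rw [mul_add, add_mul, smul_add, add_sub_add_comm]
    exact Submodule.add_mem _ hx hy
  | smul a x _ hx =>
    rw [mul_smul_comm, smul_mul_assoc, smul_comm (c : A) a x, ← smul_sub]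
    exact Submodule.smul_mem _ _ hx

end rel

end Run7.h784
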