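import Pool.Agent.Run7.h784.Int

/-!
# Residue fields of the maximal ideals; decomposition groups are inertia groups
-/

set_option autoImplicit false
set_option linter.unusedSectionVars false
set_option linter.unusedVariables false

namespace Run7.h784

open MvPolynomial

section

variable {ι k K Ω : Type} [Field k] [Field K] [Field Ω]
  [Algebra (MvPolynomial ι k) K] [Algebra k K] [Algebra K Ω] [Algebra k Ω]
  [IsScalarTower k (MvPolynomial ι k) K] [IsScalarTower k K Ω]
  [IsFractionRing (MvPolynomial ι k) K] {g : MvPolynomial ι k}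

lemma ks_sep [IsSepClosed Ω] : IsSepClosed (ks k Ω) := by
  apply IsSepClosed.of_exists_root
  intro p hm hirr hsep
  obtain ⟨x, hx⟩ := IsSepClosed.exists_aeval_eq_zero Ω p
    (Polynomial.degree_pos_of_irreducible hirr).ne' hsep
  have h1 : IsAlgebraic (ks k Ω) x := ⟨p, hirr.ne_zero, hx⟩
  have h2 : IsAlgebraic k x := IsAlgebraic.restrictScalars k h1
  refine ⟨⟨x, mem_algebraicClosure_iff.2 h2⟩, ?_⟩
  apply Subtype.ext
  have h3 := Polynomial.aeval_algebraMap_apply Ω
    (⟨x, mem_algebraicClosure_iff.2 h2⟩ : ks k Ω) p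
  rw [Polynomial.coe_aeval_eq_eval] at h3
  exact h3.symm.trans hx

/-- the inclusion of the constants in the integral closure -/
noncomputable def cst (g : MvPolynomial ι k) : ks k Ω →+* intRing K Ω g where
  toFun a := ⟨a, const_mem (ks_alg a)⟩
  map_one' := rfl
  map_mul' _ _ := rfl
  map_zero' := rfl
  map_add' _ _ := rfl

/-- the residues are purely inseparable over the constants -/
lemma exists_res [Finite ι] [IsSepClosed Ω] {P : Ideal (intRing K Ω g)} (hP : P.IsMaximal)
    {y : Ω} (hy : y ∈ intRing K Ω g) : ∃ (m : ℕ) (a : ks k Ω),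
      InP P (y ^ (ringExpChar (ks k Ω)) ^ m - a) := by
  classical
  have hfin : Fintype ι := Fintype.ofFinite ι
  let _ : Field (intRing K Ω g ⧸ P) := Ideal.Quotient.field P
  let C1 : ks k Ω →+* intRing K Ω g ⧸ P := (Ideal.Quotient.mk P).comp (cst g)
  let _ : Algebra (ks k Ω) (intRing K Ω g ⧸ P) := C1.toAlgebra
  -- the images of the coordinate functions
  have hmem : ∀ c : coordRing K g, algebraMap K Ω c ∈ intRing K Ω g := fun c => coord_mem c.2
  let ψ : coordRing K g →+* intRing K Ω g :=
    { toFun := fun c => ⟨algebraMap K Ω c, hmem c⟩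
      map_one' := Subtype.ext (map_one _)
      map_mul' := fun a b => Subtype.ext (map_mul _ _ _)
      map_zero' := Subtype.ext (map_zero _)
      map_add' := fun a b => Subtype.ext (map_add _ _ _) }
  let π : coordRing K g →+* intRing K Ω g ⧸ P := (Ideal.Quotient.mk P).comp ψ
  have hX : ∀ p : MvPolynomial ι k, algebraMap (MvPolynomial ι k) K p ∈ coordRing K g :=
    fun p => Algebra.subset_adjoin (Or.inl ⟨p, rfl⟩)
  have hG : (algebraMap (MvPolynomial ι k) K g)⁻¹ ∈ coordRing K g :=
    Algebra.subset_adjoin (Or.inr rfl)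
  set s : Set (intRing K Ω g ⧸ P) :=
    Set.range (fun i : ι => π ⟨_, hX (X i)⟩) ∪ {π ⟨_, hG⟩} with hs
  have hsf : s.Finite := (Set.finite_range _).union (Set.finite_singleton _)
  set D : Subalgebra (ks k Ω) (intRing K Ω g ⧸ P) := Algebra.adjoin (ks k Ω) s with hD
  have hDft : Algebra.FiniteType (ks k Ω) D := by
    refine ⟨Subalgebra.fg_top D |>.2 ?_⟩
    exact ⟨hsf.toFinset, by rw [hsf.coe_toFinset]⟩
  have hconst : ∀ r : k, ∀ h : algebraMap k K r ∈ coordRing K g,
      π ⟨algebraMap k K r, h⟩ = C1 (algebraMap k (ks k Ω) r) := by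
    intro r h
    show Ideal.Quotient.mk P _ = Ideal.Quotient.mk P _
    congr 1
    apply Subtype.ext
    show algebraMap K Ω (algebraMap k K r) = ((algebraMap k (ks k Ω) r : ks k Ω) : Ω)
    rw [← IsScalarTower.algebraMap_apply k K Ω]
    rfl
  have hpoly : ∀ p : MvPolynomial ι k, π ⟨_, hX p⟩ ∈ D := by
    intro p
    induction p using MvPolynomial.induction_on with
    | C a =>
      have e : algebraMap (MvPolynomial ι k) K (C a) = algebraMap k K a := by
        rw [IsScalarTower.algebraMap_apply k (MvPolynomial ι k) K]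
        rfl
      have h1 : π ⟨_, hX (C a)⟩ = C1 (algebraMap k (ks k Ω) a) := by
        rw [← hconst a (by rw [← e]; exact hX _)]
        congr 1
        exact Subtype.ext e
      rw [h1]
      exact D.algebraMap_mem _
    | add p q hp hq =>
      have h1 : (⟨_, hX (p + q)⟩ : coordRing K g) = ⟨_, hX p⟩ + ⟨_, hX q⟩ :=
        Subtype.ext (map_add _ _ _)
      rw [h1, map_add]
      exact D.add_mem hp hq
    | mul_X p i hp =>
      have h1 : (⟨_, hX (p * X i)⟩ : coordRing K g) = ⟨_, hX p⟩ * ⟨_, hX (X i)⟩ :=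
        Subtype.ext (map_mul _ _ _)
      rw [h1, map_mul]
      exact D.mul_mem hp (Algebra.subset_adjoin (Or.inl ⟨i, rfl⟩))
  have hπ : ∀ (c : K) (hc : c ∈ coordRing K g), π ⟨c, hc⟩ ∈ D := by
    intro c hc
    have hc' := hc
    unfold coordRing at hc'
    induction hc' using Algebra.adjoin_induction with
    | mem x hx =>
      rcases hx with ⟨q, rfl⟩ | hx
      · exact hpoly q
      · rw [Set.mem_singleton_iff] at hx
        subst hx
        exact Algebra.subset_adjoin (Or.inr rfl)
    | algebraMap r =>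
      rw [hconst r hc]
      exact D.algebraMap_mem _
    | add x z hx' hz' hx hz =>
      have h1 : (⟨x + z, hc⟩ : coordRing K g) = ⟨x, hx'⟩ + ⟨z, hz'⟩ := rfl
      rw [h1, map_add]
      exact D.add_mem (hx hx') (hz hz')
    | mul x z hx' hz' hx hz =>
      have h1 : (⟨x * z, hc⟩ : coordRing K g) = ⟨x, hx'⟩ * ⟨z, hz'⟩ := rfl
      rw [h1, map_mul]
      exact D.mul_mem (hx hx') (hz hz')
  -- integrality
  have hint : Algebra.IsIntegral D (intRing K Ω g ⧸ P) := by
    refine ⟨fun x => ?_⟩
    obtain ⟨z, rfl⟩ := Ideal.Quotient.mk_surjective x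
    obtain ⟨p, hp, h1⟩ : ∃ p : Polynomial (coordRing K g), p.Monic ∧
        Polynomial.eval₂ (algebraMap (coordRing K g) Ω) (z : Ω) p = 0 := z.2
    have h2 : Polynomial.eval₂ ψ z p = 0 := by
      apply Subtype.ext
      have h3 : (intRing K Ω g).subtype (Polynomial.eval₂ ψ z p) = 0 := by
        rw [Polynomial.hom_eval₂]
        exact h1
      exact h3
    let π' : coordRing K g →+* D :=
      { toFun := fun c => ⟨π c, hπ c c.2⟩
        map_one' := Subtype.ext (map_one _)
        map_mul' := fun a b => Subtype.ext (map_mul _ _ _)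
        map_zero' := Subtype.ext (map_zero _)
        map_add' := fun a b => Subtype.ext (map_add _ _ _) }
    refine ⟨p.map π', hp.map _, ?_⟩
    rw [Polynomial.eval₂_map]
    have e : (algebraMap D (intRing K Ω g ⧸ P)).comp π' = (Ideal.Quotient.mk P).comp ψ := rfl
    rw [e, ← Polynomial.hom_eval₂, h2, map_zero]
  have hDf : IsField D := isField_of_isIntegral_of_isField (R := D) (S := intRing K Ω g ⧸ P)
    Subtype.val_injective (Field.toIsField _)
  let _ : Field D := hDf.toField
  have hfinD : Module.Finite (ks k Ω) D := finite_of_finite_type_of_isJacobsonRing (ks k Ω) D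
  have halgD : Algebra.IsAlgebraic (ks k Ω) D := Algebra.IsAlgebraic.of_finite (ks k Ω) D
  have hintD : Algebra.IsIntegral (ks k Ω) D := Algebra.IsIntegral.of_finite (ks k Ω) D
  have hintE : Algebra.IsIntegral (ks k Ω) (intRing K Ω g ⧸ P) :=
    Algebra.IsIntegral.trans (R := ks k Ω) (A := D) (B := intRing K Ω g ⧸ P)
  have halgE : Algebra.IsAlgebraic (ks k Ω) (intRing K Ω g ⧸ P) := inferInstance
  have hsep : IsSepClosed (ks k Ω) := ks_sep
  have hpi : IsPurelyInseparable (ks k Ω) (intRing K Ω g ⧸ P) := inferInstance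
  obtain ⟨m, a, ha⟩ := (isPurelyInseparable_iff_pow_mem (ks k Ω)
    (ringExpChar (ks k Ω))).1 hpi (Ideal.Quotient.mk P ⟨y, hy⟩)
  refine ⟨m, a, ?_⟩
  have h1 : Ideal.Quotient.mk P (cst g a) =
      Ideal.Quotient.mk P ((⟨y, hy⟩ : intRing K Ω g) ^ (ringExpChar (ks k Ω)) ^ m) := by
    rw [map_pow]
    exact ha
  have h2 := (Ideal.Quotient.mk_eq_mk_iff_sub_mem _ _).1 h1.symm
  exact ⟨_, h2, rfl⟩

/-- an element of the geometric Galois group which stabilises a maximal ideal lies in its inertia
group -/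
lemma inertia_of_stab [Finite ι] [IsSepClosed Ω] {P : Ideal (intRing K Ω g)} (hP : P.IsMaximal)
    {τ : Gal(Ω/K)} (hτ : τ ∈ Hg k K Ω) (hst : ∀ z, InP P z → InP P (τ z)) : InInertia P τ := by
  intro y
  obtain ⟨m, a, ha⟩ := exists_res hP y.2
  have h1 := hst _ ha
  have h2 : τ (a : Ω) = a := fix_geom hτ (alg_geom (ks_alg a))
  rw [map_sub, h2, map_pow] at h1
  have h3 := h1.sub ha
  have h4 : (τ (y : Ω)) ^ (ringExpChar (ks k Ω)) ^ m - (a : Ω) -
      ((y : Ω) ^ (ringExpChar (ks k Ω)) ^ m - a) =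
      (τ (y : Ω) - (y : Ω)) ^ (ringExpChar (ks k Ω)) ^ m := by
    have hE : ExpChar Ω (ringExpChar (ks k Ω)) :=
      expChar_of_injective_algebraMap (algebraMap (ks k Ω) Ω).injective _
    rw [sub_pow_expChar_pow]
    ring
  rw [h4] at h3
  exact h3.of_pow hP.isPrime ((intRing K Ω g).sub_mem (gal_mem τ y.2) y.2)

end

end Run7.h784
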